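import Pool.Agent.MP_2e2529_nt.Freq

/-! Decay of the Fourier coefficients, faster than any power of the level. -/

namespace Pool.Agent.MP_2e2529_nt

open Finset Real

variable {n : ℕ}

def Adm (G : ℤ → R n → ℂ) : Prop := (∀ η, NB G η 1) ∧ ∀ a η, 2 * η ≠ 0 → G a η = 0

theorem polyK (α : ℕ) {ρ : ℝ} (h0 : 0 < ρ) (h1 : ρ < 1) :
    ∃ K : ℝ, 0 ≤ K ∧ ∀ r : ℕ, ρ ^ r ≤ K / (r + 1) ^ α := by
  obtain ⟨K, hK⟩ := (tendsto_pow_const_mul_const_pow_of_abs_lt_one α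
    (show |ρ| < 1 by rwa [abs_of_pos h0])).bddAbove_range
  have h2 : ∀ r : ℕ, ((r : ℝ) + 1) ^ α * ρ ^ (r + 1) ≤ K := fun r => by
    have := hK (Set.mem_range_self (r + 1))
    push_cast at this
    exact this
  refine ⟨K / ρ, div_nonneg (le_trans (by positivity) (h2 0)) h0.le, fun r => ?_⟩
  rw [le_div_iff₀ (by positivity), le_div_iff₀ h0]
  linarith [h2 r, pow_succ ρ r ▸ h2 r]

theorem tailK (α : ℕ) : ∃ K : ℝ, 0 ≤ K ∧ ∀ r s L x : ℕ, 3 ^ L ≤ 2 ^ r → s ≤ L + 2 →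
    9 * r ≤ 10 * x → (7 / 3 : ℝ) ^ s / 2 ^ x ≤ K / (r + 1) ^ α := by
  obtain ⟨K, h0, hK⟩ := polyK α (ρ := 47 / 50) (by norm_num) (by norm_num)
  refine ⟨6 * K, by positivity, fun r s L x h1 h2 h3 => ?_⟩
  have h4 : (7 / 3 : ℝ) ^ L / 2 ^ x ≤ (47 / 50) ^ r := by
    refine (pow_le_pow_iff_left₀ (by positivity) (by positivity) (show 10 ≠ 0 by norm_num)).1 ?_
    have a1 : ((7 / 3 : ℝ) ^ L) ^ 10 ≤ (2 ^ r) ^ 8 := by
      have : ((3 : ℝ) ^ L) ^ 8 ≤ (2 ^ r) ^ 8 := by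
        gcongr
        exact_mod_cast h1
      refine le_trans ?_ this
      rw [← pow_mul, ← pow_mul, mul_comm L, mul_comm L, pow_mul, pow_mul]
      gcongr
      norm_num
    have a2 : ((2 : ℝ) ^ r) ^ 9 ≤ (2 ^ x) ^ 10 := by
      rw [← pow_mul, ← pow_mul]
      exact pow_le_pow_right₀ one_le_two (by omega)
    have a3 : (1 : ℝ) ≤ ((47 / 50) ^ r) ^ 10 * 2 ^ r := by
      rw [← pow_mul, mul_comm r, pow_mul, ← mul_pow]
      exact one_le_pow₀ (by norm_num)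
    rw [div_pow, div_le_iff₀ (by positivity)]
    calc ((7 / 3 : ℝ) ^ L) ^ 10 ≤ 1 * (2 ^ r) ^ 8 := by rwa [one_mul]
      _ ≤ (((47 / 50) ^ r) ^ 10 * 2 ^ r) * (2 ^ r) ^ 8 := by gcongr
      _ = ((47 / 50) ^ r) ^ 10 * (2 ^ r) ^ 9 := by ring
      _ ≤ _ := by gcongr
  calc (7 / 3 : ℝ) ^ s / 2 ^ x ≤ (7 / 3) ^ (L + 2) / 2 ^ x := by gcongr; norm_num
    _ = (7 / 3) ^ 2 * ((7 / 3) ^ L / 2 ^ x) := by ring
    _ ≤ 6 * (K / (r + 1) ^ α) :=
      mul_le_mul (by norm_num) (h4.trans (hK r)) (by positivity) (by norm_num)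
    _ = _ := by ring

theorem lv_ne {r d r' s : ℕ} {η : R n} (h : 2 ^ r * η ≠ 0) (hr : d + r' ≤ r) :
    2 ^ r' * (2 ^ d * th n ^ s * η) ≠ 0 := by
  obtain ⟨c, rfl⟩ := Nat.exists_eq_add_of_le hr
  intro e
  exact th_ne (s := s) h (by linear_combination 2 ^ c * e)

theorem Adm.one {G : ℤ → R n → ℂ} (h : Adm G) (l : ℕ) (η : R n) : NB (Ev l G) η 1 := by
  rw [← EW_const l (1 : ℝ)]
  exact NB_word fun w _ => h.1 _

theorem Adm.small {G : ℤ → R n → ℂ} (h : Adm G) (l : ℕ) {r : ℕ} {η : R n} (hη : 2 ^ r * η ≠ 0) :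
    NB (Ev l G) η ((7 / 3) ^ l / 2 ^ r) := by
  have := EW_pow l (2 : ℝ)
  norm_num at this
  rw [← this, div_eq_mul_inv, ← EW_mul']
  refine NB_word fun w _ => ?_
  by_cases e : r ≤ w.sum
  · refine (h.1 _).mono ?_
    rw [← div_eq_mul_inv, one_le_div (by positivity)]
    exact pow_le_pow_right₀ one_le_two e
  · refine (NB_zero fun a => h.2 a _ ?_).mono (by positivity)
    simpa using lv_ne (d := w.sum) (r' := 1) (s := l) hη (by omega)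

theorem white {t ε : ℝ} (h1 : |t| ≤ 1 / 2) (h2 : ε ≤ |t|) (h3 : 0 ≤ ε) :
    ‖1 + Complex.exp (Complex.I * (2 * π * t : ℝ))‖ ≤ 2 - 4 * ε ^ 2 := by
  have a1 : |2 * π * t| ≤ π := by
    rw [abs_mul, abs_of_pos two_pi_pos]
    nlinarith [pi_pos]
  have a2 := cos_le_one_sub_mul_cos_sq a1
  rw [show 2 / π ^ 2 * (2 * π * t) ^ 2 = 8 * t ^ 2 by field_simp; ring] at a2
  have a3 : ε ^ 2 ≤ t ^ 2 := by rw [← sq_abs t]; gcongr
  refine le_trans (le_abs_self _) (abs_le_of_sq_le_sq ?_ (by nlinarith))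
  rw [Complex.sq_norm, Complex.normSq_apply, mul_comm Complex.I]
  simp only [Complex.add_re, Complex.one_re, Complex.exp_ofReal_mul_I_re, Complex.add_im,
    Complex.one_im, Complex.exp_ofReal_mul_I_im]
  nlinarith [sin_sq_add_cos_sq (2 * π * t), sq_nonneg (ε ^ 2)]

section

variable {G : ℤ → R n → ℂ} {φ : ℕ → ℝ} {l r r' : ℕ} {η : R n}

theorem gain (ih : ∀ l' < l, ∀ η r, 2 ^ r * η ≠ 0 → NB (Ev l' G) η (φ r)) (hη : 2 ^ r * η ≠ 0)
    {j : ℕ} {κ : ℝ} (hj : j + 2 ≤ l) (hr : 2 * j + 4 + r' ≤ r)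
    (h : ‖1 + ee n (th n ^ j * (2 * th n ^ 2 * η))‖ ≤ 2 - κ) :
    NB (Ev l G) η ((1 - κ / 9 * (1 / 3) ^ j) * φ r') := by
  obtain ⟨l', rfl⟩ := Nat.exists_eq_add_of_le hj
  have := EW_pow j (0 : ℝ)
  norm_num at this
  rw [← this, ← EW_mul, ← EW_const j (1 : ℝ), ← EW_sub, ← EW_mul', add_assoc, Ev_add, Ev_add]
  refine NB_word fun w hw => NB_coef (fun d hd => ih l' (by omega) _ r' ?_) ((coef_two _).trans ?_)
  · have := sum_le_of_mem hw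
    exact lv_ne (lv_ne (r' := d + r') hη (by omega)) le_rfl
  · by_cases e : w.sum = 0
    · rw [e, show 2 * th n ^ 2 * (2 ^ 0 * th n ^ j * η) = th n ^ j * (2 * th n ^ 2 * η) by ring]
      simp only [pow_zero]
      linarith
    · rw [zero_pow e]
      have := norm_add_le 1 (ee n (2 * th n ^ 2 * (2 ^ w.sum * th n ^ j * η)))
      rw [norm_one, norm_ee] at this
      linarith

theorem long (hG : Adm G) (ih : ∀ l' < l, ∀ η r, 2 ^ r * η ≠ 0 → NB (Ev l' G) η (φ r))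
    (hη : 2 ^ r * η ≠ 0) {γ : ℝ} (hγ : 0 < γ) {M L s x : ℕ} (hM : 8 / γ ^ 2 ≤ M) {Z : ℤ}
    (hZ : ¬ 3 ∣ Z) (hψ : 2 * th n ^ 2 * η = 3 ^ L * Z) (hs : s + M = L + 2) (hs1 : 1 ≤ s)
    (hl : L + 3 ≤ l) (hr : x + 2 * (M + 1) + r' ≤ r) :
    NB (Ev l G) η ((7 / 3) ^ s / 2 ^ x +
      (γ + 14 * 12 ^ M * |(Z : ℝ)| / 2 ^ n * (7 / 3) ^ s + (7 / 12) ^ s) * φ r') := by
  obtain ⟨l', rfl⟩ : ∃ l', l = s + (M + 1 + l') := ⟨l - (L + 3), by omega⟩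
  have a1 := EW_pow s (2 : ℝ)
  have a2 := EW_pow s (1 / 2 : ℝ)
  norm_num at a1 a2
  have h0 : 0 ≤ φ r' := (ih 0 (by omega) _ r' (lv_ne (d := 0) (s := 0) hη (by omega))).nonneg
  rw [← a2, ← a1, div_eq_mul_inv (EW _ _), ← EW_mul', ← EW_mul, ← EW_const s γ, ← EW_add, ← EW_add,
    ← EW_mul', ← EW_add, Ev_add]
  refine NB_word fun w hw => ?_
  by_cases e : x ≤ w.sum
  · refine (hG.one _ _).mono (le_add_of_le_of_nonneg ?_ (by positivity))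
    rw [← div_eq_mul_inv, one_le_div (by positivity)]
    exact pow_le_pow_right₀ one_le_two e
  cases hA : w.sum with
  | zero =>
    refine (ih _ (by omega) _ r' (lv_ne hη (by omega))).mono
      (le_add_of_nonneg_of_le (by positivity) (le_mul_of_one_le_left h0 ?_))
    rw [pow_zero (1 / 2 : ℝ)]
    exact le_add_of_nonneg_left (by positivity)
  | succ A =>
    have b1 : 2 ^ (A + 1) * th n ^ s * η = 3 ^ M * ((2 ^ A * Z : ℤ) : R n) := by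
      have b2 : (3 : R n) ^ s * 3 ^ M = 3 ^ L * 3 ^ 2 := by rw [← pow_add, ← pow_add, hs]
      push_cast
      linear_combination 2 ^ A * th n ^ s * 3 ^ 2 * hψ - 2 ^ A * th n ^ s * Z * b2 +
        3 ^ M * 2 ^ A * Z * pow_th n s - 2 ^ (A + 1) * th n ^ s * η * pow_th n 2
    have b3 : ¬ 3 ∣ 2 ^ A * Z := fun a => (Int.prime_three.dvd_or_dvd a).elim
      (fun a => absurd (Int.prime_three.dvd_of_dvd_pow a) (by norm_num)) hZ
    have b4 := coef_block (n := n) hγ hM b3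
    rw [← b1] at b4
    rw [Ev_add]
    refine (NB_coef (fun d hd => ih l' (by omega) _ r'
      (lv_ne (lv_ne (r' := d + r') hη (by omega)) le_rfl)) b4).mono
      (le_add_of_nonneg_of_le (by positivity) (mul_le_mul_of_nonneg_right ?_ h0))
    push_cast
    rw [abs_mul, abs_of_pos (by positivity : (0 : ℝ) < 2 ^ A)]
    refine le_add_of_le_of_nonneg (add_le_add le_rfl ?_) (by positivity)
    rw [pow_succ]
    have : 0 ≤ 14 * 12 ^ M * |(Z : ℝ)| / 2 ^ n * 2 ^ A := by positivity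
    calc 14 * 12 ^ M * (2 ^ A * |(Z : ℝ)|) / 2 ^ n = 14 * 12 ^ M * |(Z : ℝ)| / 2 ^ n * 2 ^ A := by
          ring
      _ ≤ _ := by linarith

end

theorem exists_top {r : ℕ} {η : R n} (hη : 2 ^ r * η ≠ 0) :
    ∃ r₁, r ≤ r₁ ∧ r₁ ≤ n ∧ 2 ^ r₁ * η ≠ 0 ∧ 2 ^ (r₁ + 1) * η = 0 := by
  classical
  have h0 : 2 ^ n * η = 0 := by
    rw [show (2 : R n) ^ n = ((2 ^ n : ℕ) : R n) by push_cast; rfl, ZMod.natCast_self, zero_mul]
  have h1 : ∃ k, 2 ^ k * η = 0 := ⟨n, h0⟩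
  have h2 : r < Nat.find h1 := by
    by_contra e
    obtain ⟨c, rfl⟩ := Nat.exists_eq_add_of_le (not_lt.1 e)
    exact hη (by linear_combination 2 ^ c * Nat.find_spec h1)
  have h3 := Nat.find_min' h1 h0
  refine ⟨Nat.find h1 - 1, by omega, by omega, Nat.find_min h1 (by omega), ?_⟩
  rw [Nat.sub_add_cancel (by omega)]
  exact Nat.find_spec h1

theorem three_pow_le {r L : ℕ} {Z : ℤ} (hr : r ≤ n) (h0 : Z ≠ 0) (h1 : Z.natAbs ≤ 2 ^ n)
    (h2 : 2 ^ r * (Z : R n) = 0) (h3 : 3 ^ L ∣ Z) : 3 ^ L ≤ 2 ^ r := by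
  obtain ⟨c, rfl⟩ := Nat.exists_eq_add_of_le hr
  have a1 : ((2 ^ r * Z : ℤ) : R (r + c)) = 0 := by push_cast; exact h2
  rw [ZMod.intCast_zmod_eq_zero_iff_dvd] at a1
  push_cast at a1
  rw [pow_add, mul_dvd_mul_iff_left (by positivity)] at a1
  have a2 : 3 ^ L * 2 ^ c ∣ Z.natAbs :=
    Nat.Coprime.mul_dvd_of_dvd_of_dvd (Nat.Coprime.pow _ _ (by norm_num))
      (Int.natCast_dvd.1 (by exact_mod_cast h3)) (Int.natCast_dvd.1 (by exact_mod_cast a1))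
  have a3 := (Nat.le_of_dvd (Int.natAbs_pos.2 h0) a2).trans h1
  rw [pow_add] at a3
  exact Nat.le_of_mul_le_mul_right a3 (by positivity)

theorem decay (α : ℕ) : ∃ C : ℝ, 0 ≤ C ∧ ∀ (n : ℕ) (G : ℤ → R n → ℂ), Adm G →
    ∀ l η r, 2 ^ r * η ≠ 0 → NB (Ev l G) η (C / (r + 1 : ℕ) ^ α) := by
  obtain ⟨K, hK0, hK⟩ := tailK α
  obtain ⟨γ, hγ, hγ1, hγ2⟩ : ∃ γ : ℝ, 0 < γ ∧ γ ≤ 1 ∧ 6 * γ * 20 ^ α = 1 :=
    ⟨1 / (6 * 20 ^ α), by positivity, by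
      rw [div_le_one (by positivity)]
      linarith [one_le_pow₀ (M₀ := ℝ) (a := 20) (n := α) (by norm_num)], by field_simp⟩
  obtain ⟨M₀, hM₀⟩ := exists_pow_lt_of_lt_one hγ (show (7 / 12 : ℝ) < 1 by norm_num)
  obtain ⟨M₁, hM₁⟩ := exists_nat_ge (8 / γ ^ 2)
  obtain ⟨M, hM2, hM, hM3⟩ : ∃ M : ℕ, 2 ≤ M ∧ 8 / γ ^ 2 ≤ M ∧ (7 / 12 : ℝ) ^ M ≤ γ :=
    ⟨M₀ + M₁ + 2, by omega, hM₁.trans (by push_cast; linarith [M₀.cast_nonneg (α := ℝ)]),
      (pow_le_pow_of_le_one (by norm_num) (by norm_num) (by omega)).trans hM₀.le⟩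
  obtain ⟨ε, hε, hε1, hε2⟩ : ∃ ε : ℝ, 0 < ε ∧ ε ≤ 1 / 10 ∧ 14 * 12 ^ M * ε = γ :=
    ⟨γ / (14 * 12 ^ M), by positivity, by
      rw [div_le_iff₀ (by positivity)]
      linarith [one_le_pow₀ (M₀ := ℝ) (a := 12) (n := M) (by norm_num)], by field_simp⟩
  obtain ⟨κ, hκ, hκ1⟩ : ∃ κ : ℝ, 0 < κ ∧ κ = 4 * ε ^ 2 / 9 * (1 / 3) ^ (2 * M) :=
    ⟨_, by positivity, rfl⟩
  obtain ⟨r₀, hr₀⟩ := exists_nat_ge (α * (4 * M + 4) / κ)
  refine ⟨2 * K + (r₀ + 40 * M + 40 : ℕ) ^ α, by positivity, fun n G hG l => ?_⟩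
  generalize hC : 2 * K + ((r₀ + 40 * M + 40 : ℕ) : ℝ) ^ α = C
  have hC0 : 0 ≤ C := by rw [← hC]; positivity
  have hC1 : 2 * K ≤ C := by rw [← hC]; exact le_add_of_nonneg_right (by positivity)
  induction l using Nat.strong_induction_on with
  | _ l ih =>
  intro η r hη
  obtain ⟨r, h1, hn, hη, h2⟩ := exists_top hη
  refine NB.mono (q := C / (r + 1 : ℕ) ^ α) ?_ (by gcongr)
  clear h1
  by_cases hr : r < r₀ + 40 * M + 40
  · refine (hG.one _ _).mono ?_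
    rw [one_le_div (by positivity), ← hC]
    exact le_add_of_nonneg_of_le (by positivity) (pow_le_pow_left₀ (by positivity)
      (by exact_mod_cast (by omega)) α)
  have hsm : ∀ L, 3 ^ L ≤ 2 ^ r → l ≤ L + 2 → NB (Ev l G) η (C / (r + 1 : ℕ) ^ α) :=
    fun L a b => (hG.small l hη).mono ((hK r l L r a b (by omega)).trans (by
      push_cast
      gcongr
      linarith))
  have hg : ∀ j ≤ 2 * M, j + 2 ≤ l → ‖1 + ee n (th n ^ j * (2 * th n ^ 2 * η))‖ ≤ 2 - 4 * ε ^ 2 →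
      NB (Ev l G) η (C / (r + 1 : ℕ) ^ α) := by
    intro j a b c
    obtain ⟨r', rfl⟩ : ∃ r', r = 4 * M + 4 + r' := ⟨r - (4 * M + 4), by omega⟩
    refine (gain (φ := fun r => C / (r + 1 : ℕ) ^ α) (r' := r') ih hη b (by omega) c).mono ?_
    have d1 : 1 - 4 * ε ^ 2 / 9 * (1 / 3) ^ j ≤ 1 - κ := by
      rw [hκ1]
      gcongr ?_ - _ * ?_
      exact pow_le_pow_of_le_one (by norm_num) (by norm_num) a
    refine (mul_le_mul_of_nonneg_right d1 (by positivity)).trans ?_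
    have d2 : (0 : ℝ) < (4 * M + 4 + r' + 1 : ℕ) := by positivity
    have d3 := one_add_mul_le_pow (a := -((4 * M + 4) / (4 * M + 4 + r' + 1 : ℕ) : ℝ)) (by
      have : ((4 * M + 4) / (4 * M + 4 + r' + 1 : ℕ) : ℝ) ≤ 1 := by
        rw [div_le_one d2]
        push_cast
        linarith [r'.cast_nonneg (α := ℝ)]
      linarith) α
    rw [show (1 : ℝ) + -((4 * M + 4) / (4 * M + 4 + r' + 1 : ℕ)) =
      (r' + 1 : ℕ) / (4 * M + 4 + r' + 1 : ℕ) by field_simp; push_cast; ring, div_pow] at d3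
    have d4 : α * ((4 * M + 4) / (4 * M + 4 + r' + 1 : ℕ) : ℝ) ≤ κ := by
      rw [← mul_div_assoc, div_le_iff₀ d2]
      rw [div_le_iff₀ hκ] at hr₀
      have : (r₀ : ℝ) ≤ (4 * M + 4 + r' + 1 : ℕ) := by exact_mod_cast (by omega)
      nlinarith
    calc (1 - κ) * (C / (r' + 1 : ℕ) ^ α) ≤
          ((r' + 1 : ℕ) ^ α / (4 * M + 4 + r' + 1 : ℕ) ^ α) * (C / (r' + 1 : ℕ) ^ α) := by
          gcongr
          linarith
      _ = _ := by field_simp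
  obtain ⟨Z, hZ, hZ1⟩ : ∃ Z : ℤ, 2 * th n ^ 2 * η = Z ∧ Z.natAbs ≤ 2 ^ n / 2 :=
    ⟨_, (ZMod.coe_valMinAbs _).symm, ZMod.natAbs_valMinAbs_le _⟩
  have hZ0 : Z ≠ 0 := by
    rintro rfl
    have := lv_ne (d := 1) (r' := 0) (s := 2) hη (by omega)
    rw [pow_zero, one_mul, pow_one, hZ, Int.cast_zero] at this
    exact this rfl
  by_cases hw : ε ≤ |(Z : ℝ) / 2 ^ n|
  · by_cases hl : 2 ≤ l
    · refine hg 0 (by omega) hl ?_
      rw [pow_zero, one_mul, hZ, ee_int, mul_div_assoc]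
      refine white ?_ hw hε.le
      rw [abs_div, abs_of_pos (by positivity : (0 : ℝ) < 2 ^ n), div_le_iff₀ (by positivity)]
      have : ((2 * Z.natAbs : ℕ) : ℝ) ≤ (2 ^ n : ℕ) := by exact_mod_cast (by omega)
      push_cast [Nat.cast_natAbs] at this
      linarith
    · exact hsm 0 Nat.one_le_two_pow (by omega)
  obtain ⟨L, Z', hZ', rfl⟩ := WfDvdMonoid.max_power_factor' hZ0 Int.prime_three.not_isUnit
  have hL : 3 ^ L ≤ 2 ^ r := three_pow_le hn hZ0 (hZ1.trans (Nat.div_le_self _ _))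
    (by rw [← hZ]; linear_combination th n ^ 2 * h2) (dvd_mul_right _ _)
  rw [abs_div, abs_of_pos (by positivity : (0 : ℝ) < 2 ^ n), not_le] at hw
  push_cast at hw hZ
  rw [abs_mul, abs_of_pos (by positivity : (0 : ℝ) < 3 ^ L)] at hw
  by_cases hl : l ≤ L + 2
  · exact hsm L hL hl
  by_cases hs : L + 1 ≤ 2 * M
  · refine hg (L + 1) hs (by omega) ?_
    obtain ⟨j, hj, hW⟩ := exists_inv3 n
    have a1 : ¬ 3 ∣ j * Z' := fun a => (Int.prime_three.dvd_or_dvd a).elim hj hZ'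
    have a2 : ‖1 + Om (j * Z')‖ = 1 := by
      rw [eq_neg_of_add_eq_zero_left (Om_sum a1), norm_neg, norm_pow, norm_Om, one_pow]
    rw [hZ, show th n ^ (L + 1) * (3 ^ L * Z') = Z' * th n by
      linear_combination Z' * th n * pow_th n L]
    have a3 := norm_add_le (1 + Om (j * Z')) (ee n (Z' * th n) - Om (j * Z'))
    rw [add_add_sub_cancel, a2] at a3
    have a4 : |(Z' : ℝ)| / 2 ^ n ≤ 3 ^ L * |(Z' : ℝ)| / 2 ^ n := by
      gcongr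
      exact le_mul_of_one_le_left (abs_nonneg _) (one_le_pow₀ (by norm_num))
    have a5 : 7 * |(Z' : ℝ)| / (3 * 2 ^ n) = 7 / 3 * (|(Z' : ℝ)| / 2 ^ n) := by ring
    nlinarith [hW Z']
  obtain ⟨s, hs1⟩ : ∃ s, s + M = L + 2 := ⟨L + 2 - M, by omega⟩
  refine (long (φ := fun r => C / (r + 1 : ℕ) ^ α) (r' := r / 10 - 2 * (M + 1)) (x := r - r / 10)
    hG ih hη hγ hM hZ' hZ hs1 (by omega) (by omega) (by omega)).mono ?_
  have a1 := hK r s L (r - r / 10) hL (by omega) (by omega)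
  have a2 : (7 / 12 : ℝ) ^ s ≤ γ :=
    (pow_le_pow_of_le_one (by norm_num) (by norm_num) (by omega)).trans hM3
  have a3 : 14 * 12 ^ M * |(Z' : ℝ)| / 2 ^ n * (7 / 3) ^ s ≤ γ := by
    have : (7 / 3 : ℝ) ^ s ≤ 3 ^ L :=
      (pow_le_pow_left₀ (by norm_num) (by norm_num) s).trans
        (pow_le_pow_right₀ (by norm_num) (by omega))
    calc 14 * 12 ^ M * |(Z' : ℝ)| / 2 ^ n * (7 / 3) ^ s ≤
          14 * 12 ^ M * |(Z' : ℝ)| / 2 ^ n * 3 ^ L := by gcongr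
      _ = 14 * 12 ^ M * (3 ^ L * |(Z' : ℝ)| / 2 ^ n) := by ring
      _ ≤ 14 * 12 ^ M * ε := by gcongr
      _ = γ := hε2
  have a4 : C / ((r / 10 - 2 * (M + 1) + 1 : ℕ) : ℝ) ^ α ≤ 20 ^ α * (C / (r + 1 : ℕ) ^ α) := by
    rw [← mul_div_assoc, div_le_div_iff₀ (by positivity) (by positivity), mul_comm (20 ^ α),
      mul_assoc, ← mul_pow]
    gcongr
    exact_mod_cast (by omega)
  have a5 : K / (r + 1 : ℝ) ^ α ≤ 1 / 2 * (C / (r + 1 : ℕ) ^ α) := by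
    push_cast
    rw [← mul_div_assoc]
    gcongr
    linarith
  have a6 : (γ + 14 * 12 ^ M * |(Z' : ℝ)| / 2 ^ n * (7 / 3) ^ s + (7 / 12) ^ s) *
      (C / ((r / 10 - 2 * (M + 1) + 1 : ℕ) : ℝ) ^ α) ≤
      (3 * γ) * (20 ^ α * (C / (r + 1 : ℕ) ^ α)) := by
    gcongr
    linarith
  rw [← mul_assoc, show 3 * γ * 20 ^ α = 1 / 2 by linarith] at a6
  linarith

end Pool.Agent.MP_2e2529_nt
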