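import Pool.Agent.MP_2e2529_nt.Mix

/-! The accelerated map on odd numbers, its words, and the counting of orbits that stay large. -/

namespace Pool.Agent.MP_2e2529_nt

open Finset Real Classical

def st (x : ℕ) : ℕ := if x % 3 = 0 then 0 else if x % 3 = 1 then 2 else 1

def T (x : ℕ) : ℕ := (2 ^ st x * x - min (st x) 1) / 3

def wd : ℕ → ℕ → List ℕ
  | 0, _ => []
  | H + 1, x => st (T^[H] x) :: wd H x

def Bad (N x : ℕ) : Prop := ∀ k, N < T^[k] x

noncomputable def Bd (N X : ℕ) : ℕ := #{x ∈ range (X + 1) | x % 2 = 1 ∧ Bad N x}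

noncomputable def Pr (N Y H k A : ℕ) : Finset (ℕ × List ℕ) :=
  {p ∈ range (Y + 1) ×ˢ wds H | Bad N p.1 ∧ p.2.sum + k = A ∧
    ∃ u, 2 ^ p.2.sum * (2 * u + 1) = 3 ^ H * p.1 + cw p.2}

theorem T_spec (x : ℕ) : 3 * T x + min (st x) 1 = 2 ^ st x * x := by
  unfold T st
  split_ifs <;> norm_num <;> omega

theorem T_uniq {a x y : ℕ} (ha : a < 3) (h : 3 * y + min a 1 = 2 ^ a * x) : st x = a ∧ T x = y := by
  unfold T st
  interval_cases a <;> split_ifs <;> norm_num at h ⊢ <;> omega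

theorem wd_mem (H x : ℕ) : wd H x ∈ wds H := by
  induction H with
  | zero => simp [wd, wds]
  | succ H ih =>
    rw [mem_wds] at ih ⊢
    refine ⟨by simp [wd, ih.1], fun a ha => ?_⟩
    rcases List.mem_cons.1 ha with rfl | ha
    · unfold st
      split_ifs <;> norm_num
    · exact ih.2 a ha

theorem fwd (H x : ℕ) : 3 ^ H * T^[H] x + cw (wd H x) = 2 ^ (wd H x).sum * x := by
  induction H with
  | zero => simp [wd, cw]
  | succ H ih =>
    rw [wd, cw, List.sum_cons, (mem_wds.1 (wd_mem H x)).1, Function.iterate_succ_apply']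
    linear_combination 3 ^ H * T_spec (T^[H] x) + 2 ^ st (T^[H] x) * ih

theorem bwd {H x y : ℕ} {w : List ℕ} (hw : w ∈ wds H) (h : 2 ^ w.sum * x = 3 ^ H * y + cw w) :
    wd H x = w ∧ T^[H] x = y := by
  obtain ⟨rfl, h2⟩ := mem_wds.1 hw
  clear hw
  induction w generalizing y with
  | nil => simpa [wd, cw] using h
  | cons a u ih =>
    simp only [List.sum_cons, List.length_cons, cw] at h
    have a1 : 2 ^ a ∣ 3 ^ u.length * (3 * y + min a 1) :=
      (Nat.dvd_add_left (dvd_mul_right _ (cw u))).1 ⟨2 ^ u.sum * x, by linear_combination -h⟩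
    obtain ⟨z, hz⟩ := (Nat.Coprime.pow _ _ (by norm_num)).dvd_of_dvd_mul_left a1
    obtain ⟨b1, b2⟩ := ih (y := z) (fun b hb => h2 b (by simp [hb]))
      (Nat.eq_of_mul_eq_mul_left (Nat.two_pow_pos a) (by linear_combination h + 3 ^ u.length * hz))
    obtain ⟨c1, c2⟩ := T_uniq (h2 a (by simp)) hz
    rw [List.length_cons, wd, Function.iterate_succ_apply', b1, b2, c1, c2]
    exact ⟨rfl, rfl⟩

theorem T_low (j x : ℕ) : x + 1 ≤ 3 ^ j * (T^[j] x + 1) := by
  induction j with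
  | zero => simp
  | succ j ih =>
    rw [Function.iterate_succ_apply', pow_succ, mul_assoc]
    refine ih.trans (Nat.mul_le_mul_left _ ?_)
    have := T_spec (T^[j] x)
    have := Nat.le_mul_of_pos_left (T^[j] x) (Nat.two_pow_pos (st (T^[j] x)))
    omega

theorem fiber_sum {ι : Type} {S : Finset ι} {p : ℕ → ι} {g : ι → ℝ} (X m : ℕ)
    (hp : ∀ x, p x ∈ S) (hm : ∀ x y, p x = p y → x % m = y % m) (hg : ∀ i, 0 ≤ g i) :
    ∑ x ∈ range (X + 1), g (p x) ≤ (X / m + 1) * ∑ i ∈ S, g i := by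
  rw [← sum_fiberwise_of_maps_to' (fun x _ => hp x), mul_sum]
  refine sum_le_sum fun i _ => ?_
  rw [sum_const, nsmul_eq_mul]
  refine mul_le_mul_of_nonneg_right (card_mod (fun x hx => ?_) fun x hx y hy => hm x y ?_) (hg i)
  · exact Nat.le_of_lt_succ (mem_range.1 (mem_filter.1 hx).1)
  · rw [(mem_filter.1 hx).2, (mem_filter.1 hy).2]

theorem markov (s : ℕ) {B : ℝ} (hB : 0 < B) :
    EW s (fun w => if B ≤ 2 ^ w.sum then (1 : ℝ) else 0) ≤ (7 / 3) ^ s / B := by
  have := EW_pow s (2 : ℝ)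
  norm_num at this
  rw [← this, div_eq_mul_inv, ← EW_mul']
  refine EW_mono fun w _ => ?_
  split_ifs with h
  · rwa [← div_eq_mul_inv, one_le_div hB]
  · positivity

theorem cnt (G X : ℕ) {B : ℝ} (hB : 0 < B) :
    (#{x ∈ range (X + 1) | B ≤ 2 ^ (wd G x).sum} : ℝ) ≤ (X + 3 ^ G) * ((7 / 3) ^ G / B) := by
  have := fiber_sum (S := wds G) (g := fun w => if B ≤ 2 ^ w.sum then (1 : ℝ) else 0) X (3 ^ G)
    (wd_mem G) (fun x y e => ?_) fun w => by positivity
  · rw [sum_boole] at this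
    refine this.trans (le_trans (le_of_eq ?_) (mul_le_mul_of_nonneg_left (markov G hB)
      (by positivity)))
    rw [EW]
    push_cast
    field_simp
  · refine Nat.ModEq.cancel_left_of_coprime (c := 2 ^ (wd G y).sum)
      (Nat.Coprime.pow _ _ (by norm_num)) ?_
    rw [← fwd G y, ← e, ← fwd G x, Nat.ModEq, Nat.mul_add_mod, Nat.mul_add_mod]

theorem base {N X m : ℕ} (h1 : X ≤ 2 ^ m * N) (h2 : 3 ^ (4 * m) ≤ X) :
    (Bd N X : ℝ) ≤ 2 * (14 / 15) ^ m * X := by
  have a1 := cnt (4 * m) X (B := (5 / 2) ^ (4 * m)) (by positivity)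
  refine (Nat.cast_le.2 (card_le_card fun x hx => ?_)).trans (a1.trans ?_)
  · obtain ⟨b1, -, b2⟩ := mem_filter.1 hx
    refine mem_filter.2 ⟨b1, ?_⟩
    have b3 : 3 ^ (4 * m) * N ≤ 2 ^ (wd (4 * m) x).sum * (2 ^ m * N) :=
      calc _ ≤ 3 ^ (4 * m) * T^[4 * m] x + cw (wd (4 * m) x) :=
            (Nat.mul_le_mul_left _ (b2 _).le).trans (Nat.le_add_right _ _)
        _ ≤ _ := (fwd _ _).trans_le
            (Nat.mul_le_mul_left _ ((Nat.le_of_lt_succ (mem_range.1 b1)).trans h1))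
    have b4 : 0 < N := Nat.pos_of_mul_pos_left ((Nat.pow_pos (by norm_num)).trans_le (h2.trans h1))
    rw [← mul_assoc] at b3
    have b5 : (3 : ℝ) ^ (4 * m) ≤ 2 ^ (wd (4 * m) x).sum * 2 ^ m := by
      exact_mod_cast Nat.le_of_mul_le_mul_right b3 b4
    refine le_of_mul_le_mul_right (le_trans ?_ b5) (show (0 : ℝ) < 2 ^ m by positivity)
    rw [pow_mul, pow_mul, ← mul_pow]
    gcongr
    norm_num
  · have b1 : (3 : ℝ) ^ (4 * m) ≤ X := by exact_mod_cast h2
    rw [← div_pow, pow_mul (_ / _ : ℝ)]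
    calc _ ≤ ((X : ℝ) + X) * (14 / 15) ^ m := by gcongr; norm_num
      _ = _ := by ring

theorem Pr_card {n N Y H k A : ℕ} (hA : A < n) : (#(Pr N Y H k A) : ℝ) = 3 ^ H * 2 ^ k / 2 ^ (A + 1) *
    ∑ y ∈ range (Y + 1), (if Bad N y then 1 else 0) * den n H (A - k) y := by
  rw [Pr, card_filter, sum_product, mul_sum]
  push_cast
  refine sum_congr rfl fun y _ => ?_
  by_cases h : Bad N y
  · rw [if_pos h, one_mul, den, ← EW_mul, EW, eq_div_iff (by positivity), sum_mul]
    refine sum_congr rfl fun w _ => ?_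
    by_cases e : w.sum + k = A
    · have := fiber_card (n := n) (A := w.sum) (m := 3 ^ H * y + cw w) (by omega)
      push_cast at this
      rw [if_pos (by omega : (A : ℤ) - k - w.sum = 0), this]
      simp only [h, e, true_and]
      split_ifs
      · rw [← e]
        push_cast
        field_simp
        ring
      · simp
    · rw [if_neg (by omega : ¬ (A : ℤ) - k - w.sum = 0), if_neg fun a => e a.2.1]
      simp
  · simp [h]

theorem Pr_up (N X G A : ℕ) : #{x ∈ range (X + 1) | (x % 2 = 1 ∧ Bad N x) ∧ (wd G x).sum = A} ≤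
    #(Pr N (2 ^ A * X / 3 ^ G) G 0 A) := by
  refine card_le_card_of_injOn (fun x => (T^[G] x, wd G x)) (fun x hx => ?_) fun x _ y _ e => ?_
  · obtain ⟨b1, ⟨b2, b3⟩, rfl⟩ := mem_filter.1 (mem_coe.1 hx)
    refine mem_coe.2 (mem_filter.2 ⟨mem_product.2 ⟨mem_range.2 (Nat.lt_succ_of_le ?_), wd_mem _ _⟩,
      fun k => ?_, rfl, x / 2, ?_⟩)
    · rw [Nat.le_div_iff_mul_le (by positivity), mul_comm]
      exact (Nat.le_add_right _ _).trans ((fwd _ _).trans_le
        (Nat.mul_le_mul_left _ (Nat.le_of_lt_succ (mem_range.1 b1))))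
    · rw [← Function.iterate_add_apply]
      exact b3 _
    · rw [fwd, show 2 * (x / 2) + 1 = x by omega]
  · obtain ⟨e1, e2⟩ := Prod.mk.inj e
    refine Nat.eq_of_mul_eq_mul_left (Nat.two_pow_pos (wd G y).sum) ?_
    rw [← fwd G y, ← e1, ← e2, fwd]

theorem Pr_low (N X H t k n : ℕ) : ∑ A ∈ range n, #(Pr N (2 ^ A * X / 3 ^ (H + t)) H k A) ≤
    Bd N (2 ^ k * X / 3 ^ t) + 3 ^ H * (N + 2) := by
  generalize hX : 2 ^ k * X / 3 ^ t = X'
  obtain ⟨S, hS⟩ : ∃ S, S = {x ∈ range (X' + 3 ^ H + 1) | x % 2 = 1 ∧ Bad N (T^[H] x)} := ⟨_, rfl⟩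
  calc _ ≤ ∑ A ∈ range n, #{x ∈ S | (wd H x).sum + k = A} := by
        refine sum_le_sum fun A _ => card_le_card_of_surjOn (fun x => (T^[H] x, wd H x)) ?_
        rintro ⟨y, w⟩ hp
        obtain ⟨b1, b2, rfl, u, b3⟩ := mem_filter.1 (mem_coe.1 hp)
        obtain ⟨b4, b5⟩ := mem_product.1 b1
        obtain ⟨c1, c2⟩ := bwd b5 b3
        refine ⟨2 * u + 1, mem_coe.2 (mem_filter.2 ⟨hS ▸ mem_filter.2 ⟨mem_range.2 ?_, by omega,
          c2 ▸ b2⟩, by rw [c1]⟩), Prod.ext c2 c1⟩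
        have c3 := (Nat.le_div_iff_mul_le (by positivity)).1 (Nat.le_of_lt_succ (mem_range.1 b4))
        have c4 := cw_le w
        rw [(mem_wds.1 b5).1] at c4
        have c5 : 2 * u + 1 - 3 ^ H ≤ X' := by
          rw [← hX, Nat.le_div_iff_mul_le (by positivity)]
          refine Nat.le_of_mul_le_mul_left ?_ (Nat.two_pow_pos w.sum)
          rw [← mul_assoc, Nat.mul_sub, b3, ← mul_assoc, ← pow_add]
          refine le_trans (Nat.mul_le_mul_right _ (show _ ≤ 3 ^ H * y by dsimp only; omega))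
            (le_trans (le_of_eq ?_) c3)
          ring
        omega
    _ ≤ #S := (sum_card_fiberwise_eq_card_filter _ _ _).trans_le (card_filter_le _ _)
    _ ≤ #({x ∈ range (X' + 1) | x % 2 = 1 ∧ Bad N x} ∪ Ioc X' (X' + 3 ^ H) ∪
          range (3 ^ H * (N + 1))) := by
        refine card_le_card fun x hx => ?_
        obtain ⟨b1, b2, b3⟩ := mem_filter.1 (hS ▸ hx)
        simp only [mem_union, mem_filter, mem_range, mem_Ioc] at b1 ⊢
        by_cases e : Bad N x
        · simp only [b2, e, and_true]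
          omega
        · obtain ⟨j, hj⟩ := not_forall.1 e
          refine Or.inr ((T_low j x).trans (Nat.mul_le_mul (Nat.pow_le_pow_right (by norm_num) ?_)
            (by omega)))
          by_contra a
          obtain ⟨c, rfl⟩ := Nat.exists_eq_add_of_le' (not_le.1 a).le
          exact hj (by rw [Function.iterate_add_apply]; exact b3 c)
    _ ≤ _ := by
        refine (card_union_le _ _).trans ((Nat.add_le_add_right (card_union_le _ _) _).trans ?_)
        rw [card_range, Nat.card_Ioc, Nat.add_sub_cancel_left, Bd]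
        exact le_of_eq (by ring)

end Pool.Agent.MP_2e2529_nt
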