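import Pool.Agent.MP_2e2529_nt.Step

/-! Transfer from the accelerated map on odd numbers to the map of the problem. -/

namespace Pool.Agent.MP_2e2529_nt

open Finset Real Classical

theorem T_iter (i : ℕ → ℕ) (hi : ∀ x, i x = if x % 2 = 0 then x / 2 else 4 * x / 3) :
    ∀ k x, x % 2 = 1 → ∃ j, i^[j] x = T^[k] x := by
  have hT : ∀ x, x % 2 = 1 → T x % 2 = 1 ∧ ∃ j, i^[j] x = T x := by
    intro x hx
    have a := T_spec x
    unfold st at a
    split_ifs at a <;> norm_num at a <;> refine ⟨by omega, ?_⟩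
    · refine ⟨3, ?_⟩
      simp only [Function.iterate_succ_apply', Function.iterate_zero, id, hi]
      split_ifs <;> omega
    · refine ⟨1, ?_⟩
      simp only [Function.iterate_succ_apply', Function.iterate_zero, id, hi]
      split_ifs <;> omega
    · refine ⟨2, ?_⟩
      simp only [Function.iterate_succ_apply', Function.iterate_zero, id, hi]
      split_ifs <;> omega
  intro k
  induction k with
  | zero => exact fun x _ => ⟨0, rfl⟩
  | succ k ih =>
    intro x hx
    obtain ⟨a, j, hj⟩ := hT x hx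
    obtain ⟨l, hl⟩ := ih _ a
    exact ⟨l + j, by rw [Function.iterate_add_apply, hj, hl, Function.iterate_succ_apply]⟩

theorem final (i : ℕ → ℕ) (hi : ∀ x, i x = if x % 2 = 0 then x / 2 else 4 * x / 3) (α : ℕ) :
    ∃ C : ℝ, ∀ N : ℕ, 2 ≤ N → ∀ X : ℕ,
      (#{x ∈ Icc 1 X | ∀ k, N < i^[k] x} : ℝ) ≤ C * X / Real.log N ^ α := by
  obtain ⟨K, hK0, hK⟩ := odd_bound α
  refine ⟨2 * K + 1600 ^ α, fun N hN X => ?_⟩
  have h1 : 0 < Real.log N := Real.log_pos (by exact_mod_cast hN)
  have h2 : Real.log N ≤ Nat.log 2 N + 1 := by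
    have a : (N : ℝ) ≤ 2 ^ (Nat.log 2 N + 1) := by
      exact_mod_cast (Nat.lt_pow_succ_log_self one_lt_two N).le
    refine (Real.log_le_log (by positivity) a).trans ?_
    rw [Real.log_pow]
    push_cast
    exact mul_le_of_le_one_right (by positivity) (by linarith [Real.log_two_lt_d9])
  refine le_trans (b := (2 * K + 1600 ^ α) * X / (Nat.log 2 N + 1) ^ α) ?_ (by gcongr)
  by_cases hν : 1600 ≤ Nat.log 2 N
  swap
  · rw [le_div_iff₀ (by positivity), mul_comm]
    gcongr
    · exact le_add_of_nonneg_of_le (by positivity) (pow_le_pow_left₀ (by positivity)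
        (by exact_mod_cast (by omega)) α)
    · exact (card_filter_le _ _).trans (by simp)
  have hT2 := T_iter i hi
  have key : ∀ X : ℕ, (#{x ∈ Icc 1 X | ∀ k, N < i^[k] x} : ℝ) ≤
      2 * (K / (Nat.log 2 N + 1) ^ α) * X := by
    intro X
    induction X using Nat.strong_induction_on with
    | _ X ih =>
    rcases X.eq_zero_or_pos with rfl | hX
    · simp
    have a1 : #{x ∈ Icc 1 X | ∀ k, N < i^[k] x} ≤
        Bd N X + #{x ∈ Icc 1 (X / 2) | ∀ k, N < i^[k] x} := by
      refine le_trans (card_le_card fun x hx => ?_) ((card_union_le _ _).trans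
        (Nat.add_le_add_left (card_image_le (f := fun y => 2 * y)) _))
      simp only [mem_union, mem_image, mem_filter, mem_Icc, mem_range] at hx ⊢
      by_cases e : x % 2 = 1
      · refine Or.inl ⟨by omega, e, fun k => ?_⟩
        obtain ⟨j, hj⟩ := hT2 k x e
        exact hj ▸ hx.2 j
      · refine Or.inr ⟨x / 2, ⟨by omega, fun k => ?_⟩, by omega⟩
        have := hx.2 (k + 1)
        rwa [Function.iterate_succ_apply, hi, if_pos (by omega)] at this
    have a2 := (Nat.cast_le (α := ℝ)).2 a1
    have a3 := ih (X / 2) (by omega)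
    have a4 := hK N X hν
    have a5 : ((X / 2 : ℕ) : ℝ) ≤ X / 2 := Nat.cast_div_le
    have a6 := mul_le_mul_of_nonneg_left a5
      (show 0 ≤ K / ((Nat.log 2 N : ℝ) + 1) ^ α by positivity)
    push_cast at a2
    linarith
  refine (key X).trans ?_
  rw [← mul_div_assoc, div_mul_eq_mul_div]
  gcongr
  exact le_add_of_nonneg_right (by positivity)

end Pool.Agent.MP_2e2529_nt
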