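import Pool.Agent.MP_2e2529_nt.Words

/-! The evolution of Fourier coefficients on `ZMod (2 ^ n)`. -/

namespace Pool.Agent.MP_2e2529_nt

open Finset Real

abbrev R (n : ℕ) : Type := ZMod (2 ^ n)

noncomputable def ee (n : ℕ) : AddChar (R n) ℂ := ZMod.stdAddChar

noncomputable def th (n : ℕ) : R n := (3 : R n)⁻¹

variable {n : ℕ}

noncomputable def Ev (s : ℕ) (G : ℤ → R n → ℂ) (a : ℤ) (η : R n) : ℂ :=
  EW s fun w => ee n (η * th n ^ s * cw w) * G (a - w.sum) (2 ^ w.sum * th n ^ s * η)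

def NB (G : ℤ → R n → ℂ) (η : R n) (q : ℝ) : Prop := ∀ S : Finset ℤ, ∑ a ∈ S, ‖G a η‖ ≤ q

noncomputable def coef (s d : ℕ) (η : R n) : ℂ :=
  EW s fun w => if w.sum = d then ee n (η * th n ^ s * cw w) else 0

noncomputable def Om (m : ℤ) : ℂ := Complex.exp (2 * π * Complex.I * m / 3)

theorem three_th (n : ℕ) : 3 * th n = 1 := by
  have := ZMod.coe_mul_inv_eq_one (n := 2 ^ n) 3 (Nat.Coprime.pow_right n (by norm_num))
  exact_mod_cast this

theorem pow_th (n s : ℕ) : 3 ^ s * th n ^ s = 1 := by rw [← mul_pow, three_th, one_pow]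

theorem th_ne {s : ℕ} {x : R n} (h : x ≠ 0) : th n ^ s * x ≠ 0 := fun e =>
  h (by rw [← one_mul x, ← pow_th n s, mul_assoc, e, mul_zero])

theorem norm_ee (x : R n) : ‖ee n x‖ = 1 := by
  rw [ee, ZMod.stdAddChar_apply, Circle.norm_coe]

theorem ee_add (x y : R n) : ee n (x + y) = ee n x * ee n y := AddChar.map_add_eq_mul _ _ _

theorem ee_int (W : ℤ) : ee n W = Complex.exp (Complex.I * (2 * π * W / 2 ^ n : ℝ)) := by
  rw [ee, ZMod.stdAddChar_coe]
  congr 1
  push_cast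
  ring

theorem ee_sub_one (W : ℤ) : ‖ee n W - 1‖ ≤ 7 * |(W : ℝ)| / 2 ^ n := by
  rw [ee_int]
  refine norm_exp_I_mul_ofReal_sub_one_le.trans ?_
  rw [Real.norm_eq_abs, abs_div, abs_mul, abs_of_pos two_pi_pos,
    abs_of_pos (by positivity : (0 : ℝ) < 2 ^ n)]
  gcongr
  linarith [pi_lt_d2]

theorem norm_Om (m : ℤ) : ‖Om m‖ = 1 := by
  rw [Om, show 2 * π * Complex.I * m / 3 = (2 * π * m / 3 : ℝ) * Complex.I by push_cast; ring,
    Complex.norm_exp_ofReal_mul_I]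

theorem Om_two (m : ℤ) : Om (2 * m) = Om m ^ 2 := by
  rw [Om, Om, ← Complex.exp_nat_mul]
  congr 1
  push_cast
  ring

theorem Om_sum {m : ℤ} (h : ¬ 3 ∣ m) : 1 + Om m + Om m ^ 2 = 0 := by
  have h1 : Om m ^ 3 = 1 := by
    rw [Om, ← Complex.exp_nat_mul, Complex.exp_eq_one_iff]
    exact ⟨m, by push_cast; ring⟩
  have h2 : Om m - 1 ≠ 0 := by
    rw [sub_ne_zero, Ne, Om, Complex.exp_eq_one_iff]
    rintro ⟨k, hk⟩
    refine h ⟨k, ?_⟩
    have h3 := Complex.two_pi_I_ne_zero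
    have : (m : ℂ) = 3 * k := by
      apply mul_left_cancel₀ h3
      linear_combination 3 * hk
    exact_mod_cast this
  apply mul_left_cancel₀ h2
  linear_combination h1

theorem exists_inv3 (n : ℕ) : ∃ j : ℤ, ¬ 3 ∣ j ∧ ∀ W : ℤ,
    ‖ee n (W * th n) - Om (j * W)‖ ≤ 7 * |(W : ℝ)| / (3 * 2 ^ n) := by
  obtain ⟨I, hI⟩ := ZMod.intCast_surjective (th n)
  have h1 : ((3 * I - 1 : ℤ) : R n) = 0 := by
    push_cast
    rw [hI, three_th, sub_self]
  obtain ⟨j, hj⟩ := (ZMod.intCast_zmod_eq_zero_iff_dvd _ _).1 h1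
  refine ⟨j, fun ⟨k, hk⟩ => ?_, fun W => ?_⟩
  · rw [hk, mul_left_comm] at hj
    omega
  · have h2 : ee n (W * th n) =
        Complex.exp (Complex.I * (2 * π * W / (3 * 2 ^ n) : ℝ)) * Om (j * W) := by
      rw [← hI, ← Int.cast_mul, ee_int, Om, ← Complex.exp_add]
      congr 1
      have h3 : (I : ℂ) = (1 + 2 ^ n * j) / 3 := by
        have : ((3 * I - 1 : ℤ) : ℂ) = (((2 ^ n : ℕ) : ℤ) * j : ℤ) := by rw [hj]
        push_cast at this
        linear_combination this / 3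
      push_cast
      rw [h3]
      field_simp
    rw [h2, ← sub_one_mul, norm_mul, norm_Om, mul_one]
    refine norm_exp_I_mul_ofReal_sub_one_le.trans ?_
    rw [Real.norm_eq_abs, abs_div, abs_mul, abs_of_pos two_pi_pos,
      abs_of_pos (by positivity : (0 : ℝ) < 3 * 2 ^ n)]
    gcongr
    linarith [pi_lt_d2]

theorem Ev_zero (G : ℤ → R n → ℂ) : Ev 0 G = G := by
  funext a η
  simp [Ev, EW_zero, cw]

theorem Ev_add (s l : ℕ) (G : ℤ → R n → ℂ) : Ev (s + l) G = Ev s (Ev l G) := by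
  funext a η
  simp only [Ev, EW_append, ← EW_mul]
  refine EW_congr fun w _ => EW_congr fun v hv => ?_
  rw [← mul_assoc, ← ee_add, cw_append, (mem_wds.1 hv).1, List.sum_append]
  push_cast
  congr 2
  · linear_combination η * th n ^ s * cw w * pow_th n l
  · ring
  · ring

theorem Ev_sub (s : ℕ) (G G' : ℤ → R n → ℂ) (a : ℤ) (η : R n) :
    Ev s (fun a η => G a η - G' a η) a η = Ev s G a η - Ev s G' a η := by
  simp only [Ev, mul_sub, EW_sub]

theorem NB.nonneg {G : ℤ → R n → ℂ} {η : R n} {q : ℝ} (h : NB G η q) : 0 ≤ q := by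
  simpa using h ∅

theorem NB.mono {G : ℤ → R n → ℂ} {η : R n} {q q' : ℝ} (h : NB G η q) (hq : q ≤ q') :
    NB G η q' := fun S => (h S).trans hq

theorem NB.shift {G : ℤ → R n → ℂ} {η : R n} {q : ℝ} (h : NB G η q) (S : Finset ℤ) (d : ℤ) :
    ∑ a ∈ S, ‖G (a - d) η‖ ≤ q := by
  have := h (S.image fun a => a - d)
  rwa [sum_image fun a _ b _ e => sub_left_injective e] at this

theorem NB.sub {G G' : ℤ → R n → ℂ} {η : R n} {q q' : ℝ} (h : NB G η q) (h' : NB G' η q') :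
    NB (fun a η => G a η - G' a η) η (q + q') := fun S =>
  (sum_le_sum fun _ _ => norm_sub_le _ _).trans (by rw [sum_add_distrib]; linarith [h S, h' S])

theorem NB_zero {G : ℤ → R n → ℂ} {η : R n} (h : ∀ a, G a η = 0) : NB G η 0 := fun S => by
  simp [h]

theorem NB_word {s : ℕ} {G : ℤ → R n → ℂ} {η : R n} {q : List ℕ → ℝ}
    (h : ∀ w ∈ wds s, NB G (2 ^ w.sum * th n ^ s * η) (q w)) : NB (Ev s G) η (EW s q) := by
  intro S
  refine (sum_le_sum fun a _ => norm_EW_le _ _).trans ?_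
  rw [← EW_sum]
  refine EW_mono fun w hw => ?_
  simp only [norm_mul, norm_ee, one_mul]
  exact (h w hw).shift S _

theorem Ev_coef (s : ℕ) (G : ℤ → R n → ℂ) (a : ℤ) (η : R n) : Ev s G a η =
    ∑ d ∈ range (2 * s + 1), coef s d η * G (a - d) (2 ^ d * th n ^ s * η) := by
  simp only [coef, ← EW_mul', ← EW_sum]
  refine EW_congr fun w hw => ?_
  rw [sum_eq_single_of_mem w.sum (mem_range.2 (Nat.lt_succ_of_le (sum_le_of_mem hw))), if_pos rfl]
  intro d _ hd
  rw [if_neg (Ne.symm hd), zero_mul]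

theorem NB_coef {s : ℕ} {G : ℤ → R n → ℂ} {η : R n} {q g : ℝ}
    (h : ∀ d ≤ 2 * s, NB G (2 ^ d * th n ^ s * η) q)
    (hg : ∑ d ∈ range (2 * s + 1), ‖coef s d η‖ ≤ g) : NB (Ev s G) η (g * q) := by
  intro S
  simp only [Ev_coef]
  refine (sum_le_sum fun a _ => norm_sum_le _ _).trans ?_
  rw [sum_comm]
  refine le_trans (sum_le_sum fun d hd => ?_)
    ((sum_mul _ _ q).symm.le.trans (mul_le_mul_of_nonneg_right hg (h 0 (Nat.zero_le _)).nonneg))
  simp only [norm_mul, ← mul_sum]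
  exact mul_le_mul_of_nonneg_left ((h d (Nat.le_of_lt_succ (mem_range.1 hd))).shift S _)
    (norm_nonneg _)

theorem coef_two (η : R n) : ∑ d ∈ range (2 * 2 + 1), ‖coef 2 d η‖ ≤
    (7 + ‖1 + ee n (2 * th n ^ 2 * η)‖) / 9 := by
  have h3 : ∀ x y z : R n, ‖ee n x + ee n y + ee n z‖ ≤ 3 := fun x y z =>
    norm_add₃_le.trans (by rw [norm_ee, norm_ee, norm_ee]; norm_num)
  have h2 : ∀ x y : R n, ‖ee n x + ee n y‖ ≤ 2 := fun x y =>
    (norm_add_le _ _).trans (by rw [norm_ee, norm_ee]; norm_num)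
  have h1 : ‖ee n (η * th n ^ 2) + ee n (η * th n ^ 2 * 3)‖ = ‖1 + ee n (2 * th n ^ 2 * η)‖ := by
    rw [show η * th n ^ 2 * 3 = η * th n ^ 2 + 2 * th n ^ 2 * η by ring, ee_add, ← mul_one_add,
      norm_mul, norm_ee, one_mul]
  simp only [sum_range_succ, coef, EW_succ, EW_zero, cw]
  norm_num
  simp only [← add_div, norm_div, Complex.norm_ofNat, h1]
  linarith [h3 (η * th n ^ 2) (η * th n ^ 2 * 5) (η * th n ^ 2 * 3),
    h2 (η * th n ^ 2 * 5) (η * th n ^ 2 * 7)]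

theorem coef_block {γ : ℝ} (hγ : 0 < γ) {M : ℕ} (hM : 8 / γ ^ 2 ≤ M) {V : ℤ} (hV : ¬ 3 ∣ V) :
    ∑ d ∈ range (2 * (M + 1) + 1), ‖coef (M + 1) d (3 ^ M * V : R n)‖ ≤
      γ + 14 * 12 ^ M * |(V : ℝ)| / 2 ^ n := by
  choose h hh hc using fun d => Complex.exists_norm_eq_mul_self (coef (M + 1) d (3 ^ M * V : R n))
  obtain ⟨j, hj, hW⟩ := exists_inv3 n
  have e1 : ((∑ d ∈ range (2 * (M + 1) + 1), ‖coef (M + 1) d (3 ^ M * V : R n)‖ : ℝ) : ℂ) =
      EW M fun w => (h w.sum * ee n ((V * cw w : ℤ) : R n) + (h (w.sum + 1) + h (w.sum + 2)) *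
        (ee n ((V * cw w : ℤ) : R n) * ee n (((2 ^ w.sum * V : ℤ) : R n) * th n))) / 3 := by
    have e2 : ∀ (w : List ℕ) (b : ℕ), (3 ^ M * V : R n) * th n ^ (M + 1) * cw (w ++ [b]) =
        ((V * cw w : ℤ) : R n) + (min b 1 : ℕ) * (((2 ^ w.sum * V : ℤ) : R n) * th n) := by
      intro w b
      rw [cw_append]
      simp only [cw, List.length_nil, List.length_cons]
      push_cast
      linear_combination (V * th n * (2 ^ w.sum * (min b 1 : ℕ) + 3 * cw w)) * pow_th n M +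
        V * cw w * three_th n
    rw [Complex.ofReal_sum]
    simp only [hc]
    simp only [coef, ← EW_mul, ← EW_sum]
    rw [EW_congr (g := fun w => h w.sum * ee n ((3 ^ M * V : R n) * th n ^ (M + 1) * cw w)),
      EW_append]
    · refine EW_congr fun w _ => ?_
      simp only [EW_succ, EW_zero, e2, ee_add, List.sum_append]
      norm_num
      ring
    · intro w hw
      rw [sum_eq_single_of_mem w.sum (mem_range.2 (Nat.lt_succ_of_le (sum_le_of_mem hw))),
        if_pos rfl]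
      intro d _ hd
      rw [if_neg (Ne.symm hd), mul_zero]
  have e3 : ‖EW M fun w => (h w.sum + (h (w.sum + 1) + h (w.sum + 2)) *
      Om (j * (2 ^ w.sum * V))) / 3‖ ≤ γ := by
    have a1 := shift_le hγ hM h fun d => (hh d).le
    have a2 := shift_le hγ hM (fun d => h (d + 1)) fun d => (hh _).le
    have a3 := shift_le hγ hM (fun d => h (d + 1) * Om (j * (2 ^ d * V))) fun d => by
      rw [norm_mul, hh, norm_Om, one_mul]
    have a4 : EW M (fun w => h (w.sum + 1 + 1)) +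
        EW M (fun w => h (w.sum + 1 + 1) * Om (j * (2 ^ (w.sum + 1) * V))) +
        EW M (fun w => h (w.sum + 2) * Om (j * (2 ^ w.sum * V))) = 0 := by
      rw [← EW_add, ← EW_add, ← EW_const M (0 : ℂ)]
      refine EW_congr fun w _ => ?_
      have a5 : ¬ 3 ∣ j * (2 ^ w.sum * V) := by
        intro a
        rcases Int.prime_three.dvd_or_dvd a with a | a
        · exact hj a
        · rcases Int.prime_three.dvd_or_dvd a with a | a
          · exact absurd (Int.prime_three.dvd_of_dvd_pow a) (by norm_num)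
          · exact hV a
      rw [show j * (2 ^ (w.sum + 1) * V) = 2 * (j * (2 ^ w.sum * V)) by ring, Om_two]
      linear_combination h (w.sum + 2) * Om_sum a5
    simp only [div_eq_mul_inv, EW_mul', add_mul, EW_add]
    have a6 := norm_add₃_le.trans (add_le_add (add_le_add a1 a2) a3)
    rw [← norm_neg] at a6
    rw [← add_mul, ← add_mul, norm_mul, norm_inv, Complex.norm_ofNat]
    have a7 : ∀ x y : ℂ, x = y → ‖y‖ ≤ γ + γ + γ → ‖x‖ * 3⁻¹ ≤ γ := by
      rintro x y rfl a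
      linarith
    exact a7 _ _ (by linear_combination a4) a6
  have e4 := congrArg (fun z : ℂ => ‖z‖) e1
  rw [Complex.norm_real, Real.norm_of_nonneg (sum_nonneg fun _ _ => norm_nonneg _)] at e4
  rw [e4]
  refine (norm_le_insert' _ _).trans (add_le_add e3 ?_)
  rw [← EW_sub, ← EW_const M (14 * 12 ^ M * |(V : ℝ)| / 2 ^ n)]
  refine (norm_EW_le _ _).trans (EW_mono fun w hw => ?_)
  have b1 : (2 : ℝ) ^ w.sum ≤ 4 ^ M := by
    rw [show (4 : ℝ) = 2 ^ 2 by norm_num, ← pow_mul]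
    exact pow_le_pow_right₀ one_le_two (sum_le_of_mem hw)
  have b2 : (cw w : ℝ) ≤ 12 ^ M := by
    have : (cw w : ℝ) ≤ 2 ^ w.sum * 3 ^ M := by exact_mod_cast (mem_wds.1 hw).1 ▸ cw_le w
    rw [show (12 : ℝ) = 4 * 3 by norm_num, mul_pow]
    exact this.trans (by gcongr)
  have b3 : (4 : ℝ) ^ M ≤ 12 ^ M := by gcongr; norm_num
  have b4 : ‖ee n ((V * cw w : ℤ) : R n) - 1‖ ≤ 7 * 12 ^ M * |(V : ℝ)| / 2 ^ n := by
    refine (ee_sub_one _).trans ?_
    push_cast
    rw [abs_mul, Nat.abs_cast, mul_comm |(V : ℝ)|, ← mul_assoc]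
    gcongr
  have b5 : ‖ee n (((2 ^ w.sum * V : ℤ) : R n) * th n) - Om (j * (2 ^ w.sum * V))‖ ≤
      7 * 12 ^ M * |(V : ℝ)| / 2 ^ n := by
    refine (hW _).trans ?_
    push_cast
    rw [abs_mul, abs_of_pos (by positivity : (0 : ℝ) < 2 ^ w.sum), ← mul_assoc]
    gcongr
    · exact b1.trans b3
    · linarith [show (0 : ℝ) < 2 ^ n by positivity]
  generalize ee n ((V * cw w : ℤ) : R n) = x at *
  have b6 := norm_ee (((2 ^ w.sum * V : ℤ) : R n) * th n)
  generalize ee n (((2 ^ w.sum * V : ℤ) : R n) * th n) = y at *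
  generalize Om (j * (2 ^ w.sum * V)) = o at *
  rw [show (h w.sum * x + (h (w.sum + 1) + h (w.sum + 2)) * (x * y)) / 3 -
      (h w.sum + (h (w.sum + 1) + h (w.sum + 2)) * o) / 3 =
      (h w.sum * (x - 1) + (h (w.sum + 1) + h (w.sum + 2)) * ((x - 1) * y + (y - o))) / 3 by ring,
    norm_div, Complex.norm_ofNat]
  have b7 : ‖h (w.sum + 1) + h (w.sum + 2)‖ ≤ 2 :=
    (norm_add_le _ _).trans (by rw [hh, hh]; norm_num)
  have b8 : ‖(x - 1) * y + (y - o)‖ ≤ ‖x - 1‖ + ‖y - o‖ :=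
    (norm_add_le _ _).trans (by rw [norm_mul, b6, mul_one])
  have b9 := norm_add_le (h w.sum * (x - 1))
    ((h (w.sum + 1) + h (w.sum + 2)) * ((x - 1) * y + (y - o)))
  rw [norm_mul, norm_mul, hh, one_mul] at b9
  have b10 := mul_le_mul b7 b8 (norm_nonneg _) zero_le_two
  have b11 : 14 * 12 ^ M * |(V : ℝ)| / 2 ^ n = 2 * (7 * 12 ^ M * |(V : ℝ)| / 2 ^ n) := by ring
  linarith [norm_nonneg (x - 1)]

end Pool.Agent.MP_2e2529_nt
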