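import Pool.Agent.MP_2e2529_nt.Decay

/-! Mixing: the joint density of the exponent and the residue modulo `2 ^ n` almost factors. -/

namespace Pool.Agent.MP_2e2529_nt

open Finset Real

variable {n : ℕ}

noncomputable def U (ζ : R n) : ℂ := (∑ v : R n, ee n (-(ζ * (2 * v + 1)))) / 2 ^ n

noncomputable def U0 (a : ℤ) (η : R n) : ℂ := if a = 0 then U η else 0

noncomputable def Ut (t : ℕ) (a : ℤ) (η : R n) : ℂ := EW t fun v => U0 (a - v.sum) η

noncomputable def den (n H : ℕ) (A : ℤ) (y : R n) : ℝ := EW H fun w =>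
  if A - w.sum = 0 then (#{v : R n | 2 ^ w.sum * (2 * v + 1) = 3 ^ H * y + cw w} : ℝ) else 0

theorem orth (x : R n) : ∑ ξ : R n, ee n (ξ * x) = if x = 0 then 2 ^ n else 0 := by
  rw [ee, AddChar.sum_mulShift _ (ZMod.isPrimitive_stdAddChar _), ZMod.card]
  split_ifs <;> simp

theorem norm_U (ζ : R n) : ‖U ζ‖ ≤ 1 := by
  rw [U, norm_div, norm_pow, Complex.norm_ofNat, div_le_one (by positivity)]
  refine (norm_sum_le _ _).trans ?_
  simp [ZMod.card]

theorem adm_U0 : Adm (U0 (n := n)) := by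
  refine ⟨fun η S => ?_, fun a η h => ?_⟩
  · simp only [U0, apply_ite norm, norm_zero, sum_ite_eq']
    split_ifs
    exacts [norm_U η, zero_le_one]
  · have : ∀ v : R n, ee n (-(η * (2 * v + 1))) = ee n (-η) * ee n (v * (-(2 * η))) := fun v => by
      rw [← ee_add]
      congr 1
      ring
    simp only [U0, U, this, ← mul_sum, orth, neg_eq_zero, if_neg h]
    simp

theorem adm_Ut (t : ℕ) : Adm (Ut (n := n) t) := by
  refine ⟨fun η S => ?_, fun a η h => ?_⟩
  · refine (sum_le_sum fun a _ => norm_EW_le _ _).trans ?_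
    rw [← EW_sum, ← EW_const t (1 : ℝ)]
    exact EW_mono fun w _ => (adm_U0.1 η).shift S _
  · simp only [Ut, adm_U0.2 _ η h, EW_const]

theorem delta (α : ℕ) : ∃ C : ℝ, 0 < C ∧ ∀ n l t (η : R n),
    NB (fun a η => Ev (l + t) U0 a η - Ev l (Ut t) a η) η (C / (l + 1) ^ α) := by
  obtain ⟨C, hC0, hC⟩ := decay α
  obtain ⟨K, hK0, hK⟩ := polyK α (ρ := 7 / 8) (by norm_num) (by norm_num)
  refine ⟨2 * C * 2 ^ α + 2 * K + 1, by positivity, fun n l t η => ?_⟩
  by_cases h : 2 ^ (l / 2) * η = 0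
  · simp only [Ev_add, ← Ev_sub]
    have a1 := EW_pow l (1 / 2 : ℝ)
    norm_num at a1
    refine (NB_word (q := fun w => 2 * 2 ^ (l / 2) * (1 / 2) ^ w.sum) fun w _ => ?_).mono ?_
    · by_cases e : l / 2 ≤ w.sum
      · obtain ⟨c, hc⟩ := Nat.exists_eq_add_of_le e
        rw [show 2 ^ w.sum * th n ^ l * η = 0 by
          rw [hc]; linear_combination 2 ^ c * th n ^ l * h]
        refine (NB_zero fun a => ?_).mono (by positivity)
        simp [Ev, Ut]
      · refine ((adm_U0.one t _).sub ((adm_Ut t).1 _)).mono ?_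
        rw [one_div, inv_pow, mul_assoc, ← div_eq_mul_inv]
        have : (1 : ℝ) ≤ 2 ^ (l / 2) / 2 ^ w.sum := by
          rw [one_le_div (by positivity)]
          exact pow_le_pow_right₀ one_le_two (by omega)
        linarith
    · rw [EW_mul, a1]
      have a2 : (2 : ℝ) ^ (l / 2) ≤ (3 / 2) ^ l :=
        calc (2 : ℝ) ^ (l / 2) ≤ ((3 / 2) ^ 2) ^ (l / 2) := by gcongr; norm_num
          _ ≤ _ := by
            rw [← pow_mul]
            exact pow_le_pow_right₀ (by norm_num) (by omega)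
      calc 2 * 2 ^ (l / 2) * (7 / 12 : ℝ) ^ l ≤ 2 * (3 / 2) ^ l * (7 / 12) ^ l := by gcongr
        _ = 2 * (7 / 8) ^ l := by rw [mul_assoc, ← mul_pow]; norm_num
        _ ≤ 2 * (K / (l + 1) ^ α) := by gcongr; exact hK l
        _ ≤ _ := by
          rw [← mul_div_assoc]
          gcongr
          linarith [show 0 ≤ 2 * C * 2 ^ α by positivity]
  · refine ((hC n _ adm_U0 _ _ _ h).sub (hC n _ (adm_Ut t) _ _ _ h)).mono ?_
    rw [← add_div, div_le_div_iff₀ (by positivity) (by positivity)]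
    have : ((l : ℝ) + 1) ^ α ≤ 2 ^ α * (l / 2 + 1 : ℕ) ^ α := by
      rw [← mul_pow]
      gcongr
      exact_mod_cast (by omega)
    calc (C + C) * ((l : ℝ) + 1) ^ α ≤ (C + C) * (2 ^ α * (l / 2 + 1 : ℕ) ^ α) := by gcongr
      _ = 2 * C * 2 ^ α * (l / 2 + 1 : ℕ) ^ α := by ring
      _ ≤ _ := by gcongr; linarith

theorem parseval {ι : Type} (s : Finset ι) (z : ι → ℂ) (p : ι → R n) :
    ((∑ ξ : R n, ‖∑ i ∈ s, z i * ee n (ξ * p i)‖ ^ 2 : ℝ) : ℂ) =
      2 ^ n * ∑ i ∈ s, ∑ j ∈ s, if p i = p j then z i * starRingEnd ℂ (z j) else 0 := by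
  push_cast
  simp only [← Complex.mul_conj', map_sum, map_mul, ← AddChar.map_neg_eq_conj, sum_mul_sum]
  rw [sum_comm, mul_sum]
  refine sum_congr rfl fun i _ => ?_
  rw [sum_comm, mul_sum]
  refine sum_congr rfl fun j _ => ?_
  have : ∀ ξ : R n, z i * ee n (ξ * p i) * (starRingEnd ℂ (z j) * ee n (-(ξ * p j))) =
      z i * starRingEnd ℂ (z j) * ee n (ξ * (p i - p j)) := fun ξ => by
    rw [mul_sub, sub_eq_add_neg, ee_add]
    ring
  simp only [this, ← mul_sum, orth, sub_eq_zero]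
  split_ifs <;> ring

theorem l1_le (D : R n → ℂ) {δ : ℝ} (hδ : 0 < δ) :
    (∑ y : R n, ‖∑ ξ : R n, D ξ * ee n (ξ * y)‖) / 2 ^ n ≤ ((∑ ξ, ‖D ξ‖ ^ 2) / δ + δ) / 2 := by
  have a1 := parseval univ D id
  simp only [id, sum_ite_eq, mem_univ, if_true, Complex.mul_conj'] at a1
  have a2 : ∑ y : R n, ‖∑ ξ : R n, D ξ * ee n (ξ * y)‖ ^ 2 = 2 ^ n * ∑ ξ, ‖D ξ‖ ^ 2 := by
    simp only [mul_comm _ (_ : R n)]
    exact_mod_cast a1
  rw [div_le_iff₀ (by positivity)]
  calc _ ≤ ∑ y : R n, (‖∑ ξ : R n, D ξ * ee n (ξ * y)‖ ^ 2 / δ + δ) / 2 := by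
        refine sum_le_sum fun y _ => ?_
        generalize ‖∑ ξ : R n, D ξ * ee n (ξ * y)‖ = x
        rw [← sub_nonneg, show (x ^ 2 / δ + δ) / 2 - x = (x - δ) ^ 2 / (2 * δ) by field_simp; ring]
        positivity
    _ = _ := by
      rw [← sum_div, sum_add_distrib, ← sum_div, a2]
      simp [ZMod.card]
      ring

theorem cw_inj (w w' : List ℕ) (h1 : w.length = w'.length) (h2 : ∀ a ∈ w, a < 3)
    (h3 : ∀ a ∈ w', a < 3) (h4 : w.sum = w'.sum) (h5 : cw w = cw w') : w = w' := by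
  induction w using List.reverseRecOn generalizing w' with
  | nil => exact (List.length_eq_zero_iff.1 h1.symm).symm
  | append_singleton u b ih =>
    rcases w'.eq_nil_or_concat' with rfl | ⟨u', b', rfl⟩
    · simp at h1
    have a1 := h2 b (by simp)
    have a2 := h3 b' (by simp)
    simp only [List.length_append, List.sum_append, List.sum_singleton, cw_append, cw,
      List.length_singleton, List.length_nil] at h1 h4 h5
    have a3 : ∀ k, 2 ^ k % 3 ≠ 0 := fun k e =>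
      absurd (Nat.prime_three.dvd_of_dvd_pow (Nat.dvd_of_mod_eq_zero e)) (by norm_num)
    have a4 := a3 u.sum
    have a5 := a3 u'.sum
    have a6 : b = b' := by
      by_contra e
      have a7 : u.sum = u'.sum + 1 → 2 ^ u.sum = 2 * 2 ^ u'.sum := fun e => by rw [e, pow_succ']
      have a8 : u'.sum = u.sum + 1 → 2 ^ u'.sum = 2 * 2 ^ u.sum := fun e => by rw [e, pow_succ']
      interval_cases b <;> interval_cases b' <;> norm_num at h5 e <;> omega
    subst a6
    have a7 : u.sum = u'.sum := by omega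
    rw [ih u' (by omega) (fun a ha => h2 a (by simp [ha])) (fun a ha => h3 a (by simp [ha])) a7
      (by rw [a7] at h5; omega)]

theorem card_mod {S : Finset ℕ} {X m : ℕ} (h1 : ∀ x ∈ S, x ≤ X)
    (h2 : ∀ x ∈ S, ∀ y ∈ S, x % m = y % m) : (#S : ℝ) ≤ X / m + 1 := by
  have : #S ≤ #(range (X / m + 1)) := card_le_card_of_injOn (· / m)
    (fun x hx => mem_coe.2 (mem_range.2 (Nat.lt_succ_of_le (Nat.div_le_div_right (h1 x hx)))))
    fun x hx y hy e => by
      rw [← Nat.div_add_mod x m, ← Nat.div_add_mod y m, h2 x hx y hy]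
      exact congrArg (m * · + y % m) e
  rw [card_range] at this
  exact (Nat.cast_le.2 this).trans (by push_cast; gcongr; exact Nat.cast_div_le)

theorem collision {s : ℕ} (hs : 2 ^ n ≤ 3 ^ s) :
    ∑ d ∈ range (2 * s + 1), ∑ ξ : R n, ‖coef s d ξ‖ ^ 2 ≤ 4 := by
  have a1 : ∀ d, ∑ ξ : R n, ‖coef s d ξ‖ ^ 2 ≤
      ∑ w ∈ wds s with w.sum = d, 2 * 2 ^ n / 3 ^ s / 3 ^ s * ((cw w : ℝ) / (2 ^ n : ℕ) + 1) := by
    intro d
    generalize hS : (wds s).filter (·.sum = d) = S
    have b0 : ∀ w ∈ S, w ∈ wds s ∧ w.sum = d := fun w hw => mem_filter.1 (hS ▸ hw)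
    have b2 : ∀ ξ : R n, coef s d ξ = ∑ w ∈ S, 1 / 3 ^ s * ee n (ξ * (th n ^ s * cw w)) := by
      intro ξ
      rw [coef, EW, ← sum_filter, hS, sum_div]
      refine sum_congr rfl fun w _ => ?_
      rw [mul_assoc]
      ring
    have b3 : ∑ ξ : R n, ‖coef s d ξ‖ ^ 2 = 2 ^ n * ∑ i ∈ S, ∑ j ∈ S,
        if th n ^ s * cw i = th n ^ s * cw j then 1 / 3 ^ s / 3 ^ s else 0 := by
      simp only [b2]
      apply Complex.ofReal_injective
      rw [parseval]
      push_cast [apply_ite Complex.ofReal]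
      simp [div_eq_mul_inv, Complex.conj_ofNat]
    obtain ⟨P, hP⟩ : ∃ P : List ℕ → List ℕ → ℝ, ∀ i j,
      P i j = if cw j ≤ cw i ∧ cw j % 2 ^ n = cw i % 2 ^ n then 1 else 0 := ⟨_, fun _ _ => rfl⟩
    have b4 : ∀ i j, (if th n ^ s * cw i = th n ^ s * cw j then 1 / 3 ^ s / 3 ^ s else 0 : ℝ) ≤
        1 / 3 ^ s / 3 ^ s * (P i j + P j i) := by
      intro i j
      rw [hP, hP]
      split_ifs with e e1 e2 e3 <;> try positivity
      · linarith [show (0 : ℝ) ≤ 1 / 3 ^ s / 3 ^ s by positivity]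
      · simp
      · simp
      · have : (cw i : R n) = cw j := by
          linear_combination 3 ^ s * e - (cw i - cw j : R n) * pow_th n s
        rw [ZMod.natCast_eq_natCast_iff'] at this
        omega
    have b5 : ∀ i ∈ S, ∑ j ∈ S, P i j ≤ (cw i : ℝ) / (2 ^ n : ℕ) + 1 := by
      intro i _
      simp only [hP, sum_boole]
      rw [← card_image_of_injOn (f := cw) fun x hx y hy e => ?_]
      · refine card_mod (fun x hx => ?_) fun x hx y hy => ?_
        · obtain ⟨j, hj, rfl⟩ := mem_image.1 hx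
          exact (mem_filter.1 hj).2.1
        · obtain ⟨j, hj, rfl⟩ := mem_image.1 hx
          obtain ⟨k, hk, rfl⟩ := mem_image.1 hy
          rw [(mem_filter.1 hj).2.2, (mem_filter.1 hk).2.2]
      · obtain ⟨c1, c2⟩ := b0 x (mem_filter.1 hx).1
        obtain ⟨c3, c4⟩ := b0 y (mem_filter.1 hy).1
        rw [mem_wds] at c1 c3
        exact cw_inj x y (c1.1.trans c3.1.symm) c1.2 c3.2 (c2.trans c4.symm) e
    rw [b3, ← mul_sum]
    refine (mul_le_mul_of_nonneg_left (sum_le_sum fun i _ => sum_le_sum fun j _ => b4 i j)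
      (by positivity)).trans ?_
    simp only [← mul_sum, sum_add_distrib (f := P _), sum_add_distrib (f := fun i => ∑ j ∈ S, P i j)]
    rw [sum_comm (f := fun i j => P j i)]
    calc _ = 2 * 2 ^ n / 3 ^ s / 3 ^ s * ∑ i ∈ S, ∑ j ∈ S, P i j := by ring
      _ ≤ _ := by gcongr with i hi; exact b5 i hi
  refine (sum_le_sum fun d _ => a1 d).trans ?_
  rw [sum_fiberwise_of_maps_to fun w hw => mem_range.2 (Nat.lt_succ_of_le (sum_le_of_mem hw)),
    ← mul_sum, sum_add_distrib, ← sum_div]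
  have a2 := EW_cw s
  rw [EW, div_le_iff₀ (by positivity)] at a2
  have a3 : (2 : ℝ) ^ n / 3 ^ s ≤ 1 := by
    rw [div_le_one (by positivity)]
    exact_mod_cast hs
  simp only [sum_const, card_wds, nsmul_eq_mul, mul_one]
  push_cast
  calc _ ≤ 2 * 2 ^ n / 3 ^ s / 3 ^ s * (3 ^ s * 3 ^ s / 2 ^ n + 3 ^ s : ℝ) := by gcongr
    _ = 2 + 2 * (2 ^ n / 3 ^ s) := by field_simp
    _ ≤ 4 := by linarith

theorem phys (H : ℕ) (A : ℤ) (y : R n) :
    ∑ ξ : R n, Ev H U0 A ξ * ee n (ξ * y) = den n H A y := by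
  simp only [Ev, ← EW_mul', ← EW_sum, den, ofReal_EW]
  refine EW_congr fun w _ => ?_
  simp only [U0]
  split_ifs
  · have : ∀ ξ : R n, ee n (ξ * th n ^ H * cw w) * U (2 ^ w.sum * th n ^ H * ξ) * ee n (ξ * y) =
        (∑ v : R n, ee n (ξ * (th n ^ H * (3 ^ H * y + cw w - 2 ^ w.sum * (2 * v + 1))))) /
          2 ^ n := fun ξ => by
      rw [U, mul_right_comm, ← mul_div_assoc, mul_sum]
      congr 1
      refine sum_congr rfl fun v _ => ?_
      rw [← ee_add, ← ee_add]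
      congr 1
      linear_combination -ξ * y * pow_th n H
    simp only [this, ← sum_div]
    rw [sum_comm, card_filter, div_eq_iff (pow_ne_zero _ two_ne_zero)]
    push_cast [apply_ite Complex.ofReal]
    rw [sum_mul]
    refine sum_congr rfl fun v _ => ?_
    rw [orth]
    by_cases e : 2 ^ w.sum * (2 * v + 1) = 3 ^ H * y + cw w
    · rw [if_pos e, if_pos (by rw [e, sub_self, mul_zero]), one_mul]
    · rw [if_neg e, if_neg (th_ne (sub_ne_zero.2 (Ne.symm e))), zero_mul]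
  · simp

theorem mix (α : ℕ) : ∃ C : ℝ, 0 ≤ C ∧ ∀ t j, ∑ A ∈ range (14 * t), (∑ y : R (14 * t),
    |den (14 * t) (10 * t + j) A y - EW j fun v => den (14 * t) (10 * t) (A - v.sum) y|) /
      2 ^ (14 * t) ≤ C / (t + 1) ^ α := by
  obtain ⟨C, hC0, hC⟩ := delta (α + 1)
  refine ⟨43 * C, by positivity, fun t j => ?_⟩
  generalize hn : 14 * t = n
  generalize hδ : C / ((t : ℝ) + 1) ^ (α + 1) = δ
  have hδ0 : 0 < δ := by rw [← hδ]; positivity
  obtain ⟨D, hD⟩ : ∃ D : ℤ → R n → ℂ, D = Ev (9 * t) fun a η => Ev (t + j) U0 a η - Ev t (Ut j) a η :=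
    ⟨_, rfl⟩
  have a1 : ∀ (A : ℤ) (y : R n), |den n (10 * t + j) A y - EW j fun v => den n (10 * t) (A - v.sum) y| =
      ‖∑ ξ : R n, D A ξ * ee n (ξ * y)‖ := by
    intro A y
    rw [← Real.norm_eq_abs, ← Complex.norm_real]
    congr 1
    simp only [hD, Ev_sub, ← Ev_add, sub_mul, sum_sub_distrib]
    rw [show 9 * t + (t + j) = 10 * t + j by ring, show 9 * t + t = 10 * t by ring, phys,
      Complex.ofReal_sub, ofReal_EW]
    simp only [← phys, EW_sum, EW_mul']
    congr 1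
    refine sum_congr rfl fun ξ _ => ?_
    congr 1
    simp only [Ev, Ut, ← EW_mul]
    rw [EW_comm]
    simp only [sub_right_comm]
  have a2 : ∀ ξ, ∑ A ∈ range n, ‖D A ξ‖ ^ 2 ≤
      δ ^ 2 * (18 * t + 1) * ∑ d ∈ range (2 * (9 * t) + 1), ‖coef (9 * t) d ξ‖ ^ 2 := by
    intro ξ
    have b1 := NB_coef (s := 9 * t) (η := ξ) (fun d _ => hC n t j _) le_rfl
      ((range n).image Nat.cast)
    rw [sum_image fun _ _ _ _ e => Nat.cast_injective e, ← hD, hδ] at b1
    have b2 := sq_sum_le_card_mul_sum_sq (s := range (2 * (9 * t) + 1))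
      (f := fun d => ‖coef (9 * t) d ξ‖)
    rw [card_range] at b2
    push_cast at b2
    refine (sum_sq_le_sq_sum_of_nonneg fun _ _ => norm_nonneg _).trans
      ((pow_le_pow_left₀ (sum_nonneg fun _ _ => norm_nonneg _) b1 2).trans ?_)
    rw [mul_pow, mul_comm, mul_assoc]
    gcongr
    linarith
  have a3 := collision (n := n) (s := 9 * t) (by
    rw [← hn, pow_mul, pow_mul]
    exact Nat.pow_le_pow_left (by norm_num) t)
  simp only [a1]
  refine (sum_le_sum fun (A : ℕ) _ => l1_le (D A) hδ0).trans ?_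
  rw [← sum_div, sum_add_distrib, ← sum_div, sum_comm]
  rw [sum_comm] at a3
  have a4 := (sum_le_sum (s := univ) fun ξ _ => a2 ξ).trans
    ((mul_sum _ _ _).symm.le.trans (mul_le_mul_of_nonneg_left a3 (by positivity)))
  simp only [sum_const, card_range, nsmul_eq_mul]
  calc _ ≤ (δ ^ 2 * (18 * t + 1) * 4 / δ + n * δ) / 2 := by gcongr
    _ = δ * (43 * t + 2) := by rw [← hn]; push_cast; field_simp; ring
    _ ≤ δ * (43 * (t + 1)) := by gcongr; linarith
    _ = _ := by rw [← hδ]; field_simp; ring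

open Classical in
theorem fiber_card {A m : ℕ} (hA : A < n) :
    #{v : R n | 2 ^ A * (2 * v + 1) = (m : R n)} =
      if ∃ u, 2 ^ A * (2 * u + 1) = m then 2 ^ (A + 1) else 0 := by
  split_ifs with h
  · obtain ⟨u, rfl⟩ := h
    have := IsAddCyclic.card_nsmulAddMonoidHom_ker (G := R n) (2 ^ (A + 1))
    rw [Nat.card_zmod, Nat.gcd_eq_right (pow_dvd_pow _ hA)] at this
    rw [← this, ← Nat.subtype_card _ fun v => Iff.rfl]
    refine Nat.card_congr (Equiv.subtypeEquiv (Equiv.subRight (u : R n)) fun v => ?_)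
    simp only [mem_filter, mem_univ, true_and, AddMonoidHom.mem_ker, nsmulAddMonoidHom_apply,
      Equiv.subRight_apply, nsmul_eq_mul]
    push_cast
    constructor <;> intro e <;> linear_combination e
  · rw [card_eq_zero, filter_eq_empty_iff]
    intro v _ e
    obtain ⟨v, rfl⟩ := ZMod.natCast_zmod_surjective v
    have a1 : ((2 ^ A * (2 * v + 1) : ℕ) : R n) = m := by push_cast; exact e
    rw [ZMod.natCast_eq_natCast_iff] at a1
    have a2 := a1.of_dvd (pow_dvd_pow 2 hA)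
    rw [Nat.ModEq, show 2 ^ A * (2 * v + 1) = 2 ^ A + 2 ^ (A + 1) * v by ring,
      Nat.add_mul_mod_self_left, Nat.mod_eq_of_lt (Nat.pow_lt_pow_right one_lt_two A.lt_succ_self)]
      at a2
    refine h ⟨m / 2 ^ (A + 1), ?_⟩
    have a3 := Nat.div_add_mod m (2 ^ (A + 1))
    rw [← a2] at a3
    linear_combination a3

end Pool.Agent.MP_2e2529_nt
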