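import Pool.Agent.MP_2e2529_nt.Final

/-! Predecessors of a seed along good words, and their distribution in residue classes. -/

namespace Pool.Agent.MP_2e2529_nt

open Finset Real Classical

noncomputable def Rw (w : List ℕ) : ℝ := 3 ^ w.length / 2 ^ w.sum

def Good (K : ℕ) (w : List ℕ) : Prop :=
  (6 / 5 : ℝ) ^ w.length ≤ Rw w ∧ (cw w : ℝ) ≤ (K - 1 / (w.length + 1)) * 3 ^ w.length

def V (z : ℕ) (u : List ℕ) : Prop := ∃ v, 2 ^ u.sum * (2 * v + 1) = 3 ^ u.length * z + cw u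

def QP (y K G n : ℕ) (Z : ℝ) (p : ℕ × ℕ) : Prop :=
  p.2 % 2 = 1 ∧ T^[p.1] (T^[G] p.2) = y ∧ Good K (wd p.1 (T^[G] p.2)) ∧ (wd G p.2).sum < n ∧
    Rw (wd p.1 (T^[G] p.2)) * Rw (wd G p.2) ≤ Z

theorem len_wd (H x : ℕ) : (wd H x).length = H := (mem_wds.1 (wd_mem H x)).1

theorem Rw_pos (w : List ℕ) : 0 < Rw w := by unfold Rw; positivity

theorem Rw_append (w u : List ℕ) : Rw (w ++ u) = Rw w * Rw u := by
  simp only [Rw, List.length_append, List.sum_append]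
  ring

theorem wd_add (L G x : ℕ) : wd (L + G) x = wd L (T^[G] x) ++ wd G x := by
  induction L with
  | zero => simp [wd]
  | succ L ih => rw [Nat.add_right_comm, wd, wd, ih, Function.iterate_add_apply, List.cons_append]

theorem T_odd (k : ℕ) {x : ℕ} (hx : x % 2 = 1) : T^[k] x % 2 = 1 := by
  induction k with
  | zero => exact hx
  | succ k ih =>
    rw [Function.iterate_succ_apply']
    have a := T_spec (T^[k] x)
    unfold st at a
    split_ifs at a <;> norm_num at a <;> omega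

theorem Good.cw_bd {K : ℕ} {w : List ℕ} (h : Good K w) : cw w ≤ K * 3 ^ w.length := by
  have : (cw w : ℝ) ≤ K * 3 ^ w.length :=
    h.2.trans (mul_le_mul_of_nonneg_right (sub_le_self _ (by positivity)) (by positivity))
  exact_mod_cast this

theorem Good.ext {K : ℕ} {w u : List ℕ} (h : Good K w) (h1 : (6 / 5 : ℝ) ^ u.length ≤ Rw u)
    (h2 : (5 / 2 : ℝ) ^ u.length * (w.length + u.length + 1) ^ 2 ≤ Rw w) (h3 : 1 ≤ u.length) :
    Good K (w ++ u) := by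
  refine ⟨?_, ?_⟩
  · rw [List.length_append, pow_add, Rw_append]
    exact mul_le_mul h.1 h1 (by positivity) (Rw_pos _).le
  have a1 : (cw u : ℝ) ≤ 2 ^ u.sum * 3 ^ u.length := by exact_mod_cast cw_le u
  have a2 := h.2
  rw [cw_append, List.length_append, pow_add]
  push_cast
  rw [Rw, le_div_iff₀ (by positivity)] at h1 h2
  have a3 : (1 : ℝ) ≤ u.length := by exact_mod_cast h3
  have a4 : (2 : ℝ) ^ u.sum ≤ (5 / 2) ^ u.length := by
    refine le_of_mul_le_mul_left (h1.trans_eq ?_) (show (0 : ℝ) < (6 / 5) ^ u.length by positivity)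
    rw [← mul_pow]
    norm_num
  generalize u.length = d at *
  generalize w.length = L at *
  have a5 : (2 : ℝ) ^ w.sum * 2 ^ u.sum ≤ (1 / (L + 1) - 1 / (L + d + 1)) * 3 ^ L := by
    rw [show (1 : ℝ) / (L + 1) - 1 / (L + d + 1) = d / ((L + 1) * (L + d + 1)) by field_simp; ring,
      div_mul_eq_mul_div, le_div_iff₀ (by positivity)]
    calc _ ≤ (2 : ℝ) ^ w.sum * (5 / 2) ^ d * ((L + d + 1) * (L + d + 1)) := by gcongr; linarith
      _ = 1 * ((5 / 2) ^ d * (L + d + 1) ^ 2 * 2 ^ w.sum) := by ring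
      _ ≤ _ := by gcongr
  have a6 := mul_le_mul_of_nonneg_left a1 (show (0 : ℝ) ≤ 2 ^ w.sum by positivity)
  have a7 := mul_le_mul_of_nonneg_left a2 (show (0 : ℝ) ≤ 3 ^ d by positivity)
  have a8 := mul_le_mul_of_nonneg_left a5 (show (0 : ℝ) ≤ 3 ^ d by positivity)
  linarith

variable {y K G n : ℕ} {Z : ℝ}

theorem QP.le {p : ℕ × ℕ} (h : QP y K G n Z p) : (p.2 : ℝ) ≤ (y + K) * Z + 3 ^ G := by
  obtain ⟨-, h2, h3, -, h5⟩ := h
  have a1 := fwd p.1 (T^[G] p.2)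
  have a2 := fwd G p.2
  have a3 := h3.cw_bd
  have a4 := cw_le (wd G p.2)
  simp only [Rw, len_wd] at h5 a3 a4
  rw [h2] at a1
  generalize T^[G] p.2 = z at *
  have b1 : (z : ℝ) ≤ (y + K) * (3 ^ p.1 / 2 ^ (wd p.1 z).sum) := by
    rw [← mul_div_assoc, le_div_iff₀ (by positivity)]
    exact_mod_cast (by nlinarith)
  have b2 : (p.2 : ℝ) ≤ z * (3 ^ G / 2 ^ (wd G p.2).sum) + 3 ^ G := by
    rw [← mul_div_assoc, div_add' _ _ _ (by positivity), le_div_iff₀ (by positivity)]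
    exact_mod_cast (by nlinarith)
  refine b2.trans (add_le_add ((mul_le_mul_of_nonneg_right b1 (by positivity)).trans ?_) le_rfl)
  rw [mul_assoc]
  gcongr

theorem QP_fin (y K G n : ℕ) (Z : ℝ) : {p | QP y K G n Z p}.Finite := by
  refine (Set.finite_Iic (⌈5 * Z * 2 ^ n⌉₊, ⌈(y + K) * Z + 3 ^ G⌉₊)).subset fun p hp => ⟨?_, ?_⟩
  · obtain ⟨-, -, h3, h4, h5⟩ := hp
    have a1 := (one_add_mul_le_pow (a := (1 / 5 : ℝ)) (by norm_num) p.1).trans
      (show (1 + 1 / 5 : ℝ) ^ p.1 ≤ _ by simpa [len_wd, show (1 + 5⁻¹ : ℝ) = 6 / 5 by norm_num]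
        using h3.1)
    have a2 : 1 ≤ Rw (wd G p.2) * 2 ^ n := by
      rw [Rw, div_mul_eq_mul_div, one_le_div (by positivity)]
      exact (pow_le_pow_right₀ one_le_two h4.le).trans
        (le_mul_of_one_le_left (by positivity) (one_le_pow₀ (by norm_num)))
    have a3 := mul_le_mul_of_nonneg_right h5 (show (0 : ℝ) ≤ 2 ^ n by positivity)
    have a4 := mul_le_mul_of_nonneg_left a2 (Rw_pos (wd p.1 (T^[G] p.2))).le
    exact Nat.cast_le.1 (le_trans (by linarith) (Nat.le_ceil (5 * Z * 2 ^ n)))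
  · exact Nat.cast_le.1 ((QP.le hp).trans (Nat.le_ceil _))

noncomputable def Q (y K G n : ℕ) (Z : ℝ) : Finset (ℕ × ℕ) := (QP_fin y K G n Z).toFinset

theorem mem_Q {p : ℕ × ℕ} : p ∈ Q y K G n Z ↔ QP y K G n Z p := Set.Finite.mem_toFinset _

theorem mem_PS {p : ℕ × ℕ} : p ∈ Q y K 0 1 Z ↔
    p.2 % 2 = 1 ∧ T^[p.1] p.2 = y ∧ Good K (wd p.1 p.2) ∧ Rw (wd p.1 p.2) ≤ Z := by
  simp [mem_Q, QP, wd, Rw]

theorem depth_le {L σ : ℕ} (h : (6 / 5 : ℝ) ^ L ≤ 2 ^ σ) : L ≤ 4 * σ := by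
  refine (pow_le_pow_iff_right₀ (show (1 : ℝ) < 6 / 5 by norm_num)).1 (h.trans ?_)
  rw [pow_mul]
  gcongr
  norm_num

theorem CC {S : Finset (ℕ × ℕ)} {σ m : ℕ} (hS : S ⊆ Q y K 0 1 Z) (h0 : 0 ≤ Z) (hZ : Z ≤ 2 ^ σ)
    (hm : ∀ p ∈ S, ∀ q ∈ S, p.2 % 2 ^ m = q.2 % 2 ^ m) :
    (#S : ℝ) ≤ 32 * (σ + 1) ^ 2 * (K * Z / 2 ^ m + 1) := by
  rw [card_eq_sum_card_fiberwise (f := fun p => (p.1, (wd p.1 p.2).sum))
    (t := range (4 * σ + 1) ×ˢ range (8 * σ + 1)) fun p hp => ?_]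
  · push_cast
    refine (sum_le_card_nsmul _ _ (K * Z / 2 ^ m + 1) ?_).trans ?_
    · rintro ⟨L, A⟩ -
      generalize hF : {p ∈ S | (p.1, (wd p.1 p.2).sum) = (L, A)} = F
      have hF' : ∀ p ∈ F, p ∈ S ∧ 3 ^ L * y + cw (wd p.1 p.2) = 2 ^ A * p.2 ∧ p.1 = L ∧
          cw (wd p.1 p.2) ≤ K * 3 ^ L ∧ (3 : ℝ) ^ L / 2 ^ A ≤ Z := by
        intro p hp
        obtain ⟨a1, a2⟩ := mem_filter.1 (hF ▸ hp)
        obtain ⟨rfl, rfl⟩ := Prod.mk.inj a2
        obtain ⟨-, b2, b3, b4⟩ := mem_PS.1 (hS a1)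
        have := b3.cw_bd
        rw [Rw, len_wd] at b4
        rw [len_wd] at this
        exact ⟨a1, by rw [← fwd, b2], rfl, this, b4⟩
      rcases F.eq_empty_or_nonempty with rfl | ⟨p₀, hp₀⟩
      · simp only [card_empty, Nat.cast_zero]
        positivity
      rw [← card_image_of_injOn (f := fun p => cw (wd p.1 p.2)) fun p hp q hq e => ?_]
      · refine (card_mod (X := K * 3 ^ L) (m := 2 ^ (A + m)) (fun x hx => ?_)
          fun x hx x' hx' => ?_).trans (add_le_add ?_ le_rfl)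
        · obtain ⟨p, hp, rfl⟩ := mem_image.1 hx
          exact (hF' p hp).2.2.2.1
        · obtain ⟨p, hp, rfl⟩ := mem_image.1 hx
          obtain ⟨q, hq, rfl⟩ := mem_image.1 hx'
          refine Nat.ModEq.add_left_cancel' (3 ^ L * y) ?_
          rw [(hF' p hp).2.1, (hF' q hq).2.1, pow_add]
          exact Nat.ModEq.mul_left' _ (hm p (hF' p hp).1 q (hF' q hq).1)
        · push_cast
          rw [pow_add, ← div_div, mul_div_assoc]
          gcongr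
          exact (hF' p₀ hp₀).2.2.2.2
      · obtain ⟨-, a1, a2, -⟩ := hF' p hp
        obtain ⟨-, a3, a4, -⟩ := hF' q hq
        exact Prod.ext (a2.trans a4.symm) (Nat.eq_of_mul_eq_mul_left (Nat.two_pow_pos A)
          (by rw [← a1, ← a3]; exact congrArg _ e))
    · rw [card_product, card_range, card_range, nsmul_eq_mul]
      push_cast
      exact mul_le_mul_of_nonneg_right (by nlinarith [σ.cast_nonneg (α := ℝ)]) (by positivity)
  · obtain ⟨-, -, b3, b4⟩ := mem_PS.1 (hS hp)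
    have a1 := depth_le (b3.1.trans (b4.trans hZ))
    have a2 := sum_le_of_mem (wd_mem p.1 p.2)
    rw [len_wd] at a1
    exact mem_coe.2 (mem_product.2 ⟨mem_range.2 (by dsimp only; omega),
      mem_range.2 (by dsimp only; omega)⟩)

theorem CS {σ m : ℕ} (h0 : 0 ≤ Z) (hZ : Z ≤ 2 ^ σ) {g : R m → ℝ} (hg : ∀ z, 0 ≤ g z) :
    ∑ p ∈ Q y K 0 1 Z, g p.2 ≤ 32 * (σ + 1) ^ 2 * (K * Z / 2 ^ m + 1) * ∑ z, g z := by
  rw [← sum_fiberwise_of_maps_to' (g := fun p : ℕ × ℕ => (p.2 : R m)) (fun _ _ => mem_univ _),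
    mul_sum]
  refine sum_le_sum fun z _ => ?_
  rw [sum_const, nsmul_eq_mul]
  refine mul_le_mul_of_nonneg_right (CC (filter_subset _ _) h0 hZ fun p hp q hq => ?_) (hg z)
  rw [← ZMod.natCast_eq_natCast_iff', (mem_filter.1 hp).2, (mem_filter.1 hq).2]

theorem cV_den {H k A : ℕ} (hA : A < n) (z : ℕ) :
    (#{u ∈ wds H | u.sum + k = A ∧ V z u} : ℝ) =
      3 ^ H * 2 ^ k / 2 ^ (A + 1) * den n H (A - k) z := by
  rw [card_filter]
  push_cast
  rw [den, ← EW_mul, EW, eq_div_iff (by positivity), sum_mul]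
  refine sum_congr rfl fun w hw => ?_
  by_cases e : w.sum + k = A
  · have := fiber_card (n := n) (A := w.sum) (m := 3 ^ H * z + cw w) (by omega)
    push_cast at this
    rw [if_pos (by omega : (A : ℤ) - k - w.sum = 0), this]
    simp only [e, true_and, V, (mem_wds.1 hw).1]
    split_ifs
    · rw [← e]
      push_cast
      field_simp
      ring
    · simp
  · rw [if_neg (by omega : ¬ (A : ℤ) - k - w.sum = 0), if_neg fun a => e a.1]
    simp

theorem card_fp {α β : Type} (s : Finset α) (t : Finset β) (P : α → β → Prop)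
    [∀ a b, Decidable (P a b)] :
    ∑ a ∈ s, #{b ∈ t | P a b} = #{r ∈ s ×ˢ t | P r.1 r.2} := by
  simp only [card_filter, sum_product]

theorem V_wd (G : ℕ) {x : ℕ} (hx : x % 2 = 1) : V (T^[G] x) (wd G x) :=
  ⟨x / 2, by rw [len_wd, fwd, show 2 * (x / 2) + 1 = x by omega]⟩

theorem wd_inj {G x x' : ℕ} (e1 : T^[G] x = T^[G] x') (e2 : wd G x = wd G x') : x = x' :=
  Nat.eq_of_mul_eq_mul_left (Nat.two_pow_pos (wd G x').sum) (by rw [← fwd G x', ← e1, ← e2, fwd])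

theorem Q_ge : ∑ A ∈ range n, ∑ q ∈ Q y K 0 1 (Z * 2 ^ A / 3 ^ G),
    #{u ∈ wds G | u.sum + 0 = A ∧ V q.2 u} ≤ #(Q y K G n Z) := by
  refine le_trans (sum_le_sum fun A hA => ?_) ((sum_card_fiberwise_eq_card_filter _ (range n)
    fun p : ℕ × ℕ => (wd G p.2).sum).trans_le (card_filter_le _ _))
  rw [card_fp _ _ fun (q : ℕ × ℕ) u => u.sum + 0 = A ∧ V q.2 u]
  refine card_le_card_of_surjOn (fun p => ((p.1, T^[G] p.2), wd G p.2)) ?_
  rintro ⟨⟨L, z⟩, u⟩ hp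
  obtain ⟨b1, rfl, v, b3⟩ := mem_filter.1 (mem_coe.1 hp)
  obtain ⟨b4, b5⟩ := mem_product.1 b1
  rw [(mem_wds.1 b5).1] at b3
  obtain ⟨c1, c2⟩ := bwd b5 b3
  obtain ⟨-, d2, d3, d4⟩ := mem_PS.1 b4
  refine ⟨(L, 2 * v + 1), mem_coe.2 (mem_filter.2 ⟨mem_Q.2 ?_, by rw [c1]; rfl⟩),
    by simp only [c1, c2]⟩
  simp only [QP, c1, c2]
  refine ⟨by omega, d2, d3, mem_range.1 hA, ?_⟩
  rw [le_div_iff₀ (by positivity)] at d4
  rw [Rw.eq_1 u, (mem_wds.1 b5).1, ← mul_div_assoc, div_le_iff₀ (by positivity)]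
  exact d4

theorem Q_le (H t k : ℕ) : #(Q y K H (n - k) (Z * 2 ^ k / 3 ^ t)) ≤ ∑ A ∈ range n,
    ∑ q ∈ Q y K 0 1 (Z * 2 ^ A / 3 ^ (H + t)), #{u ∈ wds H | u.sum + k = A ∧ V q.2 u} := by
  rw [card_eq_sum_card_fiberwise (f := fun p => (wd H p.2).sum + k) (t := range n) fun p hp => ?_]
  · refine sum_le_sum fun A _ => ?_
    rw [card_fp _ _ fun (q : ℕ × ℕ) u => u.sum + k = A ∧ V q.2 u]
    refine card_le_card_of_injOn (fun p => ((p.1, T^[H] p.2), wd H p.2)) (fun p hp => ?_)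
      fun p _ q _ e => ?_
    · obtain ⟨b1, rfl⟩ := mem_filter.1 (mem_coe.1 hp)
      obtain ⟨c1, c2, c3, -, c5⟩ := mem_Q.1 b1
      refine mem_coe.2 (mem_filter.2 ⟨mem_product.2 ⟨mem_PS.2 ⟨T_odd H c1, c2, c3, ?_⟩,
        wd_mem _ _⟩, rfl, V_wd H c1⟩)
      rw [Rw.eq_1 (wd H p.2), len_wd, ← mul_div_assoc, div_le_div_iff₀ (by positivity)
        (by positivity)] at c5
      rw [le_div_iff₀ (by positivity)]
      calc _ = Rw (wd p.1 (T^[H] p.2)) * 3 ^ H * 3 ^ t := by ring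
        _ ≤ _ := c5
        _ = _ := by ring
    · simp only [Prod.mk.injEq] at e
      exact Prod.ext e.1.1 (wd_inj e.1.2 e.2)
  · have := (mem_Q.1 hp).2.2.2.1
    exact mem_coe.2 (mem_range.2 (by dsimp only; omega))

theorem Q_bad {σ : ℕ} (B : List ℕ → Prop) (h0 : 0 ≤ Z) (hZ : Z ≤ 2 ^ σ) (hn : 2 ^ n ≤ 3 ^ G) :
    (#{p ∈ Q y K G n Z | B (wd G p.2)} : ℝ) ≤
      32 * (σ + 1) ^ 2 * (K * Z * EW G (fun u => if B u then 1 else 0) + 3 ^ G) := by
  rw [card_eq_sum_card_fiberwise (f := fun p : ℕ × ℕ => wd G p.2) (t := {u ∈ wds G | B u}) fun p hp =>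
    mem_coe.2 (mem_filter.2 ⟨wd_mem _ _, (mem_filter.1 (mem_coe.1 hp)).2⟩)]
  push_cast
  refine (sum_le_card_nsmul _ _ (32 * (σ + 1) ^ 2 * (K * Z / 3 ^ G + 1)) fun u hu => ?_).trans ?_
  · generalize hF : {p ∈ {p ∈ Q y K G n Z | B (wd G p.2)} | wd G p.2 = u} = F
    have hF' : ∀ p ∈ F, QP y K G n Z p ∧ wd G p.2 = u := fun p hp => by
      rw [← hF, mem_filter, mem_filter] at hp
      exact ⟨mem_Q.1 hp.1.1, hp.2⟩
    rcases F.eq_empty_or_nonempty with rfl | ⟨p₀, hp₀⟩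
    · simp only [card_empty, Nat.cast_zero]
      positivity
    have a1 : (2 : ℝ) ^ u.sum ≤ 3 ^ G := by
      obtain ⟨⟨-, -, -, a, -⟩, rfl⟩ := hF' p₀ hp₀
      exact_mod_cast (Nat.pow_le_pow_right two_pos a.le).trans hn
    rw [← card_image_of_injOn (f := fun p => (p.1, T^[G] p.2)) fun p hp q hq e => ?_]
    · refine (CC (y := y) (K := K) (Z := Z * 2 ^ u.sum / 3 ^ G) (σ := σ) (m := u.sum + 1)
        (fun q hq => ?_) (by positivity) (le_trans ?_ hZ) fun q hq q' hq' => ?_).trans ?_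
      · obtain ⟨p, hp, rfl⟩ := mem_image.1 hq
        obtain ⟨⟨c1, c2, c3, -, c5⟩, rfl⟩ := hF' p hp
        refine mem_PS.2 ⟨T_odd G c1, c2, c3, ?_⟩
        rw [Rw.eq_1 (wd G p.2), len_wd, ← mul_div_assoc, div_le_iff₀ (by positivity)] at c5
        rwa [le_div_iff₀ (by positivity)]
      · rw [div_le_iff₀ (by positivity)]
        gcongr
      · obtain ⟨p, hp, rfl⟩ := mem_image.1 hq
        obtain ⟨p', hp', rfl⟩ := mem_image.1 hq'
        obtain ⟨⟨c1, -⟩, c2⟩ := hF' p hp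
        obtain ⟨⟨c3, -⟩, c4⟩ := hF' p' hp'
        refine Nat.ModEq.cancel_left_of_coprime (c := 3 ^ G) (Nat.Coprime.pow _ _ (by norm_num))
          (Nat.ModEq.add_right_cancel' (cw u) ?_)
        have d1 := fwd G p.2
        have d2 := fwd G p'.2
        rw [c2] at d1
        rw [c4] at d2
        rw [d1, d2, pow_succ]
        exact Nat.ModEq.mul_left' _ (c1.trans c3.symm)
      · gcongr _ * (?_ + _)
        rw [div_le_div_iff₀ (by positivity) (by positivity), pow_succ]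
        calc _ = K * Z * (2 ^ u.sum * 1) := by field_simp
          _ ≤ _ := by gcongr; norm_num
    · obtain ⟨e1, e2⟩ := Prod.mk.inj e
      exact Prod.ext e1 (wd_inj e2 ((hF' p hp).2.trans (hF' q hq).2.symm))
  · rw [nsmul_eq_mul, EW, sum_boole, mul_left_comm, mul_add (#_ : ℝ), mul_one]
    refine mul_le_mul_of_nonneg_left (add_le_add (le_of_eq (by ring)) ?_) (by positivity)
    exact_mod_cast (card_filter_le _ _).trans (card_wds G).le

theorem Q_small {σ : ℕ} {Z₁ : ℝ} (h0 : 0 ≤ Z₁) (hZ : Z₁ ≤ 2 ^ σ) :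
    (#{p ∈ Q y K G n Z | Rw (wd p.1 (T^[G] p.2)) ≤ Z₁} : ℝ) ≤
      32 * (σ + 1) ^ 2 * (K * Z₁ + 1) * 3 ^ G := by
  have a1 := CC (y := y) (K := K) (m := 0) subset_rfl h0 hZ fun _ _ _ _ => by simp [Nat.mod_one]
  have a2 : #{p ∈ Q y K G n Z | Rw (wd p.1 (T^[G] p.2)) ≤ Z₁} ≤ #(Q y K 0 1 Z₁ ×ˢ wds G) := by
    refine card_le_card_of_injOn (fun p => ((p.1, T^[G] p.2), wd G p.2)) (fun p hp => ?_)
      fun p _ q _ e => ?_
    · obtain ⟨b1, b2⟩ := mem_filter.1 (mem_coe.1 hp)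
      obtain ⟨c1, c2, c3, -⟩ := mem_Q.1 b1
      exact mem_coe.2 (mem_product.2 ⟨mem_PS.2 ⟨T_odd G c1, c2, c3, b2⟩, wd_mem _ _⟩)
    · simp only [Prod.mk.injEq] at e
      exact Prod.ext e.1.1 (wd_inj e.1.2 e.2)
  rw [card_product, card_wds] at a2
  rw [pow_zero, div_one] at a1
  refine (Nat.cast_le.2 a2).trans ?_
  push_cast
  gcongr

end Pool.Agent.MP_2e2529_nt
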