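import Pool.Agent.MP_2e2529_nt.Pos1

/-! The renewal inequality for predecessors, and the recursion over scales. -/

namespace Pool.Agent.MP_2e2529_nt

open Finset Real Classical

theorem typ {d A : ℕ} (h : ¬ (5 / 2 : ℝ) ^ d ≤ 2 ^ A) : (6 / 5 : ℝ) ^ d ≤ 3 ^ d / 2 ^ A := by
  rw [le_div_iff₀ (by positivity), show (3 : ℝ) = 6 / 5 * (5 / 2) by norm_num, mul_pow]
  gcongr
  exact (not_le.1 h).le

theorem markov' (d : ℕ) :
    EW d (fun w => if (5 / 2 : ℝ) ^ d ≤ 2 ^ w.sum then (1 : ℝ) else 0) ≤ (14 / 15) ^ d := by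
  have := markov d (B := (5 / 2) ^ d) (by positivity)
  rwa [← div_pow, show (7 / 3 / (5 / 2) : ℝ) = 14 / 15 by norm_num] at this

theorem EW_split (d H : ℕ) (f g : List ℕ → ℝ) :
    EW (d + H) (fun W => f (W.take d) + g (W.drop d)) = EW d f + EW H g := by
  rw [EW_append, ← EW_const d (EW H g), ← EW_add]
  refine EW_congr fun w hw => ?_
  simp only [List.take_left' (mem_wds.1 hw).1, List.drop_left' (mem_wds.1 hw).1, EW_add, EW_const]

theorem descend {y K σ d H n m : ℕ} {Z Z₁ : ℝ} (h0 : 0 ≤ Z) (hZ : Z ≤ 2 ^ σ)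
    (hn : 2 ^ n ≤ 3 ^ (d + H)) (hd : 1 ≤ d) (h1 : (5 / 2) ^ d * (4 * σ + d + 1) ^ 2 ≤ Z₁)
    (h2 : Z₁ ≤ 2 ^ σ) : (#(Q y K (d + H) n Z) : ℝ) ≤ #(Q y K H m Z) +
      32 * (σ + 1) ^ 2 * (K * Z * ((14 / 15) ^ d + (7 / 3) ^ H / 2 ^ m) + 3 ^ (d + H)) +
      32 * (σ + 1) ^ 2 * (K * Z₁ + 1) * 3 ^ (d + H) := by
  obtain ⟨B, hB⟩ : ∃ B : List ℕ → Prop, ∀ W, B W ↔
    ((5 / 2 : ℝ) ^ d ≤ 2 ^ (W.take d).sum ∨ (2 : ℝ) ^ m ≤ 2 ^ (W.drop d).sum) := ⟨_, fun _ => Iff.rfl⟩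
  have a1 := Q_bad (y := y) (K := K) B h0 hZ hn
  have a2 := Q_small (y := y) (K := K) (G := d + H) (n := n) (Z := Z)
    (le_trans (by positivity) h1) h2
  have a3 : EW (d + H) (fun u => if B u then (1 : ℝ) else 0) ≤
      (14 / 15) ^ d + (7 / 3) ^ H / 2 ^ m := by
    refine le_trans (EW_mono fun W _ => ?_) ((EW_split _ _ _ _).trans_le
      (add_le_add (markov' d) (markov H (by positivity))))
    simp only [hB]
    split_ifs <;> first | tauto | norm_num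
  have a4 : #{p ∈ Q y K (d + H) n Z | ¬ B (wd (d + H) p.2) ∧
      ¬ Rw (wd p.1 (T^[d + H] p.2)) ≤ Z₁} ≤ #(Q y K H m Z) := by
    refine card_le_card_of_injOn (fun p => (p.1 + d, p.2)) (fun p hp => ?_) fun p _ q _ e => ?_
    · obtain ⟨b1, b2, b3⟩ := mem_filter.1 (mem_coe.1 hp)
      obtain ⟨c1, c2, c3, c4, c5⟩ := mem_Q.1 b1
      have b4 : (1 : ℝ) ≤ Rw (wd (d + H) p.2) := by
        rw [Rw, len_wd, one_le_div (by positivity)]
        exact_mod_cast (Nat.pow_le_pow_right two_pos c4.le).trans hn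
      have b5 := depth_le (c3.1.trans (((le_mul_of_one_le_right (Rw_pos _).le b4).trans c5).trans hZ))
      rw [hB, wd_add, List.take_left' (len_wd _ _), List.drop_left' (len_wd _ _), not_or] at b2
      rw [Function.iterate_add_apply] at c2 c3 c5 b3 b5
      refine mem_coe.2 (mem_Q.2 ⟨c1, ?_, ?_, ?_, ?_⟩)
      · rwa [Function.iterate_add_apply]
      · rw [wd_add]
        refine c3.ext ?_ (le_trans ?_ (h1.trans (not_le.1 b3).le)) (by rwa [len_wd])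
        · rw [Rw, len_wd]
          exact typ b2.1
        · rw [len_wd d]
          gcongr
          exact_mod_cast b5
      · exact (pow_lt_pow_iff_right₀ one_lt_two).1 (not_le.1 b2.2)
      · rwa [wd_add, Rw_append, mul_assoc, ← Rw_append (wd d _), ← wd_add]
    · obtain ⟨e1, e2⟩ := Prod.mk.inj e
      exact Prod.ext (by omega) e2
  have a5 : #(Q y K (d + H) n Z) ≤ #(Q y K H m Z) + #{p ∈ Q y K (d + H) n Z | B (wd (d + H) p.2)} +
      #{p ∈ Q y K (d + H) n Z | Rw (wd p.1 (T^[d + H] p.2)) ≤ Z₁} := by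
    refine le_trans (card_le_card fun p hp => ?_) ((card_union_le _ _).trans
      (Nat.add_le_add_right ((card_union_le _ _).trans (Nat.add_le_add_right a4 _)) _))
    simp only [mem_union, mem_filter, hp, true_and]
    tauto
  have a6 := (Nat.cast_le (α := ℝ)).2 a5
  push_cast at a6
  refine a6.trans (add_le_add (add_le_add le_rfl (a1.trans ?_)) a2)
  gcongr

theorem pstep (α : ℕ) : ∃ C : ℝ, 0 ≤ C ∧ ∀ (y K t σ : ℕ) (Z β : ℝ), 1 ≤ K → 25 ≤ t →
    σ ≤ 400 * t + 400 → 2 ^ (400 * t) ≤ Z → Z ≤ 2 ^ σ → β ≤ 1 →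
    (∀ Z', Z / 3 ^ t ≤ Z' → 2 * Z' ≤ Z → ∃ d t', d + 10 * t = 11 * t' ∧ t ≤ 2 * d ∧ d ≤ t ∧
      β * Z' ≤ #(Q y K (11 * t') (14 * t') Z')) →
    (β - K * C / (t + 1) ^ α) * Z ≤ #(Q y K (11 * t) (14 * t) Z) := by
  obtain ⟨C, hC0, hC⟩ := mix (α + 2)
  obtain ⟨E, hE0, hE⟩ := polyK (α + 2) (ρ := 29 / 30) (by norm_num) (by norm_num)
  refine ⟨32 * 401 ^ 2 * (C + 5 * E), by positivity, fun y K t σ Z β hK ht hσ h1 h2 hβ ih => ?_⟩
  have hm := hC t t
  rw [show 11 * t = 10 * t + t by ring]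
  generalize hn : 14 * t = n at hm ⊢
  generalize hH : 10 * t = H at hm ih ⊢
  have hZ : 0 < Z := lt_of_lt_of_le (by positivity) h1
  have hK' : (1 : ℝ) ≤ K := by exact_mod_cast hK
  have h3 : (3 : ℝ) ^ (H + t) ≤ 2 ^ (18 * t) := by
    rw [← hH, show 10 * t + t = 11 * t by ring, pow_mul, pow_mul]
    gcongr
    norm_num
  have h4 : (3 : ℝ) ^ (H + t) * 2 ^ n ≤ Z :=
    calc (3 : ℝ) ^ (H + t) * 2 ^ n ≤ 2 ^ (18 * t) * 2 ^ n := by gcongr
      _ ≤ 2 ^ (400 * t) := by rw [← pow_add]; exact pow_le_pow_right₀ one_le_two (by omega)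
      _ ≤ _ := h1
  have h5 : (2 : ℝ) ^ n ≤ 3 ^ (H + t) := by
    rw [← hn, ← hH, show 10 * t + t = 11 * t by ring, pow_mul, pow_mul]
    gcongr
    norm_num
  generalize hP : 32 * ((σ : ℝ) + 1) ^ 2 = P
  have hP1 : 1 ≤ P := by rw [← hP]; nlinarith [σ.cast_nonneg (α := ℝ)]
  have hP2 : P ≤ 32 * 401 ^ 2 * (t + 1) ^ 2 := by
    rw [← hP, mul_assoc, ← mul_pow]
    gcongr
    exact_mod_cast (by omega)
  have a1 := (Nat.cast_le (α := ℝ)).2 (Q_ge (y := y) (K := K) (G := H + t) (n := n) (Z := Z))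
  have a2 : ∀ A ∈ range n, EW t (fun v => 3 ^ t / 2 ^ v.sum *
      ∑ q ∈ Q y K 0 1 (Z * 2 ^ A / 3 ^ (H + t)), (#{u ∈ wds H | u.sum + v.sum = A ∧ V q.2 u} : ℝ)) ≤
      ∑ q ∈ Q y K 0 1 (Z * 2 ^ A / 3 ^ (H + t)),
        (#{u ∈ wds (H + t) | u.sum + 0 = A ∧ V q.2 u} : ℝ) + P * K * Z *
      ((∑ y : R n, |den n (H + t) A y - EW t fun v => den n H (A - v.sum) y|) / 2 ^ n) := by
    intro A hA
    have b1 : ∀ (k : ℕ) (x : ℝ), 3 ^ t / 2 ^ k * (3 ^ H * 2 ^ k / 2 ^ (A + 1) * x) =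
        3 ^ (H + t) * 2 ^ 0 / 2 ^ (A + 1) * x := fun k x => by field_simp; ring
    simp only [cV_den (mem_range.1 hA), ← mul_sum, b1, EW_mul, EW_sum, Nat.cast_zero, sub_zero]
    rw [← sub_le_iff_le_add', ← mul_sub, ← sum_sub_distrib]
    have b2 := CS (y := y) (K := K) (Z := Z * 2 ^ A / 3 ^ (H + t)) (σ := σ)
      (g := fun y : R n => |den n (H + t) A y - EW t fun v => den n H (A - v.sum) y|)
      (by positivity) (le_trans (by
        rw [div_le_iff₀ (by positivity)]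
        gcongr
        exact (pow_le_pow_right₀ one_le_two (mem_range.1 hA).le).trans h5) h2) fun _ => abs_nonneg _
    refine (mul_le_mul_of_nonneg_left ((sum_le_sum fun q _ => ?_).trans b2) (by positivity)).trans ?_
    · rw [abs_sub_comm]
      exact le_abs_self _
    · rw [hP, ← mul_assoc, ← mul_div_assoc (P * K * Z : ℝ), mul_div_right_comm (P * K * Z : ℝ)]
      refine mul_le_mul_of_nonneg_right ?_ (sum_nonneg fun _ _ => abs_nonneg _)
      have b3 : (1 : ℝ) ≤ 2 ^ A := one_le_pow₀ one_le_two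
      rw [le_div_iff₀ (by positivity), show (3 : ℝ) ^ (H + t) * 2 ^ 0 / 2 ^ (A + 1) *
        (P * (K * (Z * 2 ^ A / 3 ^ (H + t)) / 2 ^ n + 1)) * 2 ^ n =
        P * (K * Z / 2 + 3 ^ (H + t) * 2 ^ n / 2 ^ A / 2) by field_simp; ring, mul_assoc]
      have b4 := (div_le_self (by positivity) b3).trans (h4.trans (le_mul_of_one_le_left hZ.le hK'))
      gcongr
      linarith
  have a3 : ∀ k : ℕ, β * Z - 4 * P * K * Z * (29 / 30) ^ t -
      Z * (if (5 / 2 : ℝ) ^ t ≤ 2 ^ k then 1 else 0) ≤ ∑ A ∈ range n, 3 ^ t / 2 ^ k *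
      ∑ q ∈ Q y K 0 1 (Z * 2 ^ A / 3 ^ (H + t)), (#{u ∈ wds H | u.sum + k = A ∧ V q.2 u} : ℝ) := by
    intro k
    have b0 := (Nat.cast_le (α := ℝ)).2 (Q_le (y := y) (K := K) (n := n) (Z := Z) H t k)
    push_cast at b0
    rw [← mul_sum]
    refine le_trans ?_ (mul_le_mul_of_nonneg_left b0 (by positivity))
    split_ifs with e
    · refine le_trans ?_ (show (0 : ℝ) ≤ _ by positivity)
      nlinarith [show 0 ≤ 4 * P * K * Z * (29 / 30) ^ t by positivity]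
    have b1 : (2 : ℝ) ≤ 3 ^ t / 2 ^ k := le_trans (le_trans (by norm_num)
      (pow_le_pow_right₀ (by norm_num) (show 4 ≤ t by omega))) (typ e)
    have b2 : (1 : ℝ) ≤ 2 ^ k := one_le_pow₀ one_le_two
    generalize hZ' : Z * 2 ^ k / 3 ^ t = Z'
    have b3 : 3 ^ t / 2 ^ k * Z' = Z := by rw [← hZ']; field_simp
    have b4 : 0 < Z' := by rw [← hZ']; positivity
    have b5 : 2 * Z' ≤ Z := by rw [← b3]; gcongr
    obtain ⟨d, t', c1, c2, c3, c4⟩ := ih Z' (by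
      rw [← hZ']
      gcongr
      exact le_mul_of_one_le_right hZ.le b2) b5
    have c5 := descend (y := y) (K := K) (σ := σ) (d := d) (H := H) (n := 14 * t') (m := n - k)
      (Z := Z') (Z₁ := 2 ^ (5 * t)) b4.le (by linarith) (by
        rw [c1, pow_mul, pow_mul]
        exact Nat.pow_le_pow_left (by norm_num) _) (by omega) ?_
      ((pow_le_pow_right₀ one_le_two (by omega)).trans (h1.trans h2))
    swap
    · have d1 : 4 * σ + d + 1 ≤ 2 ^ (t + 11) := by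
        have := t.lt_two_pow_self
        rw [pow_add]
        omega
      calc (5 / 2 : ℝ) ^ d * (4 * σ + d + 1) ^ 2 ≤ (2 ^ 2) ^ d * (2 ^ (t + 11)) ^ 2 := by
            gcongr
            · norm_num
            · exact_mod_cast d1
        _ ≤ _ := by
            rw [← pow_mul, ← pow_mul, ← pow_add]
            exact pow_le_pow_right₀ one_le_two (by omega)
    have d1 : (14 / 15 : ℝ) ^ d ≤ (29 / 30) ^ t :=
      calc (14 / 15 : ℝ) ^ d ≤ ((29 / 30) ^ 2) ^ d := by gcongr; norm_num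
        _ ≤ _ := by rw [← pow_mul]; exact pow_le_pow_of_le_one (by norm_num) (by norm_num) c2
    have d2 : (7 / 3 : ℝ) ^ H / 2 ^ (n - k) ≤ (29 / 30) ^ t := by
      have : (2 : ℝ) ^ n ≤ 2 ^ (n - k) * (5 / 2) ^ t :=
        (pow_le_pow_right₀ one_le_two le_tsub_add).trans ((pow_add _ _ _).trans_le
          (mul_le_mul_of_nonneg_left (not_le.1 e).le (by positivity)))
      rw [div_le_iff₀ (by positivity)]
      refine le_of_mul_le_mul_right ?_ (show (0 : ℝ) < (5 / 2) ^ t by positivity)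
      refine le_trans ?_ ((mul_le_mul_of_nonneg_left this (by positivity)).trans_eq
        (mul_assoc _ _ _).symm)
      rw [← hH, ← hn, pow_mul, pow_mul, ← mul_pow, ← mul_pow]
      exact pow_le_pow_left₀ (by positivity) (by norm_num) t
    have d3 : (3 : ℝ) ^ t / 2 ^ k * (3 ^ (d + H) * (K * 2 ^ (5 * t) + 2)) ≤
        2 * K * Z * (29 / 30) ^ t :=
      calc (3 : ℝ) ^ t / 2 ^ k * (3 ^ (d + H) * (K * 2 ^ (5 * t) + 2)) ≤
            3 ^ t * (3 ^ (11 * t) * (K * 2 ^ (5 * t) + K * 2 ^ (5 * t))) := by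
            gcongr
            · exact div_le_self (by positivity) b2
            · norm_num
            · omega
            · exact le_trans (by norm_num) (mul_le_mul hK' (pow_le_pow_right₀ one_le_two
                (show 1 ≤ 5 * t by omega)) (by norm_num) (by positivity))
        _ = 2 * K * (3 * 3 ^ 11 * 2 ^ 5) ^ t := by rw [mul_pow, mul_pow, pow_mul, pow_mul]; ring
        _ ≤ 2 * K * (2 ^ 30 * (29 / 30)) ^ t := mul_le_mul_of_nonneg_left
            (pow_le_pow_left₀ (by norm_num) (by norm_num) t) (by positivity)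
        _ ≤ _ := by
            rw [mul_pow, ← pow_mul, ← mul_assoc]
            gcongr
            exact (pow_le_pow_right₀ one_le_two (by omega)).trans h1
    rw [c1, hP] at c5
    rw [c1] at d3
    have d4 : β * Z' - P * (K * Z' * (2 * (29 / 30) ^ t)) -
        P * (3 ^ (11 * t') * (K * 2 ^ (5 * t) + 2)) ≤ #(Q y K H (n - k) Z') := by
      have : P * (K * Z' * ((14 / 15) ^ d + (7 / 3) ^ H / 2 ^ (n - k))) ≤
          P * (K * Z' * (2 * (29 / 30) ^ t)) := by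
        gcongr
        linarith
      linarith
    refine le_trans ?_ (mul_le_mul_of_nonneg_left d4 (by positivity))
    have d5 := mul_le_mul_of_nonneg_left d3 (zero_le_one.trans hP1)
    rw [← b3] at d5 ⊢
    linarith
  have a4 := sum_le_sum a2
  rw [sum_add_distrib, ← mul_sum, ← EW_sum] at a4
  have a5 := EW_mono (H := t) fun v _ => a3 v.sum
  rw [EW_sub, EW_const, EW_mul] at a5
  push_cast at a1
  have a6 : (14 / 15 : ℝ) ^ t ≤ P * K * (29 / 30) ^ t :=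
    (pow_le_pow_left₀ (by norm_num) (by norm_num) t).trans
      (le_mul_of_one_le_left (by positivity) (one_le_mul_of_one_le_of_one_le hP1 hK'))
  have a7 := mul_le_mul_of_nonneg_left ((markov' t).trans a6) hZ.le
  have a8 := mul_le_mul_of_nonneg_left hm (show 0 ≤ P * K * Z by positivity)
  have a9 := mul_le_mul_of_nonneg_left (hE t) (show 0 ≤ P * K * Z by positivity)
  have a10 : P * K * Z * (C / (t + 1) ^ (α + 2) + 5 * (E / (t + 1) ^ (α + 2))) ≤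
      K * (32 * 401 ^ 2 * (C + 5 * E)) / (t + 1) ^ α * Z :=
    calc _ ≤ 32 * 401 ^ 2 * (t + 1) ^ 2 * K * Z *
          (C / (t + 1) ^ (α + 2) + 5 * (E / (t + 1) ^ (α + 2))) := by gcongr
      _ = _ := by field_simp; ring
  linarith

theorem prec : ∃ C : ℝ, 0 ≤ C ∧ ∀ (y K s₀ : ℕ) (β Z₀ : ℝ), 1 ≤ K → 0 ≤ β → β ≤ 1 → 40000 ≤ s₀ →
    2 ^ s₀ ≤ Z₀ → K * C ≤ β * s₀ ^ 4 →
    (∀ (s : ℕ) (Z : ℝ), 2 ^ s ≤ Z → Z < 2 ^ (s + 1) → Z₀ ≤ Z → Z < Z₀ * 3 ^ (s / 400) →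
      ∃ t, 400 * t ≤ s ∧ s ≤ 404 * t + 1000 ∧ β * Z ≤ #(Q y K (11 * t) (14 * t) Z)) →
    ∀ (s : ℕ) (Z : ℝ), 2 ^ s ≤ Z → Z < 2 ^ (s + 1) → Z₀ ≤ Z →
      ∃ t, 400 * t ≤ s ∧ s ≤ 404 * t + 1000 ∧
        β / 2 * (1 + s₀ / s) * Z ≤ #(Q y K (11 * t) (14 * t) Z) := by
  obtain ⟨C, hC0, hC⟩ := pstep 5
  refine ⟨2 * C * 400 ^ 5, by positivity, fun y K s₀ β Z₀ hK h0 h1 h2 h3 h4 hb s => ?_⟩
  have hs : ∀ (s : ℕ) (Z : ℝ), Z < 2 ^ (s + 1) → Z₀ ≤ Z → s₀ ≤ s := fun s Z a b =>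
    Nat.le_of_lt_succ ((pow_lt_pow_iff_right₀ one_lt_two).1 ((h3.trans b).trans_lt a))
  have hle : ∀ s : ℕ, s₀ ≤ s → β / 2 * (1 + s₀ / s) ≤ β := fun s a => by
    have : (s₀ : ℝ) / s ≤ 1 := div_le_one_of_le₀ (by exact_mod_cast a) s.cast_nonneg
    nlinarith
  induction s using Nat.strong_induction_on with
  | _ s ih =>
  intro Z a1 a2 a3
  have a4 := hs s Z a2 a3
  have hZ : 0 < Z := lt_of_lt_of_le (by positivity) a1
  by_cases a5 : Z < Z₀ * 3 ^ (s / 400)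
  · obtain ⟨t, b1, b2, b3⟩ := hb s Z a1 a2 a3 a5
    exact ⟨t, b1, b2, (mul_le_mul_of_nonneg_right (hle s a4) hZ.le).trans b3⟩
  have key : ∀ Z', Z / 3 ^ (s / 400) ≤ Z' → 2 * Z' ≤ Z →
      ∃ s', s₀ ≤ s' ∧ s' < s ∧ s ≤ s' + 2 * (s / 400) ∧ 2 ^ s' ≤ Z' ∧ Z' < 2 ^ (s' + 1) ∧ Z₀ ≤ Z' := by
    intro Z' b1 b2
    have b3 : Z₀ ≤ Z' := ((le_div_iff₀ (by positivity)).2 (not_lt.1 a5)).trans b1
    obtain ⟨s', c1, c2⟩ := exists_nat_pow_near ((one_le_pow₀ one_le_two).trans (h3.trans b3))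
      one_lt_two
    refine ⟨s', hs s' Z' c2 b3, ?_, ?_, c1, c2, b3⟩
    · have : (2 : ℝ) ^ (s' + 1) < 2 ^ (s + 1) := by rw [pow_succ]; linarith
      exact Nat.lt_of_succ_lt_succ ((pow_lt_pow_iff_right₀ one_lt_two).1 this)
    · rw [div_le_iff₀ (by positivity)] at b1
      have : (2 : ℝ) ^ s < 2 ^ (s' + 1 + 2 * (s / 400)) := by
        rw [pow_add, pow_mul]
        exact (a1.trans b1).trans_lt (mul_lt_mul c2 (pow_le_pow_left₀ (by norm_num) (by norm_num) _)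
          (by positivity) (by positivity))
      have := (pow_lt_pow_iff_right₀ one_lt_two).1 this
      omega
  obtain ⟨s₁, rfl⟩ : ∃ s₁, s = s₁ + 1 := ⟨s - 1, by omega⟩
  have a6 : s₀ ≤ s₁ := by
    obtain ⟨s', c1, c2, -⟩ := key (Z / 2) (by
      gcongr
      exact le_trans (by norm_num) (pow_le_pow_right₀ (by norm_num)
        (show 1 ≤ (s₁ + 1) / 400 by omega))) (by linarith)
    omega
  refine ⟨(s₁ + 1) / 400, by omega, by omega, le_trans (mul_le_mul_of_nonneg_right ?_ hZ.le)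
    (hC y K _ (s₁ + 1 + 1) Z (β / 2 * (1 + s₀ / s₁)) hK (by omega) (by omega)
      ((pow_le_pow_right₀ one_le_two (by omega)).trans a1) a2.le ((hle s₁ a6).trans h1)
      fun Z' b1 b2 => ?_)⟩
  · have b0 : (0 : ℝ) < s₁ := by exact_mod_cast (by omega)
    have b1 : (s₀ : ℝ) ≤ s₁ + 1 := by exact_mod_cast a4
    have b2 : K * C / ((((s₁ + 1) / 400 : ℕ) : ℝ) + 1) ^ 5 ≤ K * C * 400 ^ 5 / (s₁ + 1) ^ 5 := by
      rw [div_le_div_iff₀ (by positivity) (by positivity), mul_assoc (K * C), ← mul_pow]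
      gcongr
      exact_mod_cast (by omega)
    have b3 : K * C * 400 ^ 5 / (s₁ + 1) ^ 5 ≤ β / 2 * (s₀ / (s₁ * (s₁ + 1))) :=
      calc K * C * 400 ^ 5 / (s₁ + 1) ^ 5 ≤ β / 2 * (s₀ * s₀ ^ 3) / (s₁ + 1) ^ 5 :=
            div_le_div_of_nonneg_right (by linarith) (by positivity)
        _ ≤ β / 2 * (s₀ * (s₁ + 1) ^ 3) / (s₁ + 1) ^ 5 := by gcongr
        _ = β / 2 * (s₀ / ((s₁ + 1) * (s₁ + 1))) := by field_simp
        _ ≤ _ := by gcongr; linarith
    push_cast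
    rw [show β / 2 * (1 + s₀ / (s₁ + 1)) =
      β / 2 * (1 + s₀ / s₁) - β / 2 * (s₀ / (s₁ * (s₁ + 1))) by field_simp; ring]
    linarith
  · obtain ⟨s', c1, c2, c3, c4, c5, c6⟩ := key Z' b1 b2
    obtain ⟨t', d1, d2, d3⟩ := ih s' c2 Z' c4 c5 c6
    refine ⟨11 * t' - 10 * ((s₁ + 1) / 400), t', by omega, by omega, by omega, le_trans ?_ d3⟩
    have : (0 : ℝ) < s' := by exact_mod_cast (by omega)
    have : 0 ≤ Z' := le_trans (by positivity) c4
    gcongr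
    omega

end Pool.Agent.MP_2e2529_nt
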