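import Pool.Agent.MP_2e2529_nt.Pos2

/-! The choice of the residue class of the seed. -/

namespace Pool.Agent.MP_2e2529_nt

open Finset Real Classical

theorem passage (J : ℕ) {Z r : ℝ} (h0 : 0 < r) (h1 : r ≤ Z) :
    Z / 3 * EW J (fun u => if Z < r * Rw u then 1 else 0) ≤
      ∑ j ∈ range J, EW j fun u => if r * Rw u ≤ Z then r * Rw u else 0 := by
  induction J generalizing r with
  | zero => simp [EW_zero, Rw, h1.not_gt]
  | succ J ih =>
    rw [sum_range_succ', EW_zero, show r * Rw [] = r by simp [Rw], if_pos h1]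
    by_cases e : Z / 3 ≤ r
    · refine le_add_of_nonneg_of_le (sum_nonneg fun j _ => EW_nonneg fun u _ => ?_)
        ((mul_le_of_le_one_right (by linarith) ?_).trans e)
      · have := Rw_pos u
        positivity
      · exact (EW_mono fun u _ => by split_ifs <;> norm_num).trans_eq (EW_const _ (1 : ℝ))
    have a : ∀ (a : ℕ) (u : List ℕ), r * Rw (a :: u) = r * 3 / 2 ^ a * Rw u := fun a u => by
      simp only [Rw, List.length_cons, List.sum_cons]
      ring
    have b : ∀ a : ℕ, r * 3 / 2 ^ a ≤ Z := fun a =>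
      (div_le_self (by positivity) (one_le_pow₀ one_le_two)).trans (by linarith)
    simp only [EW_succ, a, ← sum_div, sum_add_distrib]
    linarith [ih (by positivity) (b 0), ih (by positivity) (b 1), ih (by positivity) (b 2)]

noncomputable def dnf (n H : ℕ) (f : List ℕ → ℝ) (y : R n) : ℝ := EW H fun w =>
  f w * (#{v : R n | 2 ^ w.sum * (2 * v + 1) = 3 ^ H * y + cw w} : ℝ)

theorem sum_dnf (n H : ℕ) (f : List ℕ → ℝ) : ∑ y, dnf n H f y = 2 ^ n * EW H f := by
  simp only [dnf, ← EW_sum, ← EW_mul, ← mul_sum]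
  refine EW_congr fun w _ => ?_
  have : ∀ v y : R n, 2 ^ w.sum * (2 * v + 1) = 3 ^ H * y + cw w ↔
      y = th n ^ H * (2 ^ w.sum * (2 * v + 1) - cw w) := fun v y =>
    ⟨fun e => by linear_combination -th n ^ H * e - y * pow_th n H, fun e => by
      linear_combination -3 ^ H * e - (2 ^ w.sum * (2 * v + 1) - cw w) * pow_th n H⟩
  simp only [card_filter, this]
  push_cast
  rw [sum_comm]
  simp [ZMod.card, mul_comm]

theorem den_nonneg (n H : ℕ) (A : ℤ) (y : R n) : 0 ≤ den n H A y :=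
  EW_nonneg fun _ _ => by positivity

theorem level (y K L G m n : ℕ) {Z : ℝ} (hZ : 0 ≤ Z) :
    ∑ A ∈ range n, (if 3 ^ (L + G) / 2 ^ A ≤ Z then 3 ^ (L + G) / 2 ^ A / 2 else 0) *
      den n (L + G) A y - Z / 2 * dnf n (L + G)
        (fun W => if Good K (W.take L) ∧ (W.drop L).sum < m then 0 else 1) y ≤
      #{p ∈ Q y K G m Z | p.1 = L} := by
  have a1 : #{W ∈ wds (L + G) | Rw W ≤ Z ∧ (Good K (W.take L) ∧ (W.drop L).sum < m) ∧ V y W} ≤
      #{p ∈ Q y K G m Z | p.1 = L} := by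
    refine card_le_card_of_surjOn (fun p => wd (L + G) p.2) fun W hW => ?_
    obtain ⟨b1, b2, ⟨b3, b4⟩, v, b5⟩ := mem_filter.1 (mem_coe.1 hW)
    rw [(mem_wds.1 b1).1] at b5
    obtain ⟨c1, c2⟩ := bwd b1 b5
    refine ⟨(L, 2 * v + 1), mem_coe.2 (mem_filter.2 ⟨mem_Q.2 ?_, rfl⟩), c1⟩
    rw [← c1, wd_add] at b2 b3 b4
    rw [List.take_left' (len_wd _ _)] at b3
    rw [List.drop_left' (len_wd _ _)] at b4
    exact ⟨by omega, by rw [← Function.iterate_add_apply, c2], b3, b4, by rwa [← Rw_append]⟩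
  refine le_trans ?_ (Nat.cast_le.2 a1)
  generalize L + G = M
  rw [card_filter]
  push_cast
  simp only [den, dnf, ← EW_mul, ← EW_sum, ← EW_sub]
  rw [EW, div_le_iff₀ (by positivity), sum_mul]
  refine sum_le_sum fun W hW => ?_
  by_cases e : W.sum < n
  · have := fiber_card (n := n) (m := 3 ^ M * y + cw W) e
    push_cast at this
    rw [sum_eq_single_of_mem W.sum (mem_range.2 e) fun A _ hA => by
      rw [if_neg (by omega : ¬ (A : ℤ) - W.sum = 0), mul_zero], if_pos (sub_self _), this]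
    simp only [V, Rw, (mem_wds.1 hW).1]
    by_cases e1 : ∃ u, 2 ^ W.sum * (2 * u + 1) = 3 ^ M * y + cw W
    · have b : (3 : ℝ) ^ M / 2 ^ W.sum / 2 * (2 ^ (W.sum + 1) : ℕ) = 3 ^ M := by
        push_cast
        field_simp
        ring
      simp only [e1, if_true, and_true]
      by_cases e2 : (3 : ℝ) ^ M / 2 ^ W.sum ≤ Z
      · simp only [e2, if_true, true_and, b]
        split_ifs
        · simp
        · rw [← b, one_mul, zero_mul, sub_nonpos]
          gcongr
      · simp only [e2, if_false, false_and, zero_mul, zero_sub, neg_nonpos]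
        positivity
    · simp [e1]
  · rw [sum_eq_zero fun A hA => by
      rw [if_neg (by rw [mem_range] at hA; omega : ¬ (A : ℤ) - W.sum = 0), mul_zero], zero_sub]
    exact le_trans (neg_nonpos.2 (by positivity)) (by positivity)

theorem not_nice {K L t : ℕ} (hK : 0 < K) (hL : t ≤ L) : EW (L + 11 * t)
    (fun W => if Good (K + 1) (W.take L) ∧ (W.drop L).sum < 14 * t then (0 : ℝ) else 1) ≤
      2 * (14 / 15) ^ t + 1 / K := by
  have a1 : EW L (fun w => (if (5 / 2 : ℝ) ^ L ≤ 2 ^ w.sum then (1 : ℝ) else 0) +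
      1 / K / 3 ^ L * cw w) ≤ (14 / 15) ^ t + 1 / K := by
    rw [EW_add, EW_mul]
    exact add_le_add ((markov' L).trans (pow_le_pow_of_le_one (by norm_num) (by norm_num) hL))
      ((mul_le_mul_of_nonneg_left (EW_cw L) (by positivity)).trans_eq (by field_simp))
  have a2 := markov (11 * t) (B := 2 ^ (14 * t)) (by positivity)
  have a3 : (7 / 3 : ℝ) ^ (11 * t) / 2 ^ (14 * t) ≤ (14 / 15) ^ t := by
    rw [pow_mul, pow_mul, ← div_pow]
    exact pow_le_pow_left₀ (by positivity) (by norm_num) t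
  refine le_trans (EW_mono fun W hW => ?_) ((EW_split _ _ _ _).trans_le
    ((add_le_add a1 (a2.trans a3)).trans_eq (by ring)))
  have b1 : (W.take L).length = L := by simp [(mem_wds.1 hW).1]
  generalize W.take L = w at *
  generalize (W.drop L).sum = B
  have b2 : (0 : ℝ) ≤ 1 / K / 3 ^ L * cw w := by positivity
  split_ifs with e1 e2 e3 e4 e5 e6 e7 <;> try linarith
  rw [zero_add, add_zero, div_div, one_div, ← div_eq_inv_mul, one_le_div (by positivity)]
  by_contra e
  refine e1 ⟨⟨by rw [Rw, b1]; exact typ e5, (not_le.1 e).le.trans ?_⟩,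
    (pow_lt_pow_iff_right₀ one_lt_two).1 (not_le.1 e7)⟩
  rw [b1]
  push_cast
  gcongr
  have : (1 : ℝ) / (L + 1) ≤ 1 := div_le_one_of_le₀ (by linarith [L.cast_nonneg (α := ℝ)])
    (by positivity)
  linarith

theorem half {J : ℕ} (hJ : 11 ≤ J) :
    1 / 2 ≤ EW J (fun w => if (5 / 2 : ℝ) ^ J ≤ 2 ^ w.sum then (0 : ℝ) else 1) := by
  have a1 := (markov' J).trans (pow_le_pow_of_le_one (by norm_num) (by norm_num) hJ)
  have a2 : EW J (fun w => if (5 / 2 : ℝ) ^ J ≤ 2 ^ w.sum then (0 : ℝ) else 1) =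
      1 - EW J fun w => if (5 / 2 : ℝ) ^ J ≤ 2 ^ w.sum then (1 : ℝ) else 0 := by
    rw [← EW_const J (1 : ℝ), ← EW_sub, EW_const]
    exact EW_congr fun w _ => by split_ifs <;> norm_num
  norm_num at a1
  linarith

theorem mode {H : ℕ} (hH : 11 ≤ H) : ∃ A : ℕ, ¬ (5 / 2 : ℝ) ^ H ≤ 2 ^ A ∧
    1 / (2 * (2 * H + 1)) ≤ EW H fun w => if (A : ℤ) - w.sum = 0 then (1 : ℝ) else 0 := by
  obtain ⟨A, -, hA⟩ := exists_le_of_sum_le (s := range (2 * H + 1)) (by simp)
    (f := fun _ => (1 / (2 * (2 * H + 1)) : ℝ)) (g := fun A => EW H fun w =>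
      if A = w.sum then (if (5 / 2 : ℝ) ^ H ≤ 2 ^ A then 0 else 1) else 0) (by
    rw [← EW_sum, sum_const, card_range, nsmul_eq_mul]
    refine le_trans (le_of_eq (by push_cast; field_simp)) ((half hH).trans_eq
      (EW_congr fun w hw => ?_))
    rw [sum_ite_eq', if_pos (mem_range.2 (Nat.lt_succ_of_le (sum_le_of_mem hw)))])
  refine ⟨A, fun e => ?_, hA.trans (EW_mono fun w _ => ?_)⟩
  · simp only [e, if_true, ite_self, EW_const] at hA
    exact absurd hA (not_le.2 (by positivity))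
  · split_ifs <;> first | omega | norm_num

theorem pbase (C : ℝ) (hC : 0 ≤ C) : ∃ (K s₀ n r : ℕ) (β Z₀ : ℝ), 1 ≤ K ∧ 0 < β ∧ β ≤ 1 ∧
    40000 ≤ s₀ ∧ 2 ^ s₀ ≤ Z₀ ∧ K * C ≤ β * s₀ ^ 4 ∧ r % 2 = 1 ∧ ∀ y : ℕ, y % 2 ^ n = r % 2 ^ n →
    ∀ (s : ℕ) (Z : ℝ), 2 ^ s ≤ Z → Z < 2 ^ (s + 1) → Z₀ ≤ Z → Z < Z₀ * 3 ^ (s / 400) →
      ∃ t, 400 * t ≤ s ∧ s ≤ 404 * t + 1000 ∧ β * Z ≤ #(Q y K (11 * t) (14 * t) Z) := by
  obtain ⟨D, hD0, hD⟩ := mix 3
  obtain ⟨E, hE0, hE⟩ := polyK 3 (ρ := 14 / 15) (by norm_num) (by norm_num)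
  obtain ⟨J, hJ⟩ := exists_nat_ge (6000 + 6000 * D + 6000 * 60 ^ 3 * E + 8000 * C)
  have hJ1 : 6000 ≤ J := by
    have : (6000 : ℝ) ≤ J := by nlinarith
    exact_mod_cast this
  have hJ0 : (0 : ℝ) < J := by exact_mod_cast (by omega)
  have hm := hD (3 * J)
  generalize hn : 14 * (3 * J) = n at hm
  generalize hH : 10 * (3 * J) = H at hm
  obtain ⟨A₀, hA1, hA2⟩ := mode (H := H) (by omega)
  have hA3 := typ hA1
  have hA4 : A₀ ≤ 40 * J := by
    refine (pow_le_pow_iff_right₀ one_lt_two).1 ((not_le.1 hA1).le.trans ?_)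
    rw [show H = 3 * (10 * J) by omega, show 40 * J = 4 * (10 * J) by ring, pow_mul,
      pow_mul _ 4]
    exact pow_le_pow_left₀ (by norm_num) (by norm_num) (10 * J)
  generalize hZ₀ : (3 : ℝ) ^ H / 2 ^ A₀ = Z₀ at hA3
  obtain ⟨s₀, hs1, hs2⟩ := exists_nat_pow_near ((one_le_pow₀ (by norm_num)).trans hA3) one_lt_two
  have hs3 := depth_le (hA3.trans hs2.le)
  have hs4 : s₀ ≤ 2 * H := by
    refine (pow_le_pow_iff_right₀ one_lt_two).1 (hs1.trans ?_)
    rw [← hZ₀, pow_mul]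
    exact (div_le_self (by positivity) (one_le_pow₀ one_le_two)).trans
      (pow_le_pow_left₀ (by norm_num) (by norm_num) _)
  have hs5 : 5 * s₀ ≤ 8 * H := by
    refine (pow_le_pow_iff_right₀ (one_lt_two (α := ℝ))).1 ?_
    rw [mul_comm 5, pow_mul, pow_mul]
    refine (pow_le_pow_left₀ (by positivity) (hs1.trans (hZ₀.symm.le.trans
      (div_le_self (by positivity) (one_le_pow₀ one_le_two)))) 5).trans ?_
    rw [← pow_mul, mul_comm, pow_mul]
    exact pow_le_pow_left₀ (by norm_num) (by norm_num) _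
  generalize ht : s₀ / 400 = t
  obtain ⟨g, hg⟩ : ∃ g : ℕ → List ℕ → ℝ, ∀ j, g j = fun W => if Good (6000 * J ^ 2 + 1)
    (W.take (H + j - 11 * t)) ∧ (W.drop (H + j - 11 * t)).sum < 14 * t then 0 else 1 :=
    ⟨_, fun _ => rfl⟩
  obtain ⟨r, -, hr⟩ := exists_le_of_sum_le (s := univ) univ_nonempty
    (f := fun _ => (1 / (3000 * J) : ℝ)) (g := fun y : R n => den n H A₀ y / 12 -
      (∑ j ∈ range J, ∑ A ∈ range n, |den n (H + j) A y - EW j fun v => den n H (A - v.sum) y|) / 2 -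
      (∑ j ∈ range J, dnf n (H + j) (g j) y) / 2) (by
    have a1 : ∑ y, den n H A₀ y = 2 ^ n * EW H fun w => if (A₀ : ℤ) - w.sum = 0 then 1 else 0 := by
      rw [← sum_dnf]
      simp only [den, dnf, ite_mul, one_mul, zero_mul]
    have a2 : ∀ j ∈ range J, ∑ y, ∑ A ∈ range n, |den n (H + j) A y -
        EW j fun v => den n H (A - v.sum) y| ≤ 2 ^ n * (1 / (6000 * J ^ 2)) := fun j _ => by
      have := hm j
      rw [← sum_div, div_le_iff₀' (by positivity), sum_comm] at this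
      refine this.trans (mul_le_mul_of_nonneg_left ?_ (by positivity))
      rw [div_le_div_iff₀ (by positivity) (by positivity)]
      push_cast
      calc D * (6000 * J ^ 2) = (6000 * D) * J ^ 2 := by ring
        _ ≤ (J : ℝ) * J ^ 2 := by gcongr; nlinarith
        _ = 1 * (J : ℝ) ^ 3 := by ring
        _ ≤ _ := by gcongr; linarith
    have a3 : ∀ j ∈ range J, ∑ y, dnf n (H + j) (g j) y ≤ 2 ^ n * (3 / (6000 * J ^ 2)) :=
      fun j _ => by
        have := not_nice (K := 6000 * J ^ 2) (L := H + j - 11 * t) (t := t) (by positivity)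
          (by omega)
        rw [Nat.sub_add_cancel (by omega), ← hg] at this
        rw [sum_dnf]
        refine mul_le_mul_of_nonneg_left (this.trans ?_) (by positivity)
        have b : E / (t + 1) ^ 3 ≤ 1 / (6000 * J ^ 2) := by
          rw [div_le_div_iff₀ (by positivity) (by positivity)]
          have : (J : ℝ) ≤ 60 * (t + 1) := by exact_mod_cast (by omega)
          refine le_of_mul_le_mul_left ?_ (show (0 : ℝ) < 60 ^ 3 by norm_num)
          calc 60 ^ 3 * (E * (6000 * J ^ 2)) = (6000 * 60 ^ 3 * E) * J ^ 2 := by ring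
            _ ≤ (J : ℝ) * J ^ 2 := by gcongr; nlinarith
            _ = (J : ℝ) ^ 3 := by ring
            _ ≤ (60 * (t + 1 : ℝ)) ^ 3 := by gcongr
            _ = _ := by ring
        push_cast
        have := hE t
        rw [show (3 : ℝ) / (6000 * J ^ 2) = 3 * (1 / (6000 * J ^ 2)) by ring]
        linarith
    have a4 := sum_le_card_nsmul _ _ _ a2
    have a5 := sum_le_card_nsmul _ _ _ a3
    rw [sum_comm, card_range, nsmul_eq_mul] at a4 a5
    have a6 : (1 : ℝ) / (122 * J) ≤ 1 / (2 * (2 * H + 1)) := by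
      rw [div_le_div_iff₀ (by positivity) (by positivity)]
      exact_mod_cast (by omega)
    have a7 := mul_le_mul_of_nonneg_left (a6.trans hA2) (show (0 : ℝ) ≤ 2 ^ n by positivity)
    rw [sum_const, card_univ, ZMod.card, nsmul_eq_mul, Nat.cast_pow, Nat.cast_ofNat,
      sum_sub_distrib, sum_sub_distrib, ← sum_div, ← sum_div, ← sum_div, a1]
    have a8 : ∀ c : ℝ, J * (2 ^ n * (c / (6000 * J ^ 2))) = c / 6000 * (2 ^ n / J) := fun c => by
      field_simp
    have a9 : ∀ c : ℝ, 2 ^ n * (1 / (c * J)) = 1 / c * (2 ^ n / J) := fun c => by ring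
    rw [a8] at a4 a5
    rw [a9] at a7 ⊢
    linarith [show (0 : ℝ) ≤ 2 ^ n / J by positivity])
  have hg0 : ∀ j (y : R n), 0 ≤ dnf n (H + j) (g j) y := fun j y => EW_nonneg fun W _ => by
    rw [hg]
    positivity
  refine ⟨6000 * J ^ 2 + 1, s₀, n, r.val, 1 / (3000 * J), Z₀, by omega, by positivity, ?_, by omega,
    hs1, ?_, ?_, fun y hy s Z h1 h2 h3 h4 => ?_⟩
  · rw [div_le_one (by positivity)]
    exact_mod_cast (by omega)
  · have a1 : (7 * J : ℝ) ≤ s₀ := by exact_mod_cast (by omega)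
    have a2 : (1 : ℝ) ≤ J ^ 2 := one_le_pow₀ (by exact_mod_cast (by omega))
    push_cast
    calc (6000 * J ^ 2 + 1) * C ≤ (6400 * J ^ 2) * (J / 8000 : ℝ) := by
          gcongr
          · linarith
          · nlinarith
      _ ≤ 1 / (3000 * J) * (7 * J : ℝ) ^ 4 := by
          rw [show 1 / (3000 * J) * (7 * J : ℝ) ^ 4 = 2401 / 3000 * J ^ 3 by field_simp; ring]
          nlinarith [show (0 : ℝ) ≤ J ^ 3 by positivity]
      _ ≤ _ := by gcongr
  · have a1 : 0 < den n H A₀ r := by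
      have := sum_nonneg (s := range J) fun j _ => hg0 j r
      have := sum_nonneg (s := range J) fun j _ => sum_nonneg (s := range n) fun A _ =>
        abs_nonneg (den n (H + j) A r - EW j fun v => den n H (A - v.sum) r)
      have : (0 : ℝ) < 1 / (3000 * J) := by positivity
      linarith
    have a2 := cV_den (n := n) (H := H) (k := 0) (A := A₀) (by omega) r.val
    rw [ZMod.natCast_zmod_val, Nat.cast_zero, sub_zero] at a2
    obtain ⟨u, hu⟩ := card_pos.1 (Nat.cast_pos.1 (lt_of_lt_of_eq (by positivity) a2.symm))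
    obtain ⟨b1, -, v, b2⟩ := mem_filter.1 hu
    rw [(mem_wds.1 b1).1] at b2
    rw [← (bwd b1 b2).2]
    exact T_odd H (by omega)
  rw [← ZMod.natCast_eq_natCast_iff', ZMod.natCast_zmod_val] at hy
  subst hy
  have hZ0 : 0 < Z₀ := lt_of_lt_of_le (by positivity) hs1
  have hZ : 0 < Z := hZ0.trans_le h3
  have b1 : s₀ < s + 1 := (pow_lt_pow_iff_right₀ one_lt_two).1 ((hs1.trans h3).trans_lt h2)
  have b2 : s < s₀ + 1 + 2 * (s / 400) := by
    refine (pow_lt_pow_iff_right₀ (one_lt_two (α := ℝ))).1 (h1.trans_lt (h4.trans ?_))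
    rw [pow_add _ (s₀ + 1), pow_mul]
    exact mul_lt_mul hs2 (pow_le_pow_left₀ (by norm_num) (by norm_num) _) (by positivity)
      (by positivity)
  refine ⟨t, by omega, by omega, (mul_le_mul_of_nonneg_right hr hZ.le).trans ?_⟩
  have c1 : ∀ j ∈ range J, (EW j fun u => if Z₀ * Rw u ≤ Z then Z₀ * Rw u else 0) *
      (den n H A₀ y / 2) - Z / 2 * ∑ A ∈ range n, |den n (H + j) A y -
        EW j fun v => den n H (A - v.sum) y| - Z / 2 * dnf n (H + j) (g j) y ≤
      #{p ∈ Q y (6000 * J ^ 2 + 1) (11 * t) (14 * t) Z | p.1 + 11 * t - H = j} := by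
    intro j hj
    rw [mem_range] at hj
    have d1 := level y (6000 * J ^ 2 + 1) (H + j - 11 * t) (11 * t) (14 * t) n hZ.le
    rw [Nat.sub_add_cancel (by omega), ← hg] at d1
    refine le_trans (sub_le_sub_right ?_ _) (d1.trans (Nat.cast_le.2 (card_le_card fun p hp => ?_)))
    swap
    · rw [mem_filter] at hp ⊢
      exact ⟨hp.1, by omega⟩
    obtain ⟨c, hc⟩ : ∃ c : ℕ → ℝ, ∀ A, c A =
      if 3 ^ (H + j) / 2 ^ A ≤ Z then 3 ^ (H + j) / 2 ^ A / 2 else 0 := ⟨_, fun _ => rfl⟩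
    have d2 : ∀ A, 0 ≤ c A ∧ c A ≤ Z / 2 := fun A => by
      rw [hc]
      split_ifs
      · exact ⟨by positivity, by linarith⟩
      · exact ⟨le_rfl, by positivity⟩
    simp only [← hc]
    rw [sub_le_iff_le_add, mul_sum, ← sum_add_distrib, ← EW_mul']
    refine le_trans (EW_mono (g := fun v => ∑ A ∈ range n, c A * den n H (A - v.sum) y)
      fun v hv => ?_) ?_
    · have d3 := sum_le_of_mem hv
      refine le_trans (le_of_eq ?_) (single_le_sum (f := fun A : ℕ => c A * den n H (A - v.sum) y)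
        (fun A _ => mul_nonneg (d2 A).1 (den_nonneg _ _ _ _))
        (mem_range.2 (show A₀ + v.sum < n by omega)))
      have d4 : Z₀ * Rw v = 3 ^ (H + j) / 2 ^ (A₀ + v.sum) := by
        rw [← hZ₀, Rw, (mem_wds.1 hv).1]
        ring
      simp only [hc, d4, Nat.cast_add, add_sub_cancel_right]
      split_ifs <;> ring
    · rw [EW_sum]
      refine sum_le_sum fun A _ => ?_
      rw [EW_mul, ← sub_le_iff_le_add', ← mul_sub, abs_sub_comm]
      exact (mul_le_mul_of_nonneg_left (le_abs_self _) (d2 A).1).trans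
        (mul_le_mul_of_nonneg_right (d2 A).2 (abs_nonneg _))
  have c2 := sum_le_sum c1
  rw [← Nat.cast_sum, sum_card_fiberwise_eq_card_filter, sum_sub_distrib, sum_sub_distrib,
    ← sum_mul, ← mul_sum, ← mul_sum] at c2
  refine le_trans ?_ (c2.trans (Nat.cast_le.2 (card_filter_le _ _)))
  have c3 : 1 / 2 ≤ EW J fun u => if Z < Z₀ * Rw u then (1 : ℝ) else 0 := by
    refine (half (by omega)).trans (EW_mono fun u hu => ?_)
    split_ifs with e1 e2 e3 <;> norm_num
    refine e3 (h4.trans_le (mul_le_mul_of_nonneg_left (le_trans ?_ ((typ e1).trans_eq ?_)) hZ0.le))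
    · calc (3 : ℝ) ^ (s / 400) ≤ ((6 / 5) ^ 7) ^ (s / 400) := by gcongr; norm_num
        _ ≤ _ := by rw [← pow_mul]; exact pow_le_pow_right₀ (by norm_num) (by omega)
    · rw [Rw, (mem_wds.1 hu).1]
  have c4 := mul_le_mul_of_nonneg_right ((mul_le_mul_of_nonneg_left c3 (by positivity)).trans
    (passage J hZ0 h3)) (den_nonneg n H A₀ y)
  linarith

end Pool.Agent.MP_2e2529_nt
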