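import Pool.Agent.MP_2e2529_nt.Pos3

/-! Seeds in every odd residue class, and the positive lower density of predecessors. -/

namespace Pool.Agent.MP_2e2529_nt

open Finset Real Classical

theorem nine_pow (n : ℕ) : ∃ c, 9 ^ 2 ^ n = 1 + 2 ^ (n + 3) * (2 * c + 1) := by
  induction n with
  | zero => exact ⟨0, by norm_num⟩
  | succ n ih =>
    obtain ⟨c, hc⟩ := ih
    exact ⟨c + 2 ^ (n + 1) * (2 * c + 1) ^ 2, by rw [pow_succ, pow_mul, hc]; ring⟩

theorem nine_cover {z r : ℕ} (hz : z % 2 = 1) (h : z % 8 = r % 8) (n : ℕ) :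
    ∃ j, 9 ^ j * z ≡ r [MOD 2 ^ (n + 3)] := by
  induction n with
  | zero => exact ⟨0, by simpa [Nat.ModEq] using h⟩
  | succ n ih =>
    obtain ⟨j, hj⟩ := ih
    obtain ⟨q, hq⟩ := hj.dvd
    obtain ⟨c, hc⟩ := nine_pow n
    obtain ⟨e, he⟩ : Odd (9 ^ j * z) := (Odd.pow (by decide)).mul (Nat.odd_iff.2 hz)
    rcases Int.even_or_odd' q with ⟨k, rfl | rfl⟩
    · exact ⟨j, Nat.modEq_of_dvd ⟨k, by rw [hq]; push_cast; ring⟩⟩
    · refine ⟨2 ^ n + j, Nat.modEq_of_dvd ⟨k - c - e - 2 * c * e, ?_⟩⟩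
      rw [pow_add, mul_assoc, hc]
      rw [he] at hq ⊢
      push_cast at hq ⊢
      linear_combination hq

theorem T_three (d z : ℕ) : T^[d] (3 ^ d * z) = z := by
  induction d with
  | zero => simp
  | succ d ih =>
    rw [Function.iterate_succ_apply, (T_uniq (a := 0) (y := 3 ^ d * z) (by norm_num)
      (by norm_num; ring)).2, ih]

theorem aperiodic {z : ℕ} (hz : 0 < z) :
    ∃ D, ∀ d, D ≤ d → ∀ m, 0 < m → T^[m] (3 ^ d * z) ≠ 3 ^ d * z := by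
  by_contra h
  push Not at h
  obtain ⟨d₀, -, p, hp, h0⟩ := h 0
  have h1 : Function.IsPeriodicPt T p z := by
    have := Function.IsPeriodicPt.apply_iterate h0 d₀
    rwa [T_three] at this
  obtain ⟨d, hd, m, hm, h2⟩ := h (∑ i ∈ range p, T^[i] z)
  have h3 : T^[m * d] (3 ^ d * z) = 3 ^ d * z := Function.IsPeriodicPt.mul_const h2 d
  obtain ⟨c, hc⟩ := Nat.exists_eq_add_of_le' (Nat.le_mul_of_pos_left d hm)
  rw [hc, Function.iterate_add_apply, T_three, ← h1.iterate_mod_apply] at h3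
  have h4 := single_le_sum (f := fun i => T^[i] z) (fun _ _ => Nat.zero_le _)
    (mem_range.2 (Nat.mod_lt c hp))
  have h5 := Nat.lt_pow_self (n := d) (show 1 < 3 by norm_num)
  have h6 := Nat.le_mul_of_pos_right (3 ^ d) hz
  simp only [h3] at h4
  omega

theorem seed {b r : ℕ} (hb : b % 2 = 1) (hr : r % 2 = 1) (n : ℕ) : ∃ y, y % 2 ^ n = r % 2 ^ n ∧
    (∃ k, T^[k] y = b) ∧ ∀ m, 0 < m → T^[m] y ≠ y := by
  obtain ⟨P, hP⟩ : ∃ P : ℕ → Prop, ∀ z, P z ↔ ∃ k, T^[k] z = b := ⟨_, fun _ => Iff.rfl⟩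
  have h3 : ∀ d z, P z → P (3 ^ d * z) := fun d z h => by
    obtain ⟨k, hk⟩ := (hP z).1 h
    exact (hP _).2 ⟨k + d, by rw [Function.iterate_add_apply, T_three, hk]⟩
  have h2 : ∀ z, P z → z % 2 = 1 → P ((3 * z + 1) / 2) := fun z h e => by
    obtain ⟨k, hk⟩ := (hP z).1 h
    exact (hP _).2 ⟨k + 1, by
      rw [Function.iterate_succ_apply, (T_uniq (a := 1) (y := z) (by norm_num) (by omega)).2, hk]⟩
  have h0 : P b := (hP b).2 ⟨0, rfl⟩
  obtain ⟨z₀, a1, a2⟩ : ∃ z, P z ∧ (z % 16 = 3 ∨ z % 16 = 7) := by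
    by_contra e
    push Not at e
    have := e _ (h3 0 b h0)
    have := e _ (h3 1 b h0)
    have := e _ (h3 2 b h0)
    have := e _ (h3 3 b h0)
    have : b % 16 < 16 := Nat.mod_lt _ (by norm_num)
    interval_cases h : b % 16 <;> omega
  obtain ⟨z, a3, a4⟩ : ∃ z, P z ∧ z % 8 = r % 8 := by
    by_contra e
    push Not at e
    have := e _ a1
    have := e _ (h3 1 _ a1)
    have := e _ (h2 _ a1 (by omega))
    have := e _ (h3 1 _ (h2 _ a1 (by omega)))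
    omega
  obtain ⟨j, hj⟩ := nine_cover (by omega) a4 n
  obtain ⟨D, hD⟩ := aperiodic (z := z) (by omega)
  obtain ⟨c, hc⟩ := nine_pow n
  refine ⟨3 ^ (2 * (2 ^ n * D + j)) * z, ?_, (hP _).1 (h3 _ _ a3), hD _ ?_⟩
  · refine Nat.ModEq.of_dvd (pow_dvd_pow 2 (Nat.le_add_right n 3)) (Nat.ModEq.trans ?_ hj)
    rw [pow_mul, pow_add _ _ j, pow_mul, mul_assoc]
    have : 9 ^ 2 ^ n ≡ 1 [MOD 2 ^ (n + 3)] := by rw [hc]; exact Nat.add_mul_mod_self_left _ _ _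
    simpa using (this.pow D).mul_right (9 ^ j * z)
  · have := Nat.le_mul_of_pos_left D (Nat.two_pow_pos n)
    omega

theorem pos_odd {b : ℕ} (hb : b % 2 = 1) : ∃ c : ℝ, 0 < c ∧ ∃ X₀ : ℕ, ∀ X : ℕ, X₀ ≤ X →
    c * X ≤ #{x ∈ Icc 1 X | x % 2 = 1 ∧ ∃ k, T^[k] x = b} := by
  obtain ⟨C, hC0, hC⟩ := prec
  obtain ⟨K, s₀, n, r, β, Z₀, h1, h2, h3, h4, h5, h6, h7, h8⟩ := pbase C hC0
  obtain ⟨y, a1, ⟨k, a2⟩, a3⟩ := seed hb h7 n
  refine ⟨β / 2 / (y + K + 1), by positivity, ⌈Z₀ * (y + K + 1)⌉₊, fun X hX => ?_⟩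
  generalize hZ : (X : ℝ) / (y + K + 1) = Z
  have b1 : Z₀ ≤ Z := by rw [← hZ, le_div_iff₀ (by positivity)]; exact Nat.ceil_le.1 hX
  obtain ⟨s, b2, b3⟩ := exists_nat_pow_near ((one_le_pow₀ one_le_two).trans (h5.trans b1))
    one_lt_two
  obtain ⟨t, c1, -, c2⟩ := hC y K s₀ β Z₀ h1 h2.le h3 h4 h5 h6 (h8 y a1) s Z b2 b3 b1
  have b4 : 0 ≤ Z := le_trans (by positivity) b2
  refine le_trans ?_ (c2.trans (Nat.cast_le.2 (card_le_card_of_injOn Prod.snd (fun p hp => ?_)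
    fun p hp q hq e => ?_)))
  · rw [div_mul_eq_mul_div, mul_div_assoc, hZ]
    gcongr
    exact le_mul_of_one_le_right (by positivity) (le_add_of_nonneg_right (by positivity))
  · have d1 := mem_Q.1 hp
    have d2 : (3 : ℝ) ^ (11 * t) ≤ Z := by
      refine le_trans ?_ ((pow_le_pow_right₀ one_le_two (show 20 * t ≤ s by omega)).trans b2)
      rw [pow_mul, pow_mul]
      exact pow_le_pow_left₀ (by norm_num) (by norm_num) t
    have d3 : (p.2 : ℝ) ≤ X := d1.le.trans ((add_le_add le_rfl d2).trans_eq (by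
      rw [← hZ]
      field_simp))
    refine mem_coe.2 (mem_filter.2 ⟨mem_Icc.2 ⟨by have := d1.1; omega, by exact_mod_cast d3⟩, d1.1,
      k + (p.1 + 11 * t), ?_⟩)
    rw [Function.iterate_add_apply, Function.iterate_add_apply, d1.2.1, a2]
  · have d1 := (mem_Q.1 hp).2.1
    have d2 := (mem_Q.1 hq).2.1
    rw [e] at d1
    have d3 : ∀ i j z, T^[i] z = y → T^[j] z = y → ¬ i < j := fun i j z e1 e2 h => by
      obtain ⟨c, rfl⟩ := Nat.exists_eq_add_of_le' h.le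
      rw [Function.iterate_add_apply, e1] at e2
      exact a3 c (by omega) e2
    exact Prod.ext (le_antisymm (not_lt.1 (d3 _ _ _ d2 d1)) (not_lt.1 (d3 _ _ _ d1 d2))) e

theorem pos_final (i : ℕ → ℕ) (hi : ∀ x, i x = if x % 2 = 0 then x / 2 else 4 * x / 3) {a : ℕ}
    (ha : ¬ 8 ∣ a) : ∃ c : ℝ, 0 < c ∧ ∃ X₀ : ℕ, ∀ X : ℕ, X₀ ≤ X →
      c * X ≤ #{x ∈ Icc 1 X | ∃ k, i^[k] x = a} := by
  obtain ⟨m, j, hm, hj⟩ : ∃ m j, m % 2 = 1 ∧ i^[j] (3 * m) = a := by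
    have : a % 2 = 1 ∨ a % 4 = 2 ∨ a % 8 = 4 := by omega
    rcases this with h | h | h
    · refine ⟨a, 3, h, ?_⟩
      simp only [Function.iterate_succ_apply', Function.iterate_zero, id, hi]
      split_ifs <;> omega
    · refine ⟨a / 2, 2, by omega, ?_⟩
      simp only [Function.iterate_succ_apply', Function.iterate_zero, id, hi]
      split_ifs <;> omega
    · refine ⟨a / 4, 1, by omega, ?_⟩
      simp only [Function.iterate_succ_apply', Function.iterate_zero, id, hi]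
      split_ifs <;> omega
  obtain ⟨c, hc, X₀, h⟩ := pos_odd (b := 3 * m) (by omega)
  refine ⟨c, hc, X₀, fun X hX => (h X hX).trans (Nat.cast_le.2 (card_le_card fun x hx => ?_))⟩
  obtain ⟨b1, b2, k, b3⟩ := mem_filter.1 hx
  obtain ⟨l, hl⟩ := T_iter i hi k x b2
  exact mem_filter.2 ⟨b1, j + l, by rw [Function.iterate_add_apply, hl, b3, hj]⟩

end Pool.Agent.MP_2e2529_nt
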