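import Pool.Agent.MP_2e2529_nt.Dyn

/-! The renewal inequality and the recursion over scales. -/

namespace Pool.Agent.MP_2e2529_nt

open Finset Real Classical

theorem step (α : ℕ) : ∃ C : ℝ, 0 ≤ C ∧ ∀ (N X t : ℕ) (β : ℝ), 4 ≤ t → 0 ≤ β → 2 ^ (32 * t) ≤ X →
    2 ^ (19 * t) * (N + 2) ≤ X → (∀ X', 2 * X' ≤ X → (Bd N X' : ℝ) ≤ β * X') →
    (Bd N X : ℝ) ≤ (β + C / (t + 1) ^ α) * X := by
  obtain ⟨C, hC0, hC⟩ := mix α
  obtain ⟨K, hK0, hK⟩ := polyK α (ρ := 14 / 15) (by norm_num) (by norm_num)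
  refine ⟨2 * C + 4 * K, by positivity, fun N X t β ht hβ h1 h2 ih => ?_⟩
  have hm := hC t t
  generalize hn : 14 * t = n at hm
  generalize hH : 10 * t = H at hm
  have h3 : (3 : ℝ) ^ (H + t) ≤ 2 ^ (18 * t) := by
    rw [← hH, show 10 * t + t = 11 * t by ring, pow_mul, pow_mul]
    gcongr
    norm_num
  have h4 : (3 : ℝ) ^ (H + t) * 2 ^ n ≤ X :=
    calc (3 : ℝ) ^ (H + t) * 2 ^ n ≤ 2 ^ (18 * t) * 2 ^ n := by gcongr
      _ = 2 ^ (32 * t) := by rw [← hn]; ring
      _ ≤ _ := by exact_mod_cast h1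
  have h5 : (3 : ℝ) ^ (H + t) * (N + 2) ≤ (14 / 15) ^ t * X :=
    calc (3 : ℝ) ^ (H + t) * (N + 2) ≤ 1 * 2 ^ (18 * t) * (N + 2) := by rw [one_mul]; gcongr
      _ ≤ (14 / 15 * 2) ^ t * 2 ^ (18 * t) * (N + 2) := by gcongr; exact one_le_pow₀ (by norm_num)
      _ = (14 / 15) ^ t * (2 ^ (19 * t) * (N + 2)) := by rw [mul_pow]; ring
      _ ≤ _ := by gcongr; exact_mod_cast h2
  have a1 : Bd N X ≤ #{x ∈ range (X + 1) | (2 : ℝ) ^ n ≤ 2 ^ (wd (H + t) x).sum} +
      ∑ A ∈ range n, #(Pr N (2 ^ A * X / 3 ^ (H + t)) (H + t) 0 A) := by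
    refine le_trans ?_ (Nat.add_le_add_left (sum_le_sum fun A _ => Pr_up N X (H + t) A) _)
    simp only [← filter_filter (fun x => x % 2 = 1 ∧ Bad N x)]
    rw [sum_card_fiberwise_eq_card_filter]
    refine (card_le_card fun x hx => ?_).trans (card_union_le _ _)
    by_cases e : (wd (H + t) x).sum < n
    · exact mem_union_right _ (mem_filter.2 ⟨hx, mem_range.2 e⟩)
    · exact mem_union_left _ (mem_filter.2 ⟨(mem_filter.1 hx).1,
        pow_le_pow_right₀ one_le_two (not_lt.1 e)⟩)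
  have a2 : ∀ A ∈ range n, (#(Pr N (2 ^ A * X / 3 ^ (H + t)) (H + t) 0 A) : ℝ) ≤
      EW t (fun v => 3 ^ t / 2 ^ v.sum * (#(Pr N (2 ^ A * X / 3 ^ (H + t)) H v.sum A) : ℝ)) +
      2 * X * ((∑ y : R n, |den n (H + t) A y - EW t fun v => den n H (A - v.sum) y|) / 2 ^ n) := by
    intro A hA
    have b0 : ((2 ^ A * X / 3 ^ (H + t) : ℕ) : ℝ) ≤ 2 ^ A * X / 3 ^ (H + t) :=
      Nat.cast_div_le.trans_eq (by push_cast; rfl)
    generalize 2 ^ A * X / 3 ^ (H + t) = Y at b0
    have b1 : ∀ (k : ℕ) (x : ℝ), 3 ^ t / 2 ^ k * (3 ^ H * 2 ^ k / 2 ^ (A + 1) * x) =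
        3 ^ (H + t) * 2 ^ 0 / 2 ^ (A + 1) * x := fun k x => by field_simp; ring
    simp only [Pr_card (mem_range.1 hA), b1, EW_mul, EW_sum, Nat.cast_zero, sub_zero]
    rw [← sub_le_iff_le_add', ← mul_sub, ← sum_sub_distrib]
    have b2 := fiber_sum (S := univ) (p := fun y => (y : R n))
      (g := fun y => |den n (H + t) A y - EW t fun v => den n H (A - v.sum) y|) Y (2 ^ n)
      (fun _ => mem_univ _) (fun x y e => (ZMod.natCast_eq_natCast_iff' _ _ _).1 e)
      fun _ => abs_nonneg _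
    refine (mul_le_mul_of_nonneg_left ((sum_le_sum fun y _ => ?_).trans b2) (by positivity)).trans ?_
    · rw [← mul_sub]
      split_ifs
      · rw [one_mul]
        exact le_abs_self _
      · rw [zero_mul]
        exact abs_nonneg _
    · rw [← mul_assoc, ← mul_div_assoc (2 * X : ℝ), mul_div_right_comm (2 * X : ℝ)]
      refine mul_le_mul_of_nonneg_right ?_ (sum_nonneg fun _ _ => abs_nonneg _)
      have b3 : (1 : ℝ) ≤ 2 ^ A := one_le_pow₀ one_le_two
      rw [le_div_iff₀ (by positivity)] at b0 ⊢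
      push_cast
      rw [show (3 : ℝ) ^ (H + t) * 2 ^ 0 / 2 ^ (A + 1) * (Y / 2 ^ n + 1) * 2 ^ n =
        (Y * 3 ^ (H + t) + 3 ^ (H + t) * 2 ^ n) / 2 ^ (A + 1) by field_simp,
        div_le_iff₀ (by positivity), pow_succ]
      nlinarith [X.cast_nonneg (α := ℝ)]
  have a3 : ∀ k : ℕ, ∑ A ∈ range n, 3 ^ t / 2 ^ k * (#(Pr N (2 ^ A * X / 3 ^ (H + t)) H k A) : ℝ) ≤
      β * X + (14 / 15) ^ t * X + X * if (5 / 2 : ℝ) ^ t ≤ 2 ^ k then 1 else 0 := by
    intro k
    have b0 : ((2 ^ k * X / 3 ^ t : ℕ) : ℝ) ≤ 2 ^ k * X / 3 ^ t :=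
      Nat.cast_div_le.trans_eq (by push_cast; rfl)
    have b1 := (Nat.cast_le (α := ℝ)).2 (Pr_low N X H t k n)
    generalize 2 ^ k * X / 3 ^ t = X' at b0 b1
    push_cast at b1
    rw [← mul_sum]
    refine (mul_le_mul_of_nonneg_left b1 (by positivity)).trans ?_
    have b2 : (3 : ℝ) ^ t / 2 ^ k * (3 ^ H * (N + 2)) ≤ (14 / 15) ^ t * X := by
      refine le_trans ?_ h5
      rw [pow_add, mul_comm (3 ^ H : ℝ) (3 ^ t), mul_assoc]
      gcongr
      exact div_le_self (by positivity) (one_le_pow₀ one_le_two)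
    have b3 : (3 : ℝ) ^ t / 2 ^ k * X' ≤ X :=
      (mul_le_mul_of_nonneg_left b0 (by positivity)).trans_eq (by field_simp)
    rw [mul_add]
    split_ifs with e
    · have b4 : Bd N X' ≤ X' := by
        rw [Bd]
        refine (card_le_card (t := Icc 1 X') fun x hx => ?_).trans (by simp)
        simp only [mem_filter, mem_range, mem_Icc] at hx ⊢
        omega
      have b5 : (3 : ℝ) ^ t / 2 ^ k * Bd N X' ≤ 3 ^ t / 2 ^ k * X' := by gcongr
      linarith [mul_nonneg hβ (X.cast_nonneg (α := ℝ))]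
    · have b4 : (2 : ℝ) * X' ≤ X := by
        obtain ⟨c, rfl⟩ := Nat.exists_eq_add_of_le ht
        calc (2 : ℝ) * X' ≤ 2 * ((5 / 2) ^ (4 + c) * X / 3 ^ (4 + c)) := by
              refine mul_le_mul_of_nonneg_left (b0.trans ?_) zero_le_two
              gcongr
              exact (not_le.1 e).le
          _ = 2 * (5 / 6) ^ 4 * (5 / 6) ^ c * X := by
              rw [show (5 / 6 : ℝ) = 5 / 2 / 3 by norm_num, div_pow _ 3 c]
              field_simp
              ring
          _ ≤ 1 * 1 * X := by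
              gcongr
              · norm_num
              · exact pow_le_one₀ (by norm_num) (by norm_num)
          _ = X := by ring
      have b5 : (3 : ℝ) ^ t / 2 ^ k * Bd N X' ≤ 3 ^ t / 2 ^ k * (β * X') := by
        gcongr
        exact ih X' (by exact_mod_cast b4)
      have b6 := mul_le_mul_of_nonneg_left b3 hβ
      linarith
  have a4 := cnt (H + t) X (B := 2 ^ n) (by positivity)
  have a5 : ((X : ℝ) + 3 ^ (H + t)) * ((7 / 3) ^ (H + t) / 2 ^ n) ≤ (X + X) * (14 / 15) ^ t := by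
    refine mul_le_mul (add_le_add le_rfl ?_) ?_ (by positivity) (by positivity)
    · exact (le_mul_of_one_le_right (by positivity) (one_le_pow₀ one_le_two)).trans h4
    · rw [← hH, ← hn, show 10 * t + t = 11 * t by ring, pow_mul, pow_mul, ← div_pow]
      exact pow_le_pow_left₀ (by positivity) (by norm_num) t
  have a6 := sum_le_sum a2
  rw [sum_add_distrib, ← mul_sum, ← EW_sum] at a6
  have a7 := EW_mono (H := t) fun v _ => a3 v.sum
  rw [EW_add, EW_const, EW_mul] at a7
  have a8 := markov t (B := (5 / 2) ^ t) (by positivity)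
  rw [← div_pow, show (7 / 3 / (5 / 2) : ℝ) = 14 / 15 by norm_num] at a8
  have a9 := (Nat.cast_le (α := ℝ)).2 a1
  push_cast at a9
  have hX := X.cast_nonneg (α := ℝ)
  have a10 := mul_le_mul_of_nonneg_left a8 hX
  have a11 := mul_le_mul_of_nonneg_left hm hX
  have a12 := mul_le_mul_of_nonneg_left (hK t) hX
  rw [add_div, mul_div_assoc, mul_div_assoc]
  linarith

theorem odd_bound (α : ℕ) : ∃ K : ℝ, 0 ≤ K ∧ ∀ N X : ℕ, 1600 ≤ Nat.log 2 N →
    (Bd N X : ℝ) ≤ K / (Nat.log 2 N + 1) ^ α * X := by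
  obtain ⟨C, hC0, hC⟩ := step (α + 2)
  obtain ⟨K, hK0, hK⟩ := polyK α (ρ := 14 / 15) (by norm_num) (by norm_num)
  obtain ⟨L, hL0, hL1, hL2⟩ : ∃ L : ℝ, 0 ≤ L ∧ 2 * K * 8 ^ α ≤ L ∧ C * 400 ^ (α + 2) ≤ L :=
    ⟨2 * K * 8 ^ α + C * 400 ^ (α + 2), by positivity, le_add_of_nonneg_right (by positivity),
      le_add_of_nonneg_left (by positivity)⟩
  refine ⟨2 * L, by positivity, fun N X hN => ?_⟩
  generalize hν : Nat.log 2 N = ν at hN
  generalize hb : L / ((ν : ℝ) + 1) ^ α = b
  have hb0 : 0 ≤ b := by rw [← hb]; positivity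
  have hN0 : N ≠ 0 := by rintro rfl; simp at hν; omega
  have n1 := Nat.pow_log_le_self 2 hN0
  have n2 := Nat.lt_pow_succ_log_self one_lt_two N
  rw [hν] at n1 n2
  have key : ∀ s X : ℕ, X < 2 ^ (s + 1) → (Bd N X : ℝ) ≤ b * (2 - 1 / (s + 1)) * X := by
    have mono : ∀ s : ℕ, (1 : ℝ) / (s + 1) ≤ 1 := fun s =>
      (div_le_one (by positivity)).2 (by linarith [s.cast_nonneg (α := ℝ)])
    have small : ∀ s X : ℕ, X ≤ N → (Bd N X : ℝ) ≤ b * (2 - 1 / (s + 1)) * X := by
      intro s X h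
      rw [Bd, card_eq_zero.2 (filter_eq_empty_iff.2 fun x hx e => ?_), Nat.cast_zero]
      · have := mono s
        exact mul_nonneg (mul_nonneg hb0 (by linarith)) X.cast_nonneg
      · have := e.2 0
        rw [mem_range] at hx
        simp only [Function.iterate_zero, id] at this
        omega
    intro s
    induction s with
    | zero => exact fun X h => small 0 X (by omega)
    | succ s ih =>
      intro X hX
      have hX0 := X.cast_nonneg (α := ℝ)
      by_cases h1 : X < 2 ^ (s + 1)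
      · refine (ih X h1).trans ?_
        push_cast
        gcongr
        linarith
      by_cases h2 : X ≤ N
      · exact small _ X h2
      have h3 : ν ≤ s + 1 := by
        have := (Nat.pow_lt_pow_iff_right one_lt_two).1 (n1.trans_lt ((not_le.1 h2).trans hX))
        omega
      have h4 : ∀ j, j ≤ s + 1 → 2 ^ j ≤ X := fun j hj =>
        (Nat.pow_le_pow_right two_pos hj).trans (not_lt.1 h1)
      by_cases h5 : 10 * (s + 1) ≤ 11 * ν
      · have a1 := base (N := N) (X := X) (m := (s + 1) / 8) (hX.le.trans ((Nat.pow_le_pow_right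
          two_pos (by omega)).trans ((pow_add _ _ _).trans_le (Nat.mul_le_mul_left _ n1))))
          (le_trans (by
            rw [pow_mul, pow_mul]
            exact Nat.pow_le_pow_left (by norm_num) _) (h4 (8 * ((s + 1) / 8)) (by omega)))
        refine a1.trans (mul_le_mul_of_nonneg_right ?_ hX0)
        have a2 : K / (((s + 1) / 8 : ℕ) + 1 : ℝ) ^ α ≤ K * 8 ^ α / (ν + 1) ^ α := by
          rw [div_le_div_iff₀ (by positivity) (by positivity), mul_assoc, ← mul_pow]
          gcongr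
          exact_mod_cast (by omega)
        have a3 : 2 * K * 8 ^ α / (ν + 1) ^ α ≤ b := by rw [← hb]; gcongr
        have a4 := hK ((s + 1) / 8)
        have a5 := mul_le_mul_of_nonneg_left (mono (s + 1)) hb0
        rw [mul_assoc, mul_div_assoc] at a3
        linarith
      · have a1 := hC N X ((s + 1) / 400) (b * (2 - 1 / (s + 1))) (by omega)
          (mul_nonneg hb0 (by linarith [mono s])) (h4 _ (by omega))
          ((Nat.mul_le_mul_left _ (show N + 2 ≤ 2 ^ (ν + 2) by rw [pow_succ]; omega)).trans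
            ((pow_add _ _ _).symm.trans_le (h4 _ (by omega)))) fun X' h => ih X' (by
              rw [pow_succ] at hX
              omega)
        refine a1.trans (mul_le_mul_of_nonneg_right ?_ hX0)
        have a2 : C / (((s + 1) / 400 : ℕ) + 1 : ℝ) ^ (α + 2) ≤ L / (s + 2) ^ (α + 2) := by
          refine le_trans ?_ (div_le_div_of_nonneg_right hL2 (by positivity))
          rw [div_le_div_iff₀ (by positivity) (by positivity), mul_assoc, ← mul_pow]
          gcongr
          exact_mod_cast (by omega)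
        have a3 : L / (s + 2) ^ (α + 2) ≤ b / ((s + 1) * (s + 2)) := by
          rw [← hb, div_div, pow_add, sq]
          have : (ν : ℝ) ≤ s + 1 := by exact_mod_cast h3
          gcongr <;> linarith
        push_cast
        rw [show b * (2 - 1 / (s + 1 + 1)) = b * (2 - 1 / (s + 1)) + b / ((s + 1) * (s + 2)) by
          field_simp; ring]
        linarith
  refine (key X X (X.lt_two_pow_self.trans (Nat.pow_lt_pow_right one_lt_two X.lt_succ_self))).trans ?_
  rw [mul_div_assoc, hb, mul_comm 2 b]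
  gcongr
  exact sub_le_self _ (by positivity)

end Pool.Agent.MP_2e2529_nt
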