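import Mathlib

/-! Words over the three branches, averages over words, moments and the exchange identity. -/

namespace Pool.Agent.MP_2e2529_nt

open Finset

/-- The words of length `H` in the letters `0, 1, 2`. -/
def wds : ℕ → Finset (List ℕ)
  | 0 => {[]}
  | H + 1 => (range 3 ×ˢ wds H).image fun p => p.1 :: p.2

/-- The offset of a word. -/
def cw : List ℕ → ℕ
  | [] => 0
  | a :: w => 2 ^ a * cw w + min a 1 * 3 ^ w.length

/-- The average over words of length `H`. -/
noncomputable def EW {K : Type} [Field K] (H : ℕ) (f : List ℕ → K) : K :=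
  (∑ w ∈ wds H, f w) / 3 ^ H

theorem mem_wds {H : ℕ} {w : List ℕ} : w ∈ wds H ↔ w.length = H ∧ ∀ a ∈ w, a < 3 := by
  induction H generalizing w with
  | zero =>
    simp only [wds, mem_singleton, List.length_eq_zero_iff]
    exact ⟨fun h => by simp [h], fun h => h.1⟩
  | succ H ih =>
    simp only [wds, mem_image, mem_product, mem_range, Prod.exists]
    constructor
    · rintro ⟨a, v, ⟨h1, h2⟩, rfl⟩
      obtain ⟨h3, h4⟩ := ih.1 h2
      refine ⟨by simp [h3], fun b hb => ?_⟩
      rcases List.mem_cons.1 hb with rfl | hb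
      exacts [h1, h4 b hb]
    · rintro ⟨h1, h2⟩
      cases w with
      | nil => simp at h1
      | cons a v =>
        exact ⟨a, v, ⟨h2 a (by simp), ih.2 ⟨by simpa using h1, fun b hb => h2 b (by simp [hb])⟩⟩,
          rfl⟩

theorem sum_wds_succ {M : Type} [AddCommMonoid M] (H : ℕ) (f : List ℕ → M) :
    ∑ w ∈ wds (H + 1), f w =
      ∑ w ∈ wds H, f (0 :: w) + ∑ w ∈ wds H, f (1 :: w) + ∑ w ∈ wds H, f (2 :: w) := by
  rw [wds, sum_image, sum_product]
  · simp [sum_range_succ]
  · rintro ⟨a, v⟩ _ ⟨b, u⟩ _ h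
    simp only [List.cons.injEq] at h
    exact Prod.ext h.1 h.2

theorem sum_wds_add {M : Type} [AddCommMonoid M] (H L : ℕ) (f : List ℕ → M) :
    ∑ w ∈ wds (H + L), f w = ∑ w ∈ wds H, ∑ v ∈ wds L, f (w ++ v) := by
  induction H generalizing f with
  | zero => simp [wds]
  | succ H ih =>
    rw [show H + 1 + L = H + L + 1 by omega, sum_wds_succ, sum_wds_succ, ih, ih, ih]
    rfl

theorem card_wds (H : ℕ) : (wds H).card = 3 ^ H := by
  induction H with
  | zero => simp [wds]
  | succ H ih =>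
    rw [card_eq_sum_ones, sum_wds_succ, ← card_eq_sum_ones, ih]
    ring

theorem sum_le_of_mem {H : ℕ} {w : List ℕ} (h : w ∈ wds H) : w.sum ≤ 2 * H := by
  obtain ⟨rfl, h2⟩ := mem_wds.1 h
  have := List.sum_le_card_nsmul w 2 fun a ha => by have := h2 a ha; omega
  rw [smul_eq_mul] at this
  omega

theorem cw_append (w v : List ℕ) : cw (w ++ v) = 2 ^ w.sum * cw v + 3 ^ v.length * cw w := by
  induction w with
  | nil => simp [cw]
  | cons a w ih =>
    simp only [List.cons_append, cw, ih, List.length_append, List.sum_cons]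
    ring

theorem cw_le (w : List ℕ) : cw w ≤ 2 ^ w.sum * 3 ^ w.length := by
  induction w with
  | nil => simp [cw]
  | cons a w ih =>
    simp only [cw, List.sum_cons, List.length_cons]
    have h1 : min a 1 * 3 ^ w.length ≤ 2 ^ (a + w.sum) * 3 ^ w.length :=
      Nat.mul_le_mul_right _ ((min_le_right _ _).trans Nat.one_le_two_pow)
    have h2 : 2 ^ a * cw w ≤ 2 ^ (a + w.sum) * 3 ^ w.length := by
      rw [pow_add, mul_assoc]
      exact Nat.mul_le_mul_left _ ih
    rw [pow_succ 3, ← mul_assoc]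
    omega

section Field

variable {K : Type} [Field K] [CharZero K]

omit [CharZero K] in
theorem EW_zero (f : List ℕ → K) : EW 0 f = f [] := by simp [EW, wds]

theorem EW_succ (H : ℕ) (f : List ℕ → K) : EW (H + 1) f =
    (EW H (fun w => f (0 :: w)) + EW H (fun w => f (1 :: w)) + EW H (fun w => f (2 :: w))) / 3 := by
  simp only [EW, sum_wds_succ]
  field_simp
  ring

theorem EW_append (H L : ℕ) (f : List ℕ → K) :
    EW (H + L) f = EW H fun w => EW L fun v => f (w ++ v) := by
  simp only [EW, sum_wds_add, ← sum_div]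
  field_simp
  ring

omit [CharZero K] in
theorem EW_congr {H : ℕ} {f g : List ℕ → K} (h : ∀ w ∈ wds H, f w = g w) : EW H f = EW H g := by
  rw [EW, EW, sum_congr rfl h]

theorem EW_const (H : ℕ) (c : K) : EW H (fun _ => c) = c := by
  simp only [EW, sum_const, card_wds, nsmul_eq_mul]
  push_cast
  field_simp

omit [CharZero K] in
theorem EW_add (H : ℕ) (f g : List ℕ → K) :
    EW H (fun w => f w + g w) = EW H f + EW H g := by
  simp only [EW, sum_add_distrib, add_div]

omit [CharZero K] in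
theorem EW_sub (H : ℕ) (f g : List ℕ → K) :
    EW H (fun w => f w - g w) = EW H f - EW H g := by
  simp only [EW, sum_sub_distrib, sub_div]

omit [CharZero K] in
theorem EW_mul (H : ℕ) (c : K) (f : List ℕ → K) : EW H (fun w => c * f w) = c * EW H f := by
  simp only [EW, ← mul_sum, mul_div_assoc]

omit [CharZero K] in
theorem EW_mul' (H : ℕ) (c : K) (f : List ℕ → K) : EW H (fun w => f w * c) = EW H f * c := by
  simp only [EW, ← sum_mul]
  ring

omit [CharZero K] in
theorem EW_sum {ι : Type} (H : ℕ) (s : Finset ι) (f : ι → List ℕ → K) :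
    EW H (fun w => ∑ i ∈ s, f i w) = ∑ i ∈ s, EW H (f i) := by
  simp only [EW, ← sum_div]
  rw [sum_comm]

omit [CharZero K] in
theorem EW_comm (H L : ℕ) (f : List ℕ → List ℕ → K) :
    EW H (fun w => EW L fun v => f w v) = EW L fun v => EW H fun w => f w v := by
  simp only [EW, ← sum_div]
  rw [sum_comm]
  ring

theorem EW_pow (H : ℕ) (z : K) : EW H (fun w => z ^ w.sum) = ((1 + z + z ^ 2) / 3) ^ H := by
  induction H with
  | zero => simp [EW_zero]
  | succ H ih =>
    simp only [EW_succ, List.sum_cons, pow_add, EW_mul, ih]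
    ring

theorem EW_cw (H : ℕ) : EW H (fun w => (cw w : ℝ)) ≤ 3 ^ H := by
  induction H with
  | zero => simp [EW_zero, cw]
  | succ H ih =>
    rw [EW_succ]
    have h : ∀ a : ℕ, EW H (fun w => (cw (a :: w) : ℝ)) =
        2 ^ a * EW H (fun w => (cw w : ℝ)) + (min a 1 : ℕ) * 3 ^ H := fun a => by
      rw [← EW_mul, ← EW_const H (((min a 1 : ℕ) : ℝ) * 3 ^ H), ← EW_add]
      refine EW_congr fun w hw => ?_
      rw [cw, (mem_wds.1 hw).1]
      push_cast
      rfl
    rw [h, h, h, pow_succ (3 : ℝ)]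
    norm_num
    linarith

theorem exchange (M : ℕ) (h : ℕ → K) :
    EW M (fun w => (w.count 0 : K) * h (w.sum + 1)) = EW M fun w => (w.count 1 : K) * h w.sum := by
  induction M generalizing h with
  | zero => simp [EW_zero]
  | succ M ih =>
    have h1 := ih fun j => h j
    have h2 := ih fun j => h (j + 1)
    have h3 := ih fun j => h (j + 2)
    simp only [EW_succ, List.sum_cons, List.count_cons]
    norm_num
    simp only [add_mul, one_mul, EW_add, add_comm 1, add_comm 2, add_right_comm _ 2 1] at *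
    rw [h1, h2, h3]
    ring

theorem EW_count (M b : ℕ) (hb : b < 3) :
    EW M (fun w => (w.count b : ℝ)) = M / 3 ∧
      EW M (fun w => ((w.count b : ℝ) - M / 3) ^ 2) = (2 * M / 9 : ℝ) := by
  induction M with
  | zero => simp [EW_zero]
  | succ M ih =>
    obtain ⟨h1, h2⟩ := ih
    have h3 : ∀ c : ℝ, EW M (fun w => (w.count b : ℝ) + c) = M / 3 + c := fun c => by
      rw [EW_add, h1, EW_const]
    have h4 : ∀ c : ℝ, EW M (fun w => ((w.count b : ℝ) + c - (M + 1 : ℕ) / 3) ^ 2) =
        2 * M / 9 + (c - 1 / 3) ^ 2 := fun c => by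
      have : ∀ w : List ℕ, ((w.count b : ℝ) + c - (M + 1 : ℕ) / 3) ^ 2 =
          ((w.count b : ℝ) - M / 3) ^ 2 + (2 * (c - 1 / 3) * ((w.count b : ℝ) + (- (M / 3))) +
            (c - 1 / 3) ^ 2) := fun w => by
        push_cast
        ring
      simp only [this, EW_add, EW_mul, h1, h2, EW_const]
      ring
    simp only [EW_succ, List.count_cons, Nat.cast_add _ (ite _ _ _), h3, h4]
    interval_cases b <;> norm_num <;> constructor <;> ring

end Field

theorem EW_mono {H : ℕ} {f g : List ℕ → ℝ} (h : ∀ w ∈ wds H, f w ≤ g w) : EW H f ≤ EW H g :=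
  div_le_div_of_nonneg_right (sum_le_sum h) (by positivity)

theorem EW_nonneg {H : ℕ} {f : List ℕ → ℝ} (h : ∀ w ∈ wds H, 0 ≤ f w) : 0 ≤ EW H f :=
  div_nonneg (sum_nonneg h) (by positivity)

theorem norm_EW_le (H : ℕ) (f : List ℕ → ℂ) : ‖EW H f‖ ≤ EW H fun w => ‖f w‖ := by
  rw [EW, EW, norm_div, norm_pow, Complex.norm_ofNat]
  exact div_le_div_of_nonneg_right (norm_sum_le _ _) (by positivity)

theorem ofReal_EW (H : ℕ) (f : List ℕ → ℝ) : ((EW H f : ℝ) : ℂ) = EW H fun w => (f w : ℂ) := by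
  simp [EW]

/-- The sum of a long word is almost invariant under a shift. -/
theorem shift_le {γ : ℝ} (hγ : 0 < γ) {M : ℕ} (hM : 8 / γ ^ 2 ≤ M) (h : ℕ → ℂ)
    (hh : ∀ j, ‖h j‖ ≤ 1) : ‖EW M (fun w => h (w.sum + 1)) - EW M (fun w => h w.sum)‖ ≤ γ := by
  have hM0 : (0 : ℝ) < M := lt_of_lt_of_le (by positivity) hM
  have key : ∀ b < 3, ∀ g : List ℕ → ℂ, (∀ w, ‖g w‖ ≤ 1) →
      ‖EW M fun w => ((w.count b : ℂ) - M / 3) * g w‖ ≤ γ * M / 6 := by
    intro b hb g hg
    refine (norm_EW_le _ _).trans ((EW_mono (g := fun w =>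
      3 * γ / 8 * ((w.count b : ℝ) - M / 3) ^ 2 + 2 / (3 * γ)) fun w _ => ?_).trans ?_)
    · rw [norm_mul, show ((w.count b : ℂ) - M / 3) = (((w.count b : ℝ) - M / 3 : ℝ) : ℂ) by
        push_cast; rfl, Complex.norm_real, Real.norm_eq_abs, ← sq_abs]
      generalize hx : |(w.count b : ℝ) - M / 3| = x
      have h0 : 0 ≤ x := hx ▸ abs_nonneg _
      refine (mul_le_of_le_one_right h0 (hg w)).trans ?_
      rw [← sub_nonneg, show 3 * γ / 8 * x ^ 2 + 2 / (3 * γ) - x =
        (3 * γ * x - 4) ^ 2 / (24 * γ) by field_simp; ring]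
      positivity
    · rw [EW_add, EW_mul, (EW_count M b hb).2, EW_const]
      rw [div_le_iff₀ (by positivity)] at hM
      have : 2 / (3 * γ) ≤ γ * M / 12 := by
        rw [div_le_div_iff₀ (by positivity) (by positivity)]
        nlinarith
      linarith
  have h0 := key 0 (by norm_num) (fun w => h (w.sum + 1)) fun w => hh _
  have h1 := key 1 (by norm_num) (fun w => h w.sum) fun w => hh _
  simp only [sub_mul, EW_sub, EW_mul] at h0 h1
  rw [exchange] at h0
  have h2 := (norm_sub_le _ _).trans (add_le_add h1 h0)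
  rw [sub_sub_sub_cancel_left, ← mul_sub, norm_mul, norm_div, Complex.norm_natCast,
    Complex.norm_ofNat] at h2
  have h3 : (M : ℝ) / 3 * ‖EW M (fun w => h (w.sum + 1)) - EW M (fun w => h w.sum)‖ ≤
      M / 3 * γ := by linarith
  exact le_of_mul_le_mul_left h3 (by positivity)

end Pool.Agent.MP_2e2529_nt
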